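import Pool.Agent.W489.Dem.Stubs

set_option autoImplicit false

open scoped Topology
open Metric Set Filter

namespace W489.Dem.A1

/-- the second derivative test -/
theorem second_le {φ : ℝ → ℝ} (hφ : ContDiffAt ℝ 2 φ 0) (hmax : IsLocalMax φ 0) :
    deriv (deriv φ) 0 ≤ 0 := by
  by_contra hcon
  push Not at hcon
  have hd : deriv φ 0 = 0 := hmax.deriv_eq_zero
  have hmin : IsLocalMin φ 0 := isLocalMin_of_deriv_deriv_pos hcon hd hφ.continuousAt
  have hconst : φ =ᶠ[𝓝 0] fun _ => φ 0 := by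
    filter_upwards [hmax, hmin] with t h1 h2
    exact le_antisymm h1 h2
  have h1 : deriv φ =ᶠ[𝓝 0] deriv (fun _ => φ 0) := hconst.deriv
  have h2 : deriv (deriv φ) 0 = deriv (deriv (fun _ : ℝ => φ 0)) 0 := h1.deriv_eq
  rw [h2] at hcon
  simp at hcon

theorem diff_deriv {f : ℝ → ℝ} (hf : ContDiffAt ℝ 2 f 0) : DifferentiableAt ℝ (deriv f) 0 := by
  have h : ContDiffAt ℝ 1 (deriv f) 0 := ContDiffAt.derivWithin hf (by norm_num)
  exact h.differentiableAt (by norm_num)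

theorem dd_add {φ ψ : ℝ → ℝ} (hφ : ContDiffAt ℝ 2 φ 0) (hψ : ContDiffAt ℝ 2 ψ 0) :
    deriv (deriv fun τ => φ τ + ψ τ) 0 = deriv (deriv φ) 0 + deriv (deriv ψ) 0 := by
  have h1 : ∀ᶠ τ in 𝓝 (0 : ℝ), DifferentiableAt ℝ φ τ := by
    filter_upwards [hφ.eventually (by simp)] with τ hτ
    exact hτ.differentiableAt (by norm_num)
  have h2 : ∀ᶠ τ in 𝓝 (0 : ℝ), DifferentiableAt ℝ ψ τ := by
    filter_upwards [hψ.eventually (by simp)] with τ hτ
    exact hτ.differentiableAt (by norm_num)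
  have h3 : deriv (fun τ => φ τ + ψ τ) =ᶠ[𝓝 0] fun τ => deriv φ τ + deriv ψ τ := by
    filter_upwards [h1, h2] with τ h1 h2
    exact deriv_fun_add h1 h2
  rw [h3.deriv_eq]
  exact deriv_fun_add (diff_deriv hφ) (diff_deriv hψ)

/-- the second derivative of the logarithm of a quadratic polynomial -/
theorem dd_log (a b : ℝ) (ha : 0 < a) :
    deriv (deriv fun τ : ℝ => 2 * Real.log (a + b * τ - τ ^ 2)) 0 =
      (-4 * a - 2 * b ^ 2) / a ^ 2 := by
  have hg : ∀ τ : ℝ, HasDerivAt (fun τ : ℝ => a + b * τ - τ ^ 2) (b - 2 * τ) τ := by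
    intro τ
    have h1 := ((hasDerivAt_const τ a).add ((hasDerivAt_id τ).const_mul b)).sub
      ((hasDerivAt_id τ).pow 2)
    convert! h1 using 1
    simp
  have hpos : ∀ᶠ τ in 𝓝 (0 : ℝ), 0 < a + b * τ - τ ^ 2 := by
    have hc : ContinuousAt (fun τ : ℝ => a + b * τ - τ ^ 2) 0 := (hg 0).continuousAt
    have : (0 : ℝ) < a + b * 0 - 0 ^ 2 := by simpa using ha
    exact hc.eventually (lt_mem_nhds this)
  have h1 : deriv (fun τ : ℝ => 2 * Real.log (a + b * τ - τ ^ 2)) =ᶠ[𝓝 0]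
      fun τ => 2 * ((b - 2 * τ) / (a + b * τ - τ ^ 2)) := by
    filter_upwards [hpos] with τ hτ
    exact (((hg τ).log hτ.ne').const_mul 2).deriv
  rw [h1.deriv_eq]
  have h2 : HasDerivAt (fun τ : ℝ => b - 2 * τ) (-2) 0 := by
    have := (hasDerivAt_const (0 : ℝ) b).sub ((hasDerivAt_id (0 : ℝ)).const_mul 2)
    convert! this using 1
    simp
  have h3 := (h2.div (hg 0) (by simpa using ha.ne')).const_mul 2
  have h4 : deriv (fun τ : ℝ => 2 * ((b - 2 * τ) / (a + b * τ - τ ^ 2))) 0 = _ := h3.deriv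
  rw [h4]
  have ha' := ha.ne'
  simp only [mul_zero, add_zero, sub_zero, ne_eq, OfNat.ofNat_ne_zero, not_false_eq_true, zero_pow]
  field_simp
  ring

theorem key {H : ℂ → ℝ} {κ : ℝ} (hκ : 0 < κ) (hH : Continuous H)
    (hlap : ∀ t, H t ≠ 0 → ContDiffAt ℝ 2 (fun t => Real.log (H t)) t ∧
      κ * H t ≤ lap (fun t => Real.log (H t)) t) {c : ℂ} (hc : 0 < H c) {r : ℝ} (hr : 0 < r) :
    H c ≤ 8 / κ / r ^ 2 := by
  let g : ℂ → ℝ := fun t => r ^ 2 - ‖t - c‖ ^ 2
  have hgc : Continuous g := by fun_prop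
  obtain ⟨t₁, ht₁, hmax'⟩ := (isCompact_closedBall c r).exists_isMaxOn (f := fun t => H t * g t ^ 2)
    ⟨c, mem_closedBall_self hr.le⟩ (hH.mul (hgc.pow 2)).continuousOn
  have hmax : ∀ t ∈ closedBall c r, H t * g t ^ 2 ≤ H t₁ * g t₁ ^ 2 := fun t ht => hmax' ht
  have hK : H c * r ^ 4 ≤ H t₁ * g t₁ ^ 2 := by
    have := hmax c (mem_closedBall_self hr.le)
    have h2 : g c = r ^ 2 := by simp [g]
    rw [h2, ← pow_mul] at this
    exact this
  have hKpos : 0 < H t₁ * g t₁ ^ 2 := lt_of_lt_of_le (by positivity) hK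
  have hg1 : 0 < g t₁ := by
    have h1 : 0 ≤ g t₁ := by
      simp only [g]
      have : ‖t₁ - c‖ ≤ r := by rwa [mem_closedBall, dist_eq_norm] at ht₁
      have := pow_le_pow_left₀ (norm_nonneg _) this 2
      linarith
    rcases h1.eq_or_lt with h | h
    · rw [← h] at hKpos; simp at hKpos
    · exact h
  have hH1 : 0 < H t₁ := by
    by_contra hcon
    push Not at hcon
    nlinarith [sq_nonneg (g t₁)]
  obtain ⟨hcd, hl⟩ := hlap t₁ hH1.ne'
  -- local maximum
  have hloc : ∀ᶠ t in 𝓝 t₁, Real.log (H t) + 2 * Real.log (g t) ≤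
      Real.log (H t₁) + 2 * Real.log (g t₁) := by
    have h1 : ∀ᶠ t in 𝓝 t₁, 0 < H t := hH.continuousAt.eventually (lt_mem_nhds hH1)
    have h2 : ∀ᶠ t in 𝓝 t₁, 0 < g t := hgc.continuousAt.eventually (lt_mem_nhds hg1)
    filter_upwards [h1, h2] with t h1 h2
    have h3 : t ∈ closedBall c r := by
      rw [mem_closedBall, dist_eq_norm]
      simp only [g] at h2
      exact abs_le_of_sq_le_sq' (by linarith) hr.le |>.2
    have h4 := hmax t h3
    have h5 := Real.log_le_log (by positivity) h4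
    rw [Real.log_mul h1.ne' (by positivity), Real.log_mul hH1.ne' (by positivity),
      Real.log_pow, Real.log_pow] at h5
    exact_mod_cast h5
  -- the two directions
  have hdir : ∀ d : ℂ, ‖d‖ = 1 → deriv (deriv fun τ : ℝ => Real.log (H (t₁ + τ * d))) 0 ≤
      (4 * g t₁ + 8 * ((t₁ - c) * (starRingEnd ℂ) d).re ^ 2) / g t₁ ^ 2 := by
    intro d hd
    have hline : ContDiff ℝ 2 (fun τ : ℝ => t₁ + (τ : ℂ) * d) :=
      contDiff_const.add ((Complex.ofRealCLM.contDiff).mul contDiff_const)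
    have hφ : ContDiffAt ℝ 2 (fun τ : ℝ => Real.log (H (t₁ + τ * d))) 0 := by
      have h1 : ContDiffAt ℝ 2 (fun t => Real.log (H t)) (t₁ + ((0 : ℝ) : ℂ) * d) := by
        simpa using hcd
      exact h1.comp (0 : ℝ) hline.contDiffAt
    set b : ℝ := -2 * ((t₁ - c) * (starRingEnd ℂ) d).re with hb
    have hge : ∀ τ : ℝ, g (t₁ + τ * d) = g t₁ + b * τ - τ ^ 2 := by
      intro τ
      simp only [g]
      have h1 : ‖t₁ + τ * d - c‖ ^ 2 = ‖t₁ - c‖ ^ 2 + 2 * τ * ((t₁ - c) * (starRingEnd ℂ) d).re +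
          τ ^ 2 := by
        have h2 : t₁ + τ * d - c = (t₁ - c) + τ * d := by ring
        rw [h2, ← Complex.normSq_eq_norm_sq, Complex.normSq_add, Complex.normSq_eq_norm_sq,
          Complex.normSq_eq_norm_sq, norm_mul, hd, map_mul, Complex.conj_ofReal]
        have h3 : ((t₁ - c) * ((τ : ℂ) * (starRingEnd ℂ) d)).re =
            τ * ((t₁ - c) * (starRingEnd ℂ) d).re := by
          rw [show (t₁ - c) * ((τ : ℂ) * (starRingEnd ℂ) d) =
            (τ : ℂ) * ((t₁ - c) * (starRingEnd ℂ) d) by ring, Complex.re_ofReal_mul]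
        rw [h3, Complex.norm_real, mul_one, Real.norm_eq_abs, sq_abs]
        ring
      rw [h1, hb]; ring
    have hψ : ContDiffAt ℝ 2 (fun τ : ℝ => 2 * Real.log (g t₁ + b * τ - τ ^ 2)) 0 := by
      refine contDiffAt_const.mul (ContDiffAt.log ?_ (by simpa using hg1.ne'))
      exact ((contDiff_const.add (contDiff_const.mul contDiff_id)).sub
        (contDiff_id.pow 2)).contDiffAt
    have hm : IsLocalMax (fun τ : ℝ => Real.log (H (t₁ + τ * d)) +
        2 * Real.log (g t₁ + b * τ - τ ^ 2)) 0 := by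
      have h1 : Tendsto (fun τ : ℝ => t₁ + (τ : ℂ) * d) (𝓝 0) (𝓝 t₁) := by
        have := (hline.continuous.tendsto 0)
        simpa using this
      filter_upwards [h1.eventually hloc] with τ hτ
      rw [hge] at hτ
      simpa using hτ
    have h1 := second_le (hφ.add hψ) hm
    have h2 := dd_add hφ hψ
    have h3 : deriv (deriv fun τ : ℝ => Real.log (H (t₁ + τ * d)) +
        2 * Real.log (g t₁ + b * τ - τ ^ 2)) 0 ≤ 0 := h1
    rw [h2, dd_log _ _ hg1] at h3
    have h4 : (-4 * g t₁ - 2 * b ^ 2) / g t₁ ^ 2 = -((4 * g t₁ + 8 * ((t₁ - c) *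
        (starRingEnd ℂ) d).re ^ 2) / g t₁ ^ 2) := by
      rw [hb]; ring
    rw [h4] at h3
    linarith
  have h1 := hdir 1 (by simp)
  have h2 := hdir Complex.I (by simp)
  simp only [mul_one, map_one] at h1
  have h3 : ((t₁ - c) * (starRingEnd ℂ) Complex.I).re = (t₁ - c).im := by
    simp
  rw [h3] at h2
  have h4 : ‖t₁ - c‖ ^ 2 = (t₁ - c).re ^ 2 + (t₁ - c).im ^ 2 := by
    rw [← Complex.normSq_eq_norm_sq, Complex.normSq_apply]; ring
  have h5 : κ * H t₁ ≤ 8 * r ^ 2 / g t₁ ^ 2 := by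
    refine hl.trans ?_
    unfold lap
    refine (add_le_add h1 h2).trans ?_
    rw [← add_div]
    apply div_le_div_of_nonneg_right _ (by positivity)
    have : g t₁ = r ^ 2 - ((t₁ - c).re ^ 2 + (t₁ - c).im ^ 2) := by simp only [g]; rw [h4]
    linarith
  have h6 : κ * (H t₁ * g t₁ ^ 2) ≤ 8 * r ^ 2 := by
    rw [le_div_iff₀ (by positivity)] at h5
    linarith
  have h7 : κ * (H c * r ^ 4) ≤ 8 * r ^ 2 := (mul_le_mul_of_nonneg_left hK hκ.le).trans h6
  rw [div_div, le_div_iff₀ (by positivity)]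
  have h8 : 0 < r ^ 2 := by positivity
  have h9a : κ * (H c * r ^ 4) = (H c * (κ * r ^ 2)) * r ^ 2 := by ring
  rw [h9a] at h7
  exact le_of_mul_le_mul_right h7 h8

theorem main : W489.Dem.S_A1 := by
  intro H κ hκ hH hnn hlap c
  by_contra hne
  have hc : 0 < H c := lt_of_le_of_ne (hnn c) (Ne.symm hne)
  set r : ℝ := Real.sqrt (16 / κ / H c) with hr
  have hpos : 0 < 16 / κ / H c := by positivity
  have hr0 : 0 < r := Real.sqrt_pos.2 hpos
  have h1 := key hκ hH hlap hc hr0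
  rw [hr, Real.sq_sqrt hpos.le] at h1
  have h2 : 8 / κ / (16 / κ / H c) = H c / 2 := by
    field_simp
    norm_num
  rw [h2] at h1
  linarith

end W489.Dem.A1
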