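import Pool.Agent.W489.Dem.Stubs

/-!
Three linear factors of odd multiplicity.
-/

set_option autoImplicit false

open scoped LinearAlgebra.Projectivization Topology
open Metric Set Filter

namespace W489.Dem.H2

theorem Ipow (k : Fin 3) (κ : ℂ) : (Complex.I ^ (k : ℕ) * κ) ^ 4 = κ ^ 4 := by
  have h : Complex.I ^ 4 = 1 := Complex.I_pow_four
  rw [mul_pow, ← pow_mul, mul_comm (k : ℕ) 4, pow_mul, h, one_pow, one_mul]

theorem not_both {s : Fin 3 → ℂ} (hs : s ≠ 0) (hf : ∑ i, s i ^ 4 = 0) (h0 : P0 s = 0) :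
    P1 s ≠ 0 := by
  intro h1
  unfold P0 at h0
  unfold P1 at h1
  rw [Fin.sum_univ_three] at hf
  have h2 : s 1 ^ 4 = 0 := by linear_combination 3 * h0 - h1
  have h3 : s 0 ^ 4 = 0 := by linear_combination h0 - 2 * h2
  have h4 : s 2 ^ 4 = 0 := by linear_combination hf - h3 - h2
  apply hs
  funext i
  fin_cases i
  · exact pow_eq_zero_iff (by norm_num) |>.1 h3
  · exact pow_eq_zero_iff (by norm_num) |>.1 h2
  · exact pow_eq_zero_iff (by norm_num) |>.1 h4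

/-- the fifth power case -/
theorem case5 {s : Fin 3 → ℂ} {P κ : ℂ} (hP : P ≠ 0) (hκ : κ ≠ 0)
    (h : ∀ x z, GG s x z = P * (x ^ 4 - κ ^ 4 * z ^ 4) ^ 5) : ∃ κ : ℂ, κ ≠ 0 ∧ ∀ k : Fin 3,
    ∃ (m : ℕ) (C : ℂ → ℂ → ℂ), Odd m ∧ Differentiable ℂ (fun p : ℂ × ℂ => C p.1 p.2) ∧
      (∀ x z, GG s x z = (x - Complex.I ^ (k : ℕ) * κ * z) ^ m * C x z) ∧
      ∀ z, z ≠ 0 → C (Complex.I ^ (k : ℕ) * κ * z) z ≠ 0 := by
  refine ⟨κ, hκ, fun k => ?_⟩
  set c := Complex.I ^ (k : ℕ) * κ with hc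
  have hc4 : c ^ 4 = κ ^ 4 := Ipow k κ
  have hc0 : c ≠ 0 := mul_ne_zero (pow_ne_zero _ Complex.I_ne_zero) hκ
  refine ⟨5, fun x z => P * (x ^ 3 + x ^ 2 * (c * z) + x * (c * z) ^ 2 + (c * z) ^ 3) ^ 5,
    by decide, by fun_prop, fun x z => ?_, fun z hz => ?_⟩
  · rw [h, ← hc4]; ring
  · have h1 : (c * z) ^ 3 + (c * z) ^ 2 * (c * z) + c * z * (c * z) ^ 2 + (c * z) ^ 3 =
      4 * (c * z) ^ 3 := by ring
    simp only [h1]
    exact mul_ne_zero hP (pow_ne_zero _ (mul_ne_zero (by norm_num)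
      (pow_ne_zero _ (mul_ne_zero hc0 hz))))

theorem main : S_H2 := by
  intro s hs hf
  by_cases h0 : P0 s = 0
  · have h1 := not_both hs hf h0
    obtain ⟨κ, hκ⟩ := IsAlgClosed.exists_pow_nat_eq (-1 : ℂ) (n := 4) (by norm_num)
    refine case5 (κ := κ) h1 ?_ fun x z => ?_
    · rintro rfl
      norm_num at hκ
    · rw [hκ]
      unfold GG
      rw [h0]; ring
  · by_cases h1 : P1 s = 0
    · refine case5 (κ := 1) h0 one_ne_zero fun x z => ?_
      unfold GG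
      rw [h1]; ring
    · obtain ⟨μ, hμ, hμ1, hμ2⟩ : ∃ μ : ℂ, μ ^ 5 = -P1 s / P0 s ∧ 1 - μ ≠ 0 ∧ 1 + μ ≠ 0 := by
        obtain ⟨μ, hμ⟩ := IsAlgClosed.exists_pow_nat_eq (-P1 s / P0 s) (n := 5) (by norm_num)
        have hω := Complex.isPrimitiveRoot_exp 5 (by norm_num)
        set ω := Complex.exp (2 * Real.pi * Complex.I / (5 : ℕ)) with hωdef
        have hω5 : ω ^ 5 = 1 := hω.pow_eq_one
        have hω1 : ω ≠ 1 := hω.ne_one (by norm_num)
        have hωm : ω ≠ -1 := by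
          intro h
          rw [h] at hω5
          norm_num at hω5
        by_cases ha : μ = 1
        · refine ⟨μ * ω, by rw [mul_pow, hω5, mul_one, hμ], ?_, ?_⟩
          · rw [ha, one_mul]
            exact sub_ne_zero.2 (Ne.symm hω1)
          · rw [ha, one_mul]
            intro h
            apply hωm
            linear_combination h
        · by_cases hb : μ = -1
          · refine ⟨μ * ω, by rw [mul_pow, hω5, mul_one, hμ], ?_, ?_⟩
            · rw [hb]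
              intro h
              apply hωm
              linear_combination h
            · rw [hb]
              intro h
              apply hω1
              linear_combination -h
          · refine ⟨μ, hμ, sub_ne_zero.2 (Ne.symm ha), ?_⟩
            intro h
            apply hb
            linear_combination h
      have hμ0 : μ ≠ 0 := by
        rintro rfl
        have : -P1 s / P0 s ≠ 0 := div_ne_zero (neg_ne_zero.2 h1) h0
        apply this
        rw [← hμ]; norm_num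
      obtain ⟨κ, hκ⟩ := IsAlgClosed.exists_pow_nat_eq ((1 + μ) / (1 - μ)) (n := 4) (by norm_num)
      have hκ0 : κ ≠ 0 := by
        rintro rfl
        have : (1 + μ) / (1 - μ) ≠ 0 := div_ne_zero hμ2 hμ1
        apply this
        rw [← hκ]; norm_num
      have hκ' : κ ^ 4 * (1 - μ) = 1 + μ := by
        rw [hκ]; field_simp
      have hP1 : P1 s = -(P0 s * μ ^ 5) := by
        rw [hμ]; field_simp
      refine ⟨κ, hκ0, fun k => ?_⟩
      set c := Complex.I ^ (k : ℕ) * κ with hc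
      have hc4 : c ^ 4 = κ ^ 4 := Ipow k κ
      have hc0 : c ≠ 0 := mul_ne_zero (pow_ne_zero _ Complex.I_ne_zero) hκ0
      refine ⟨1, fun x z => P0 s * (1 - μ) * (x ^ 3 + x ^ 2 * (c * z) + x * (c * z) ^ 2 +
        (c * z) ^ 3) * ((x ^ 4 - z ^ 4) ^ 4 + (x ^ 4 - z ^ 4) ^ 3 * (μ * (x ^ 4 + z ^ 4)) +
        (x ^ 4 - z ^ 4) ^ 2 * (μ * (x ^ 4 + z ^ 4)) ^ 2 +
        (x ^ 4 - z ^ 4) * (μ * (x ^ 4 + z ^ 4)) ^ 3 + (μ * (x ^ 4 + z ^ 4)) ^ 4),
        by decide, by fun_prop, fun x z => ?_, fun z hz => ?_⟩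
      · have h2 : (1 - μ) * (x ^ 4 - c ^ 4 * z ^ 4) = (x ^ 4 - z ^ 4) - μ * (x ^ 4 + z ^ 4) := by
          rw [hc4]
          linear_combination -z ^ 4 * hκ'
        have h3 : GG s x z = P0 s * ((x ^ 4 - z ^ 4) ^ 5 - (μ * (x ^ 4 + z ^ 4)) ^ 5) := by
          unfold GG
          rw [hP1]; ring
        rw [h3]
        rw [pow_one]
        linear_combination -(P0 s * ((x ^ 4 - z ^ 4) ^ 4 + (x ^ 4 - z ^ 4) ^ 3 *
          (μ * (x ^ 4 + z ^ 4)) + (x ^ 4 - z ^ 4) ^ 2 * (μ * (x ^ 4 + z ^ 4)) ^ 2 +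
          (x ^ 4 - z ^ 4) * (μ * (x ^ 4 + z ^ 4)) ^ 3 + (μ * (x ^ 4 + z ^ 4)) ^ 4)) * h2
      · have h2 : (1 - μ) * ((c * z) ^ 4 - z ^ 4) = (1 - μ) * (μ * ((c * z) ^ 4 + z ^ 4)) := by
          rw [mul_pow, hc4]
          linear_combination z ^ 4 * (1 - μ) * hκ'
        have h3 := mul_left_cancel₀ hμ1 h2
        have h4 : (c * z) ^ 4 + z ^ 4 ≠ 0 := by
          intro h
          have h5 : (1 - μ) * ((c * z) ^ 4 + z ^ 4) = 2 * z ^ 4 := by
            rw [mul_pow, hc4]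
            linear_combination z ^ 4 * hκ'
          rw [h, mul_zero] at h5
          exact (mul_ne_zero two_ne_zero (pow_ne_zero _ hz)) h5.symm
        simp only [h3]
        have h5 : P0 s * (1 - μ) * ((c * z) ^ 3 + (c * z) ^ 2 * (c * z) + c * z * (c * z) ^ 2 +
            (c * z) ^ 3) * ((μ * ((c * z) ^ 4 + z ^ 4)) ^ 4 + (μ * ((c * z) ^ 4 + z ^ 4)) ^ 3 *
            (μ * ((c * z) ^ 4 + z ^ 4)) + (μ * ((c * z) ^ 4 + z ^ 4)) ^ 2 *
            (μ * ((c * z) ^ 4 + z ^ 4)) ^ 2 + μ * ((c * z) ^ 4 + z ^ 4) *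
            (μ * ((c * z) ^ 4 + z ^ 4)) ^ 3 + (μ * ((c * z) ^ 4 + z ^ 4)) ^ 4) =
            20 * (P0 s * (1 - μ) * (c * z) ^ 3 * (μ * ((c * z) ^ 4 + z ^ 4)) ^ 4) := by ring
        rw [h5]
        refine mul_ne_zero (by norm_num) (mul_ne_zero (mul_ne_zero (mul_ne_zero h0 hμ1) ?_) ?_)
        · exact pow_ne_zero _ (mul_ne_zero hc0 hz)
        · exact pow_ne_zero _ (mul_ne_zero hμ0 h4)

end W489.Dem.H2
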