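import Pool.Agent.W489.Dem.Stubs

set_option autoImplicit false

open scoped Topology
open Metric Set Filter

namespace W489.Dem.H3

theorem root_unit {g : ℂ → ℂ} {t₀ : ℂ} (hg : AnalyticAt ℂ g t₀) (h0 : g t₀ ≠ 0) :
    ∃ r : ℂ → ℂ, AnalyticAt ℂ r t₀ ∧ ∀ᶠ t in 𝓝 t₀, r t ^ 4 = g t := by
  obtain ⟨c, hc⟩ := IsAlgClosed.exists_pow_nat_eq (g t₀) (n := 4) (by norm_num)
  have h1 : AnalyticAt ℂ (fun t => g t / g t₀) t₀ := hg.div analyticAt_const h0
  have h2 : AnalyticAt ℂ (fun t => Complex.log (g t / g t₀)) t₀ := by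
    apply h1.clog
    rw [div_self h0]
    exact Complex.one_mem_slitPlane
  refine ⟨fun t => c * Complex.exp (Complex.log (g t / g t₀) / 4), ?_, ?_⟩
  · exact analyticAt_const.mul ((h2.div analyticAt_const (by norm_num)).cexp)
  · filter_upwards [hg.continuousAt.eventually_ne h0] with t ht
    rw [mul_pow, hc, ← Complex.exp_nat_mul]
    have : ((4 : ℕ) : ℂ) * (Complex.log (g t / g t₀) / 4) = Complex.log (g t / g t₀) := by
      push_cast; ring
    rw [this, Complex.exp_log (div_ne_zero ht h0)]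
    field_simp

theorem main : W489.Dem.S_H3 := by
  intro u y w t₀ m hu hy hw hm he hw0
  by_cases hz : ∀ᶠ t in 𝓝 t₀, u t = 0
  · refine ⟨fun _ => 0, analyticAt_const, ?_⟩
    filter_upwards [hz] with t ht
    rw [ht]; norm_num
  obtain ⟨n, g, hg, hg0, hug⟩ := hu.exists_eventuallyEq_pow_smul_nonzero_iff.2 hz
  have hn : 4 ∣ n := by
    have hord : analyticOrderAt u t₀ = n := (hu.analyticOrderAt_eq_natCast).2 ⟨g, hg, hg0, hug⟩
    rcases Nat.eq_zero_or_pos n with hn0 | hn0
    · rw [hn0]; exact dvd_zero 4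
    have hu0 : u t₀ = 0 := by
      rw [hug.self_of_nhds, sub_self, zero_pow hn0.ne', zero_smul]
    have h1 : analyticOrderAt (fun t => y t ^ 4) t₀ = analyticOrderAt (fun t => u t ^ m * w t) t₀ :=
      analyticOrderAt_congr he
    have h2 : analyticOrderAt (fun t => y t ^ 4) t₀ = 4 • analyticOrderAt y t₀ :=
      analyticOrderAt_pow hy 4
    have h3 : analyticOrderAt (fun t => u t ^ m * w t) t₀ = m • analyticOrderAt u t₀ + 0 := by
      have h4 := analyticOrderAt_mul (hu.pow m) hw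
      have h5 := analyticOrderAt_pow hu m
      have h6 : analyticOrderAt w t₀ = 0 := hw.analyticOrderAt_eq_zero.2 (hw0 hu0)
      rw [h5, h6] at h4
      exact h4
    rw [h2, h3, hord, add_zero] at h1
    have hk : analyticOrderAt y t₀ ≠ ⊤ := by
      intro htop
      rw [htop] at h1
      have h7 : (4 : ℕ) • (⊤ : ℕ∞) = ⊤ := by simp
      rw [h7] at h1
      have h8 : (m : ℕ) • ((n : ℕ) : ℕ∞) = ((m * n : ℕ) : ℕ∞) := by push_cast; rw [nsmul_eq_mul]
      rw [h8] at h1
      exact absurd h1 (ENat.top_ne_natCast _)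
    obtain ⟨k, hk⟩ := ENat.ne_top_iff_exists.1 hk
    rw [← hk] at h1
    have h9 : 4 * k = m * n := by
      rw [nsmul_eq_mul, nsmul_eq_mul] at h1
      exact_mod_cast h1
    have hcop : Nat.Coprime 4 m := by
      have : Nat.Coprime 2 m := (Nat.coprime_two_left).2 hm
      exact Nat.Coprime.pow_left 2 this
    exact hcop.dvd_of_dvd_mul_left (Dvd.intro k h9)
  obtain ⟨l, rfl⟩ := hn
  obtain ⟨r, hr, hrg⟩ := root_unit hg hg0
  refine ⟨fun t => (t - t₀) ^ l * r t, ((analyticAt_id.sub analyticAt_const).pow l).mul hr, ?_⟩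
  filter_upwards [hug, hrg] with t h1 h2
  rw [h1, ← h2, smul_eq_mul]
  ring

end W489.Dem.H3
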