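import Pool.Agent.W489.Dem.Stubs

/-!
The surface and the curve are algebraic.
-/

set_option autoImplicit false

open scoped LinearAlgebra.Projectivization Topology
open Metric Set Filter MvPolynomial

namespace W489.Dem.X1

/-- the coefficients of the equation of the covering -/
def gam : Fin 3 × Fin 6 → ℂ
  | (0, m) => (Nat.choose 5 m : ℂ) * ((-1) ^ (5 - (m : ℕ)) + 3)
  | (1, m) => (Nat.choose 5 m : ℂ) * (2 * (-1) ^ (5 - (m : ℕ)) + 5)
  | (2, _) => 0

/-- the equation of the covering -/
noncomputable def cov : MvPolynomial J ℂ := X none ^ 4 - ∑ q : Fin 3 × Fin 6, C (gam q) * X (some q) ^ 4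

/-- the Fermat equations -/
noncomputable def fer (a : Fin 6) : MvPolynomial J ℂ := ∑ i : Fin 3, X (some (i, a)) ^ 4

/-- the quadrics -/
noncomputable def quad (i j : Fin 3) (a b c d : Fin 6) : MvPolynomial J ℂ :=
  X (some (i, a)) * X (some (j, b)) - X (some (i, c)) * X (some (j, d))

/-- the linear equations -/
noncomputable def lin (j : Fin 3) (a : Fin 6) : MvPolynomial J ℂ :=
  C (ss 0) * X (some (j, a)) - C (ss j) * X (some (0, a))

/-- the equations of the surface -/
def SX : Set (MvPolynomial J ℂ) :=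
  {f | f = cov ∨ (∃ a, f = fer a) ∨
    ∃ (i j : Fin 3) (a b c d : Fin 6), (a : ℕ) + (b : ℕ) = (c : ℕ) + (d : ℕ) ∧ f = quad i j a b c d}

/-- the equations of the curve -/
def SZ : Set (MvPolynomial J ℂ) := {f | f ∈ SX ∨ ∃ j a, f = lin j a}

theorem SX_hom {f : MvPolynomial J ℂ} (hf : f ∈ SX) : ∃ d, f.IsHomogeneous d := by
  rcases hf with rfl | ⟨a, rfl⟩ | ⟨i, j, a, b, c, d, -, rfl⟩
  · refine ⟨4, IsHomogeneous.sub (isHomogeneous_X_pow _ _) (IsHomogeneous.sum _ _ _ fun q _ => ?_)⟩
    exact isHomogeneous_C_mul_X_pow _ _ _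
  · exact ⟨4, IsHomogeneous.sum _ _ _ fun q _ => isHomogeneous_X_pow _ _⟩
  · exact ⟨2, IsHomogeneous.sub ((isHomogeneous_X _ _).mul (isHomogeneous_X _ _))
      ((isHomogeneous_X _ _).mul (isHomogeneous_X _ _))⟩

theorem SZ_hom {f : MvPolynomial J ℂ} (hf : f ∈ SZ) : ∃ d, f.IsHomogeneous d := by
  rcases hf with hf | ⟨j, a, rfl⟩
  · exact SX_hom hf
  · exact ⟨1, IsHomogeneous.sub (isHomogeneous_C_mul_X _ _) (isHomogeneous_C_mul_X _ _)⟩

theorem eval_cov (v : J → ℂ) : eval v cov = v none ^ 4 - ∑ q : Fin 3 × Fin 6, gam q * v (some q) ^ 4 := by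
  simp [cov]

theorem eval_fer (v : J → ℂ) (a : Fin 6) : eval v (fer a) = ∑ i : Fin 3, v (some (i, a)) ^ 4 := by
  simp [fer]

theorem eval_quad (v : J → ℂ) (i j : Fin 3) (a b c d : Fin 6) : eval v (quad i j a b c d) =
    v (some (i, a)) * v (some (j, b)) - v (some (i, c)) * v (some (j, d)) := by
  simp [quad]

theorem eval_lin (v : J → ℂ) (j : Fin 3) (a : Fin 6) : eval v (lin j a) =
    ss 0 * v (some (j, a)) - ss j * v (some (0, a)) := by
  simp [lin]

theorem GG_eq (s : Fin 3 → ℂ) (x z y : ℂ) :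
    ∑ q : Fin 3 × Fin 6, gam q * mm s x z y (some q) ^ 4 = GG s x z := by
  rw [Fintype.sum_prod_type, Fin.sum_univ_three]
  simp only [Fin.sum_univ_six, gam, mm, GG, P0, P1]
  norm_num [Nat.choose]
  ring

theorem mem_XC_iff (v : J → ℂ) : v ∈ XC ↔ v ≠ 0 ∧ ∀ f ∈ SX, eval v f = 0 := by
  constructor
  · rintro ⟨h0, s, x, z, y, hf, hy, rfl⟩
    refine ⟨h0, ?_⟩
    rintro f (rfl | ⟨a, rfl⟩ | ⟨i, j, a, b, c, d, habcd, rfl⟩)
    · rw [eval_cov, GG_eq]
      exact sub_eq_zero.2 hy
    · rw [eval_fer]
      simp only [mm, mul_pow]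
      rw [← Finset.sum_mul, ← Finset.sum_mul, hf, zero_mul, zero_mul]
    · rw [eval_quad]
      simp only [mm]
      have h1 : x ^ (a : ℕ) * x ^ (b : ℕ) = x ^ (c : ℕ) * x ^ (d : ℕ) := by
        rw [← pow_add, ← pow_add, habcd]
      have h2 : z ^ (5 - (a : ℕ)) * z ^ (5 - (b : ℕ)) = z ^ (5 - (c : ℕ)) * z ^ (5 - (d : ℕ)) := by
        rw [← pow_add, ← pow_add]
        congr 1
        omega
      linear_combination s i * s j * z ^ (5 - (a : ℕ)) * z ^ (5 - (b : ℕ)) * h1 +
        s i * s j * x ^ (c : ℕ) * x ^ (d : ℕ) * h2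
  · rintro ⟨h0, h⟩
    have hcov : v none ^ 4 = ∑ q : Fin 3 × Fin 6, gam q * v (some q) ^ 4 := by
      have := h _ (Or.inl rfl)
      rw [eval_cov] at this
      exact sub_eq_zero.1 this
    have hfer : ∀ a, ∑ i : Fin 3, v (some (i, a)) ^ 4 = 0 := by
      intro a
      have := h _ (Or.inr (Or.inl ⟨a, rfl⟩))
      rwa [eval_fer] at this
    have hquad : ∀ (i j : Fin 3) (a b c d : Fin 6), (a : ℕ) + (b : ℕ) = (c : ℕ) + (d : ℕ) →
        v (some (i, a)) * v (some (j, b)) = v (some (i, c)) * v (some (j, d)) := by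
      intro i j a b c d habcd
      have := h _ (Or.inr (Or.inr ⟨i, j, a, b, c, d, habcd, rfl⟩))
      rw [eval_quad] at this
      exact sub_eq_zero.1 this
    have hex : (∃ i, v (some (i, 0)) ≠ 0) ∨ ∃ i, v (some (i, 5)) ≠ 0 := by
      by_contra hcon
      push Not at hcon
      obtain ⟨hc0, hc5⟩ := hcon
      have hsq : ∀ (i : Fin 3) (a b c : Fin 6), (a : ℕ) + (a : ℕ) = (b : ℕ) + (c : ℕ) →
          v (some (i, b)) = 0 ∨ v (some (i, c)) = 0 → v (some (i, a)) = 0 := by
        intro i a b c habc hbc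
        have h1 := hquad i i a a b c habc
        rcases hbc with h2 | h2
        · rw [h2, zero_mul] at h1
          exact mul_self_eq_zero.1 h1
        · rw [h2, mul_zero] at h1
          exact mul_self_eq_zero.1 h1
      have hall : ∀ (i : Fin 3) (a : Fin 6), v (some (i, a)) = 0 := by
        intro i
        have h0 := hc0 i
        have h5 := hc5 i
        have h1 := hsq i 1 0 2 rfl (Or.inl h0)
        have h2 := hsq i 2 0 4 rfl (Or.inl h0)
        have h3 := hsq i 3 1 5 rfl (Or.inl h1)
        have h4 := hsq i 4 3 5 rfl (Or.inl h3)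
        intro a
        fin_cases a
        · exact h0
        · exact h1
        · exact h2
        · exact h3
        · exact h4
        · exact h5
      apply h0
      funext q
      rcases q with _ | ⟨i, a⟩
      · have : v none ^ 4 = 0 := by
          rw [hcov]
          refine Finset.sum_eq_zero fun q _ => ?_
          rcases q with ⟨i, a⟩
          rw [hall i a]; simp
        exact pow_eq_zero_iff (by norm_num) |>.1 this
      · exact hall i a
    rcases hex with ⟨i0, hi0⟩ | ⟨i0, hi0⟩
    · have hv : v = mm (fun j => v (some (j, 0))) (v (some (i0, 1)) / v (some (i0, 0))) 1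
          (v none) := by
        have hstep : ∀ (j : Fin 3) (a : ℕ) (ha : a < 6), v (some (j, ⟨a, ha⟩)) =
            v (some (j, 0)) * (v (some (i0, 1)) / v (some (i0, 0))) ^ a := by
          intro j a
          induction a with
          | zero => intro _; rw [pow_zero, mul_one]; rfl
          | succ a ih =>
            intro ha
            have h1 := hquad j i0 ⟨a + 1, ha⟩ 0 ⟨a, by omega⟩ 1 (by simp)
            rw [ih (by omega)] at h1
            rw [pow_succ, ← mul_assoc, ← mul_div_assoc, eq_div_iff hi0]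
            exact h1
        funext q
        rcases q with _ | ⟨j, a⟩
        · rfl
        · simp only [mm, one_pow, mul_one]
          exact hstep j a a.2
      refine ⟨h0, _, _, _, _, hfer 0, ?_, hv⟩
      rw [hcov]
      conv_lhs => rw [hv]
      exact GG_eq _ _ _ _
    · have hv : v = mm (fun j => v (some (j, 5))) 1 (v (some (i0, 4)) / v (some (i0, 5)))
          (v none) := by
        have hstep : ∀ (j : Fin 3) (b : ℕ) (hb : b < 6), v (some (j, ⟨5 - b, by omega⟩)) =
            v (some (j, 5)) * (v (some (i0, 4)) / v (some (i0, 5))) ^ b := by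
          intro j b
          induction b with
          | zero => intro _; rw [pow_zero, mul_one]; rfl
          | succ b ih =>
            intro hb
            have h1 := hquad j i0 ⟨5 - (b + 1), by omega⟩ 5 ⟨5 - b, by omega⟩ 4 (by
              simp only []
              change 5 - (b + 1) + 5 = 5 - b + 4
              omega)
            rw [ih (by omega)] at h1
            rw [pow_succ, ← mul_assoc, ← mul_div_assoc, eq_div_iff hi0]
            exact h1
        funext q
        rcases q with _ | ⟨j, a⟩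
        · rfl
        · simp only [mm, one_pow, mul_one]
          have h1 := hstep j (5 - (a : ℕ)) (by omega)
          rw [← h1]
          congr 3
          ext
          simp only []
          have := a.2
          omega
      refine ⟨h0, _, _, _, _, hfer 5, ?_, hv⟩
      rw [hcov]
      conv_lhs => rw [hv]
      exact GG_eq _ _ _ _

theorem ss0 : ss 0 ≠ 0 := by
  intro h
  have := ss_pow.1
  rw [h] at this
  norm_num at this

theorem mem_ZC_iff (v : J → ℂ) : v ∈ ZC ↔ v ≠ 0 ∧ ∀ f ∈ SZ, eval v f = 0 := by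
  constructor
  · intro hv
    refine ⟨hv.1, ?_⟩
    rintro f (hf | ⟨j, a, rfl⟩)
    · exact ((mem_XC_iff v).1 (ZC_sub hv)).2 f hf
    · obtain ⟨-, x, z, y, hy, rfl⟩ := hv
      rw [eval_lin]
      simp only [mm]
      ring
  · rintro ⟨h0, h⟩
    have hX : v ∈ XC := (mem_XC_iff v).2 ⟨h0, fun f hf => h f (Or.inl hf)⟩
    obtain ⟨-, s, x, z, y, hf, hy, rfl⟩ := hX
    obtain ⟨hs, hxz⟩ := ne_of_mm_ne hy h0
    have hlin : ∀ j, ss 0 * s j = ss j * s 0 := by
      intro j
      rcases hxz with hx | hz
      · have h1 := h _ (Or.inr ⟨j, 5, rfl⟩)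
        rw [eval_lin] at h1
        simp only [mm] at h1
        have h2 : x ^ 5 ≠ 0 := pow_ne_zero _ hx
        apply mul_left_cancel₀ h2
        norm_num at h1
        linear_combination h1
      · have h1 := h _ (Or.inr ⟨j, 0, rfl⟩)
        rw [eval_lin] at h1
        simp only [mm] at h1
        have h2 : z ^ 5 ≠ 0 := pow_ne_zero _ hz
        apply mul_left_cancel₀ h2
        norm_num at h1
        linear_combination h1
    set t : ℂ := s 0 / ss 0 with ht
    have hst : s = t • ss := by
      funext j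
      rw [Pi.smul_apply, smul_eq_mul, ht, div_mul_eq_mul_div, eq_div_iff ss0]
      linear_combination hlin j
    have ht0 : t ≠ 0 := by
      intro h
      rw [h, zero_smul] at hst
      exact hs hst
    obtain ⟨c, hc⟩ := IsAlgClosed.exists_pow_nat_eq t (n := 5) (by norm_num)
    refine ⟨h0, c * x, c * z, y, ?_, ?_⟩
    · rw [hy, hst, GG_smul, GG_ss, ← hc]; ring
    · have h1 : mm (t • ss) x z y = t • mm ss x z (y / t) := by
        rw [mm_smul]; congr 1; field_simp
      rw [hst, h1]
      have h2 : mm ss (c * x) (c * z) y = mm ss (c * x) (c * z) (c ^ 5 * (y / t)) := by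
        rw [hc]; congr 1; field_simp
      rw [h2, mm_scale, hc]

theorem main : S_X1 := by
  refine ⟨⟨SX, fun f hf => SX_hom hf, fun v => ?_⟩, ⟨SZ, fun f hf => SZ_hom hf, fun v => ?_⟩⟩
  · rw [cone_XX]
    exact mem_XC_iff v
  · rw [cone_ZZ]
    exact mem_ZC_iff v

end W489.Dem.X1
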