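import Pool.Agent.W489.Dem.Brody
import Pool.Agent.W489.Dem.DA1
import Pool.Agent.W489.Dem.DH2
import Pool.Agent.W489.Dem.DH3
import Pool.Agent.W489.Dem.DX1
import Pool.Agent.W424.DB1
import Pool.Agent.W424.DB2
import Pool.Agent.W424.DB3
import Pool.Agent.W424.DA2
import Pool.Agent.W424.DA3
import Pool.Agent.W424.DA4
import Pool.Agent.W424.DH1
import Pool.Agent.W424.DH4

/-!
The surface is Kobayashi hyperbolic.
-/

set_option autoImplicit false

open scoped LinearAlgebra.Projectivization Topology
open Metric Set Filter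

namespace W489.Dem.Hyp

theorem sA4 : S_A4 := Pool.Agent.W424.DA4.main A1.main Pool.Agent.W424.DA2.main Pool.Agent.W424.DA3.main

theorem main : KobHyp XX :=
  brody Pool.Agent.W424.DB1.main Pool.Agent.W424.DB2.main Pool.Agent.W424.DB3.main XX X1.main.1
    (no_entire sA4 Pool.Agent.W424.DH1.main H2.main H3.main Pool.Agent.W424.DH4.main)

end W489.Dem.Hyp
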