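import Pool.Agent.W489.Dem.Stubs

/-!
Assembly of Brody's theorem and of the hyperbolicity of the surface.
-/

set_option autoImplicit false

open scoped LinearAlgebra.Projectivization Topology
open Metric Set Filter

namespace W489.Dem

theorem HolMap.mono {ι : Type} {U V : Set ℂ} {f : ℂ → PS ι} (h : HolMap V f) (hUV : U ⊆ V) :
    HolMap U f := fun t ht => h t (hUV ht)

/-- Brody's theorem -/
theorem brody (h1 : S_B1) (h2 : S_B2) (h3 : S_B3) {ι : Type} [Fintype ι] (X : Set (PS ι))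
    (hX : IsAlgSet X) (hc : ∀ f : ℂ → PS ι, HolMap univ f → (∀ t, f t ∈ X) → ∀ t, f t = f 0) :
    KobHyp X := by
  by_contra hcon
  have key : ∀ C : ℝ, ∃ f : ℂ → PS ι, HolMap (ball 0 1) f ∧ (∀ t ∈ ball (0 : ℂ) 1, f t ∈ X) ∧
      ∃ a ∈ ball (0 : ℂ) (1 / 2), C * ‖a‖ < dist (PhiP (f a)) (PhiP (f 0)) := by
    intro C
    by_contra hcon'
    push Not at hcon'
    exact hcon (h3 ι X C fun f hf hfX a ha => hcon' f hf hfX a ha)
  obtain ⟨g, hg, hgX, t, ht⟩ := h2 ι X hX (by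
    intro n
    obtain ⟨f, hf, hfX, a, ha, hfa⟩ := key (5 * (n + 1))
    obtain ⟨g, hg, hgX, hg0, hg2⟩ := h1 ι X f (5 * (n + 1)) a (by
      have : (0 : ℝ) ≤ n := n.cast_nonneg
      linarith) hf hfX ha hfa
    have hsub : ball (0 : ℂ) n ⊆ ball 0 (5 * ((n : ℝ) + 1) / 5) := by
      apply ball_subset_ball
      linarith
    exact ⟨g, hg.mono hsub, fun t ht => hgX t (hsub ht), hg0, fun t ht => hg2 t (hsub ht)⟩)
  exact ht (hc g hg hgX t)

/-- the surface contains no entire curve -/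
theorem no_entire (h4 : S_A4) (h1 : S_H1) (h2 : S_H2) (h3 : S_H3) (hH4 : S_H4) :
    ∀ f : ℂ → PS J, HolMap univ f → (∀ t, f t ∈ XX) → ∀ t, f t = f 0 := by
  intro f hf hfX
  obtain ⟨s, hs0, hs, h⟩ := h1 h4 f hf hfX
  exact hH4 h4 h2 h3 s hs0 hs f hf h

end W489.Dem
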