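import Pool.Agent.W489.Dem.Defs

/-!
The embedding of projective space into a space of matrices.
-/

set_option autoImplicit false

open scoped LinearAlgebra.Projectivization Topology
open Metric Set Filter

namespace W489.Dem

variable {ι : Type} [Fintype ι]

/-- the matrix of the orthogonal projection to the line of `v` -/
noncomputable def prj (v : ι → ℂ) : ι × ι → ℂ :=
  fun q => v q.1 * (starRingEnd ℂ) (v q.2) / ((∑ k, ‖v k‖ ^ 2 : ℝ) : ℂ)

/-- the matrix of a point of projective space -/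
noncomputable def PhiP (p : PS ι) : ι × ι → ℂ := prj p.rep

omit [Fintype ι] in
theorem nsq_pos [Fintype ι] {v : ι → ℂ} (hv : v ≠ 0) : 0 < ∑ k, ‖v k‖ ^ 2 := by
  obtain ⟨k, hk⟩ := Function.ne_iff.1 hv
  exact Finset.sum_pos' (fun _ _ => by positivity) ⟨k, Finset.mem_univ k, by
    have : 0 < ‖v k‖ := norm_pos_iff.2 hk
    positivity⟩

theorem prj_smul {c : ℂ} (hc : c ≠ 0) (v : ι → ℂ) : prj (c • v) = prj v := by
  funext q
  have h1 : ∑ k, ‖(c • v) k‖ ^ 2 = ‖c‖ ^ 2 * ∑ k, ‖v k‖ ^ 2 := by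
    rw [Finset.mul_sum]
    refine Finset.sum_congr rfl fun k _ => ?_
    rw [Pi.smul_apply, smul_eq_mul, norm_mul, mul_pow]
  have h2 : ((‖c‖ : ℝ) : ℂ) ^ 2 = c * (starRingEnd ℂ) c := by
    rw [Complex.mul_conj, Complex.normSq_eq_norm_sq]; push_cast; rfl
  have hc' : (starRingEnd ℂ) c ≠ 0 := by simpa using hc
  unfold prj
  rw [h1]
  push_cast
  rw [h2]
  simp only [Pi.smul_apply, smul_eq_mul, map_mul]
  rw [show c * v q.1 * ((starRingEnd ℂ) c * (starRingEnd ℂ) (v q.2)) =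
    (c * (starRingEnd ℂ) c) * (v q.1 * (starRingEnd ℂ) (v q.2)) by ring]
  rw [mul_div_mul_left _ _ (mul_ne_zero hc hc')]

theorem PhiP_mk (v : ι → ℂ) (h : v ≠ 0) : PhiP (Projectivization.mk ℂ v h) = prj v := by
  obtain ⟨a, ha⟩ := Projectivization.exists_smul_eq_mk_rep ℂ v h
  unfold PhiP
  rw [← ha]
  exact prj_smul a.ne_zero v

theorem PhiP_injective : Function.Injective (PhiP : PS ι → ι × ι → ℂ) := by
  intro p q hpq
  obtain ⟨v, hv, rfl⟩ : ∃ (v : ι → ℂ) (hv : v ≠ 0), p = Projectivization.mk ℂ v hv :=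
    ⟨p.rep, p.rep_nonzero, (Projectivization.mk_rep p).symm⟩
  obtain ⟨w, hw, rfl⟩ : ∃ (v : ι → ℂ) (hv : v ≠ 0), q = Projectivization.mk ℂ v hv :=
    ⟨q.rep, q.rep_nonzero, (Projectivization.mk_rep q).symm⟩
  rw [PhiP_mk, PhiP_mk] at hpq
  rw [Projectivization.mk_eq_mk_iff']
  obtain ⟨k, hk⟩ := Function.ne_iff.1 hw
  have hk' : w k ≠ 0 := hk
  have hNv : ((∑ k, ‖v k‖ ^ 2 : ℝ) : ℂ) ≠ 0 := by exact_mod_cast (nsq_pos hv).ne'
  have hNw : ((∑ k, ‖w k‖ ^ 2 : ℝ) : ℂ) ≠ 0 := by exact_mod_cast (nsq_pos hw).ne'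
  have hkk := congrFun hpq (k, k)
  unfold prj at hkk
  simp only at hkk
  have hkw : w k * (starRingEnd ℂ) (w k) ≠ 0 := mul_ne_zero hk' (by simpa using hk')
  have hvk : (starRingEnd ℂ) (v k) ≠ 0 := by
    intro h0
    rw [h0, mul_zero, zero_div] at hkk
    exact (div_ne_zero hkw hNw) hkk.symm
  refine ⟨(∑ k, ‖v k‖ ^ 2 : ℝ) * (starRingEnd ℂ) (w k) / ((∑ k, ‖w k‖ ^ 2 : ℝ) *
    (starRingEnd ℂ) (v k)), ?_⟩
  funext i
  have hik := congrFun hpq (i, k)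
  unfold prj at hik
  simp only at hik
  rw [div_eq_div_iff hNv hNw] at hik
  rw [Pi.smul_apply, smul_eq_mul, div_mul_eq_mul_div, div_eq_iff (mul_ne_zero hNw hvk)]
  linear_combination -hik

end W489.Dem
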