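import Pool.Agent.W489.Dem.Ex
import Pool.Agent.W489.Dem.Phi

/-!
Statements (as propositions) of the pieces of the counterexample for problem MP_225e67_ag.
-/

set_option autoImplicit false

open scoped LinearAlgebra.Projectivization Topology
open Metric Set Filter

namespace W489.Dem

/-! ### Brody's theorem -/

/-- B1: Brody's reparametrization -/
def S_B1 : Prop :=
  ∀ (ι : Type) [Fintype ι] (X : Set (PS ι)) (f : ℂ → PS ι) (M : ℝ) (a : ℂ), 1 ≤ M →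
    HolMap (ball 0 1) f → (∀ t ∈ ball (0 : ℂ) 1, f t ∈ X) → a ∈ ball (0 : ℂ) (1 / 2) →
    M * ‖a‖ < dist (PhiP (f a)) (PhiP (f 0)) →
    ∃ g : ℂ → PS ι, HolMap (ball 0 (M / 5)) g ∧ (∀ t ∈ ball (0 : ℂ) (M / 5), g t ∈ X) ∧
      ‖fderiv ℝ (fun t => PhiP (g t)) 0‖ = 1 ∧
      ∀ t ∈ ball (0 : ℂ) (M / 5), ‖fderiv ℝ (fun t => PhiP (g t)) t‖ ≤ 2

/-- B2: the limit of the reparametrized discs -/
def S_B2 : Prop :=
  ∀ (ι : Type) [Fintype ι] (X : Set (PS ι)), IsAlgSet X →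
    (∀ n : ℕ, ∃ g : ℂ → PS ι, HolMap (ball 0 n) g ∧ (∀ t ∈ ball (0 : ℂ) n, g t ∈ X) ∧
      ‖fderiv ℝ (fun t => PhiP (g t)) 0‖ = 1 ∧
      ∀ t ∈ ball (0 : ℂ) n, ‖fderiv ℝ (fun t => PhiP (g t)) t‖ ≤ 2) →
    ∃ g : ℂ → PS ι, HolMap univ g ∧ (∀ t, g t ∈ X) ∧ ∃ t, g t ≠ g 0

/-- B3: hyperbolicity from a Lipschitz estimate at the origin -/
def S_B3 : Prop :=
  ∀ (ι : Type) [Fintype ι] (X : Set (PS ι)) (C : ℝ),
    (∀ f : ℂ → PS ι, HolMap (ball 0 1) f → (∀ t ∈ ball (0 : ℂ) 1, f t ∈ X) →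
      ∀ a ∈ ball (0 : ℂ) (1 / 2), dist (PhiP (f a)) (PhiP (f 0)) ≤ C * ‖a‖) → KobHyp X

/-! ### Maps to the Fermat quartic -/

/-- the Laplacian -/
noncomputable def lap (φ : ℂ → ℝ) (t : ℂ) : ℝ :=
  deriv (deriv fun τ : ℝ => φ (t + τ)) 0 + deriv (deriv fun τ : ℝ => φ (t + τ * Complex.I)) 0

/-- A1: the Ahlfors-Schwarz lemma on the complex plane -/
def S_A1 : Prop :=
  ∀ (H : ℂ → ℝ) (κ : ℝ), 0 < κ → Continuous H → (∀ t, 0 ≤ H t) →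
    (∀ t, H t ≠ 0 → ContDiffAt ℝ 2 (fun t => Real.log (H t)) t ∧
      κ * H t ≤ lap (fun t => Real.log (H t)) t) → ∀ t, H t = 0

/-- the metric of negative curvature of the Fermat quartic -/
noncomputable def E4 (s : ℂ → Fin 3 → ℂ) (t : ℂ) : ℝ :=
  (∑ i, ∑ j, ‖s t i * deriv (fun t => s t j) t - s t j * deriv (fun t => s t i) t‖ ^ 2) *
    (∑ k, ‖s t k‖ ^ 2) / ∑ k, ‖s t k‖ ^ 6

/-- A2: the curvature of the metric -/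
def S_A2 : Prop :=
  ∀ (W : Set ℂ) (s : ℂ → Fin 3 → ℂ), IsOpen W → DifferentiableOn ℂ s W →
    (∀ t ∈ W, s t ≠ 0 ∧ ∑ i, s t i ^ 4 = 0) → ∀ t ∈ W, ContinuousAt (E4 s) t ∧
      (E4 s t ≠ 0 → ContDiffAt ℝ 2 (fun t => Real.log (E4 s t)) t ∧
        2 / 9 * E4 s t ≤ lap (fun t => Real.log (E4 s t)) t)

/-- A3: the metric depends only on the fourth powers -/
def S_A3 : Prop :=
  ∀ (W : Set ℂ) (s s' : ℂ → Fin 3 → ℂ), IsOpen W → DifferentiableOn ℂ s W →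
    DifferentiableOn ℂ s' W → (∀ t ∈ W, s t ≠ 0 ∧ s' t ≠ 0 ∧
      ∃ c : ℂ, ∀ i, s' t i ^ 4 = c * s t i ^ 4) → ∀ t ∈ W, E4 s t = E4 s' t

/-- A4: a map from the complex plane that is locally the fourth power of a map to the Fermat
quartic is constant -/
def S_A4 : Prop :=
  ∀ f : ℂ → PS (Fin 3), (∀ t : ℂ, ∃ (W : Set ℂ) (s : ℂ → Fin 3 → ℂ), IsOpen W ∧ t ∈ W ∧
    DifferentiableOn ℂ s W ∧ ∀ t' ∈ W, s t' ≠ 0 ∧ ∑ i, s t' i ^ 4 = 0 ∧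
      ∃ h : (fun i => s t' i ^ 4) ≠ 0, f t' = Projectivization.mk ℂ (fun i => s t' i ^ 4) h) →
    ∀ t, f t = f 0

/-! ### Entire curves in the surface -/

/-- H1: the component in the base curve is constant -/
def S_H1 : Prop :=
  S_A4 → ∀ f : ℂ → PS J, HolMap univ f → (∀ t, f t ∈ XX) →
    ∃ s : Fin 3 → ℂ, s ≠ 0 ∧ ∑ i, s i ^ 4 = 0 ∧ ∀ t, ∃ x z y : ℂ, y ^ 4 = GG s x z ∧
      ∃ h : mm s x z y ≠ 0, f t = Projectivization.mk ℂ (mm s x z y) h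

/-- H2: three factors of odd multiplicity of the form on each fibre -/
def S_H2 : Prop :=
  ∀ s : Fin 3 → ℂ, s ≠ 0 → ∑ i, s i ^ 4 = 0 → ∃ κ : ℂ, κ ≠ 0 ∧ ∀ k : Fin 3,
    ∃ (m : ℕ) (C : ℂ → ℂ → ℂ), Odd m ∧ Differentiable ℂ (fun p : ℂ × ℂ => C p.1 p.2) ∧
      (∀ x z, GG s x z = (x - Complex.I ^ (k : ℕ) * κ * z) ^ m * C x z) ∧
      ∀ z, z ≠ 0 → C (Complex.I ^ (k : ℕ) * κ * z) z ≠ 0

/-- H3: local fourth roots -/
def S_H3 : Prop :=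
  ∀ (u y w : ℂ → ℂ) (t₀ : ℂ) (m : ℕ), AnalyticAt ℂ u t₀ → AnalyticAt ℂ y t₀ → AnalyticAt ℂ w t₀ →
    Odd m → (∀ᶠ t in 𝓝 t₀, y t ^ 4 = u t ^ m * w t) → (u t₀ = 0 → w t₀ ≠ 0) →
    ∃ r : ℂ → ℂ, AnalyticAt ℂ r t₀ ∧ ∀ᶠ t in 𝓝 t₀, r t ^ 4 = u t

/-- H4: an entire curve in a fibre is constant -/
def S_H4 : Prop :=
  S_A4 → S_H2 → S_H3 → ∀ s : Fin 3 → ℂ, s ≠ 0 → ∑ i, s i ^ 4 = 0 → ∀ f : ℂ → PS J,
    HolMap univ f → (∀ t, ∃ x z y : ℂ, y ^ 4 = GG s x z ∧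
      ∃ h : mm s x z y ≠ 0, f t = Projectivization.mk ℂ (mm s x z y) h) → ∀ t, f t = f 0

/-! ### The surface and the curve -/

/-- X1: the surface and the curve are algebraic -/
def S_X1 : Prop := IsAlgSet XX ∧ IsAlgSet ZZ

/-- X2: the surface is smooth -/
def S_X2 : Prop := ∀ v ∈ XC, ∃ T, IsTangent XX v T

/-- X3a: cyclic covers of the projective line are connected -/
def S_X3a : Prop :=
  ∀ (n D : ℕ) (C : MvPolynomial (Fin 2) ℂ), 1 ≤ n → 1 ≤ D → C.IsHomogeneous D → C ≠ 0 →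
    IsConnected {w : (Fin 2 → ℂ) × ℂ | w.1 ≠ 0 ∧ w.2 ^ n = MvPolynomial.eval w.1 C}

/-- X3: the surface is connected -/
def S_X3 : Prop := S_X3a → IsConnected XC

/-- X4: the curve is irreducible -/
def S_X4 : Prop := IsAlgSet ZZ → IsSubvariety ZZ

/-! ### The intersection number -/

/-- Z1: the eight zeros of the form on the curve -/
def S_Z1 : Prop :=
  (∀ y : ℂ, y ^ 4 = 1 → ZeroSign ZZ eta (mm ss 0 1 y) (-1)) ∧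
  ∀ y : ℂ, y ^ 4 = -1 → ZeroSign ZZ eta (mm ss 1 0 y) (-1)

/-- Z2: there are no other intersections -/
def S_Z2 : Prop :=
  S_X2 → ∀ x z y : ℂ, x ≠ 0 → z ≠ 0 → y ^ 4 = (z ^ 4 - x ^ 4) ^ 5 →
    (mm ss x z y, eta (mm ss x z y)) ∉ Conormal XX ZZ

/-- Z3: the form is smooth -/
def S_Z3 : Prop := IsForm XX eta

end W489.Dem
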