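import Pool.Agent.W489.Dem.Tan
import Pool.Agent.W489.Dem.Stubs

/-!
The surface is smooth.
-/

set_option autoImplicit false

open scoped LinearAlgebra.Projectivization Topology
open Metric Set Filter

namespace W489.Dem.X2

/-- a point of the Fermat curve with another relation between the first two fourth powers -/
theorem fermat_ne {s : Fin 3 → ℂ} (hs : s ≠ 0) (hf : s 0 ^ 4 + s 1 ^ 4 + s 2 ^ 4 = 0) {m n : ℂ}
    (hm : m ≠ 0) (hn : n ≠ 0) (hmn : m ≠ n) (h : m * s 0 ^ 4 + n * s 1 ^ 4 = 0) :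
    s 0 ≠ 0 ∧ s 1 ≠ 0 ∧ s 2 ≠ 0 := by
  have key : s 0 ^ 4 = 0 → s 1 ^ 4 = 0 → False := by
    intro h0 h1
    have h2 : s 2 ^ 4 = 0 := by
      rw [h0, h1] at hf; simpa using hf
    apply hs
    funext i
    fin_cases i
    · exact pow_eq_zero_iff (by norm_num) |>.1 h0
    · exact pow_eq_zero_iff (by norm_num) |>.1 h1
    · exact pow_eq_zero_iff (by norm_num) |>.1 h2
  refine ⟨fun h0 => ?_, fun h1 => ?_, fun h2 => ?_⟩
  · have h0' : s 0 ^ 4 = 0 := by rw [h0]; norm_num
    rw [h0', mul_zero, zero_add] at h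
    exact key h0' ((mul_eq_zero.1 h).resolve_left hn)
  · have h1' : s 1 ^ 4 = 0 := by rw [h1]; norm_num
    rw [h1', mul_zero, add_zero] at h
    exact key ((mul_eq_zero.1 h).resolve_left hm) h1'
  · have h2' : s 2 ^ 4 = 0 := by rw [h2]; norm_num
    have h3 : (m - n) * s 0 ^ 4 = 0 := by
      linear_combination h - n * hf + n * h2'
    have h4 := (mul_eq_zero.1 h3).resolve_left (sub_ne_zero.2 hmn)
    refine key h4 ?_
    linear_combination hf - h4 - h2'

theorem hasDeriv_GG (s σ : Fin 3 → ℂ) (x z dx dz : ℂ) :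
    HasDerivAt (fun t : ℂ => GG (s + t • σ) (x + t * dx) (z + t * dz))
      (4 * ((x ^ 4 - z ^ 4) ^ 5 + 3 * (x ^ 4 + z ^ 4) ^ 5) * s 0 ^ 3 * σ 0 +
        4 * (2 * (x ^ 4 - z ^ 4) ^ 5 + 5 * (x ^ 4 + z ^ 4) ^ 5) * s 1 ^ 3 * σ 1 +
        20 * x ^ 3 * (P0 s * (x ^ 4 - z ^ 4) ^ 4 + P1 s * (x ^ 4 + z ^ 4) ^ 4) * dx +
        20 * z ^ 3 * (-P0 s * (x ^ 4 - z ^ 4) ^ 4 + P1 s * (x ^ 4 + z ^ 4) ^ 4) * dz) 0 := by
  have hl : ∀ a b : ℂ, HasDerivAt (fun t : ℂ => a + t * b) b 0 := by
    intro a b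
    have := ((hasDerivAt_id (0 : ℂ)).mul_const b).const_add a
    simpa using this
  have h0 := hl (s 0) (σ 0)
  have h1 := hl (s 1) (σ 1)
  have hx := (hl x dx).pow 4
  have hz := (hl z dz).pow 4
  have h := ((((h0.pow 4).add ((h1.pow 4).const_mul 2)).mul ((hx.sub hz).pow 5)).add
    ((((h0.pow 4).const_mul 3).add ((h1.pow 4).const_mul 5)).mul ((hx.add hz).pow 5)))
  convert! h using 1
  simp [P0, P1]
  ring

/-- the charts -/
structure Chart where
  /-- exponents -/
  e : Fin 6 → ℕ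
  /-- index of the exponent 0 -/
  a0 : Fin 6
  /-- index of the exponent 1 -/
  a1 : Fin 6
  /-- is `z = 1` -/
  b : Bool
  he : ∀ a, e a = if b then (a : ℕ) else 5 - (a : ℕ)
  h0 : e a0 = 0
  h1 : e a1 = 1

variable (c : Chart)

/-- first homogeneous coordinate -/
def Chart.X (ζ : ℂ) : ℂ := if c.b then ζ else 1

/-- second homogeneous coordinate -/
def Chart.Z (ζ : ℂ) : ℂ := if c.b then 1 else ζ

/-- the parametrization -/
def Chart.me (s : Fin 3 → ℂ) (ζ y : ℂ) : J → ℂ
  | some (i, a) => s i * ζ ^ (c.e a)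
  | none => y

theorem Chart.me_eq (s : Fin 3 → ℂ) (ζ y : ℂ) : c.me s ζ y = mm s (c.X ζ) (c.Z ζ) y := by
  funext q
  rcases q with _ | ⟨i, a⟩
  · rfl
  · simp only [Chart.me, mm, c.he, Chart.X, Chart.Z]
    split_ifs <;> simp

/-- solving the linear equations -/
theorem Chart.solve {s : Fin 3 → ℂ} (hs : s ≠ 0) (hf : ∑ i, s i ^ 4 = 0) {ζ y : ℂ}
    (hy : y ^ 4 = GG s (c.X ζ) (c.Z ζ)) (α β : ℂ) :
    ∃ (σ : Fin 3 → ℂ) (δ η : ℂ), 4 * ∑ i, s i ^ 3 * σ i = α ∧
      HasDerivAt (fun t : ℂ => (y + t * η) ^ 4 - GG (s + t • σ) (c.X (ζ + t * δ)) (c.Z (ζ + t * δ)))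
        β 0 := by
  rw [Fin.sum_univ_three] at hf
  have hl : ∀ a b : ℂ, HasDerivAt (fun t : ℂ => a + t * b) b 0 := by
    intro a b
    have := ((hasDerivAt_id (0 : ℂ)).mul_const b).const_add a
    simpa using this
  -- the derivative
  set x := c.X ζ with hx
  set z := c.Z ζ with hz
  set dx : ℂ := if c.b then 1 else 0 with hdx
  set dz : ℂ := if c.b then 0 else 1 with hdz
  have hX : ∀ t δ, c.X (ζ + t * δ) = x + t * (dx * δ) := by
    intro t δ
    simp only [hx, hdx, Chart.X]
    split_ifs <;> simp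
  have hZ : ∀ t δ, c.Z (ζ + t * δ) = z + t * (dz * δ) := by
    intro t δ
    simp only [hz, hdz, Chart.Z]
    split_ifs <;> simp
  have hder : ∀ (σ : Fin 3 → ℂ) (δ η : ℂ), HasDerivAt
      (fun t : ℂ => (y + t * η) ^ 4 - GG (s + t • σ) (c.X (ζ + t * δ)) (c.Z (ζ + t * δ)))
      (4 * y ^ 3 * η - (4 * ((x ^ 4 - z ^ 4) ^ 5 + 3 * (x ^ 4 + z ^ 4) ^ 5) * s 0 ^ 3 * σ 0 +
        4 * (2 * (x ^ 4 - z ^ 4) ^ 5 + 5 * (x ^ 4 + z ^ 4) ^ 5) * s 1 ^ 3 * σ 1 +
        20 * x ^ 3 * (P0 s * (x ^ 4 - z ^ 4) ^ 4 + P1 s * (x ^ 4 + z ^ 4) ^ 4) * (dx * δ) +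
        20 * z ^ 3 * (-P0 s * (x ^ 4 - z ^ 4) ^ 4 + P1 s * (x ^ 4 + z ^ 4) ^ 4) * (dz * δ))) 0 := by
    intro σ δ η
    have h1 := ((hl y η).pow 4).sub (hasDeriv_GG s σ x z (dx * δ) (dz * δ))
    convert! h1 using 1
    · funext t
      rw [hX, hZ]; rfl
    · simp
  -- a solution of the first equation
  obtain ⟨i0, hi0⟩ := Function.ne_iff.1 hs
  have hi0' : s i0 ≠ 0 := hi0
  have hfirst : 4 * ∑ i, s i ^ 3 * (Pi.single i0 (α / (4 * s i0 ^ 3)) : Fin 3 → ℂ) i = α := by
    rw [Finset.sum_eq_single i0]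
    · rw [Pi.single_eq_same]; field_simp
    · intro j _ hj
      rw [Pi.single_eq_of_ne hj, mul_zero]
    · simp
  set σ1 : Fin 3 → ℂ := Pi.single i0 (α / (4 * s i0 ^ 3)) with hσ1
  by_cases hy0 : y = 0
  · set W : ℂ := 20 * x ^ 3 * (P0 s * (x ^ 4 - z ^ 4) ^ 4 + P1 s * (x ^ 4 + z ^ 4) ^ 4) * dx +
        20 * z ^ 3 * (-P0 s * (x ^ 4 - z ^ 4) ^ 4 + P1 s * (x ^ 4 + z ^ 4) ^ 4) * dz with hW
    by_cases hW0 : W = 0
    · -- the singular case
      have hGG : P0 s * (x ^ 4 - z ^ 4) ^ 5 + P1 s * (x ^ 4 + z ^ 4) ^ 5 = 0 := by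
        rw [hy0] at hy
        have h1 : GG s x z = 0 := by rw [← hy]; norm_num
        exact h1
      have hne : s 0 ≠ 0 ∧ s 1 ≠ 0 ∧ s 2 ≠ 0 := by
        have hP : P0 s = 0 → s 0 ≠ 0 ∧ s 1 ≠ 0 ∧ s 2 ≠ 0 := by
          intro h
          refine fermat_ne hs hf (m := 1) (n := 2) (by norm_num) (by norm_num) (by norm_num) ?_
          unfold P0 at h
          linear_combination h
        have hP' : P1 s = 0 → s 0 ≠ 0 ∧ s 1 ≠ 0 ∧ s 2 ≠ 0 := by
          intro h
          refine fermat_ne hs hf (m := 3) (n := 5) (by norm_num) (by norm_num) (by norm_num) ?_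
          unfold P1 at h
          linear_combination h
        cases hb : c.b
        · -- `x = 1`, `z = ζ`
          have hx1 : x = 1 := by simp [hx, Chart.X, hb]
          have hdx0 : dx = 0 := by simp [hdx, hb]
          have hdz1 : dz = 1 := by simp [hdz, hb]
          rw [hdx0, hdz1, mul_zero, zero_add, mul_one] at hW
          rw [hW] at hW0
          by_cases hz0 : z = 0
          · rw [hx1, hz0] at hGG
            refine fermat_ne hs hf (m := 4) (n := 7) (by norm_num) (by norm_num) (by norm_num) ?_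
            unfold P0 P1 at hGG
            linear_combination hGG
          · have h1 : -P0 s * (x ^ 4 - z ^ 4) ^ 4 + P1 s * (x ^ 4 + z ^ 4) ^ 4 = 0 := by
              rcases mul_eq_zero.1 hW0 with h | h
              · exact absurd h (mul_ne_zero (by norm_num) (pow_ne_zero _ hz0))
              · exact h
            have h2 : P1 s * (x ^ 4 + z ^ 4) ^ 4 = 0 := by
              have : P1 s * (x ^ 4 + z ^ 4) ^ 4 * 2 = 0 := by
                have hx4 : x ^ 4 = 1 := by rw [hx1]; norm_num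
                linear_combination hGG + (x ^ 4 - z ^ 4) * h1 - 2 * P1 s * (x ^ 4 + z ^ 4) ^ 4 * hx4
              exact (mul_eq_zero.1 this).resolve_right (by norm_num)
            rcases mul_eq_zero.1 h2 with h | h
            · exact hP' h
            · have h3 : x ^ 4 + z ^ 4 = 0 := pow_eq_zero_iff (by norm_num) |>.1 h
              apply hP
              rw [h2, add_zero] at h1
              have h4 : x ^ 4 - z ^ 4 = 2 := by
                have hx4 : x ^ 4 = 1 := by rw [hx1]; norm_num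
                linear_combination -h3 + 2 * hx4
              rw [h4] at h1
              have h5 : P0 s * 16 = 0 := by linear_combination -h1
              exact (mul_eq_zero.1 h5).resolve_right (by norm_num)
        · have hz1 : z = 1 := by simp [hz, Chart.Z, hb]
          have hdx0 : dx = 1 := by simp [hdx, hb]
          have hdz1 : dz = 0 := by simp [hdz, hb]
          rw [hdx0, hdz1, mul_zero, add_zero, mul_one] at hW
          rw [hW] at hW0
          by_cases hx0 : x = 0
          · rw [hz1, hx0] at hGG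
            refine fermat_ne hs hf (m := 2) (n := 3) (by norm_num) (by norm_num) (by norm_num) ?_
            unfold P0 P1 at hGG
            linear_combination hGG
          · have h1 : P0 s * (x ^ 4 - z ^ 4) ^ 4 + P1 s * (x ^ 4 + z ^ 4) ^ 4 = 0 := by
              rcases mul_eq_zero.1 hW0 with h | h
              · exact absurd h (mul_ne_zero (by norm_num) (pow_ne_zero _ hx0))
              · exact h
            have h2 : P1 s * (x ^ 4 + z ^ 4) ^ 4 = 0 := by
              have : P1 s * (x ^ 4 + z ^ 4) ^ 4 * 2 = 0 := by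
                have hx4 : z ^ 4 = 1 := by rw [hz1]; norm_num
                linear_combination hGG - (x ^ 4 - z ^ 4) * h1 - 2 * P1 s * (x ^ 4 + z ^ 4) ^ 4 * hx4
              exact (mul_eq_zero.1 this).resolve_right (by norm_num)
            rcases mul_eq_zero.1 h2 with h | h
            · exact hP' h
            · have h3 : x ^ 4 + z ^ 4 = 0 := pow_eq_zero_iff (by norm_num) |>.1 h
              apply hP
              rw [h2, add_zero] at h1
              have h4 : x ^ 4 - z ^ 4 = -2 := by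
                have hx4 : z ^ 4 = 1 := by rw [hz1]; norm_num
                linear_combination h3 - 2 * hx4
              rw [h4] at h1
              have h5 : P0 s * 16 = 0 := by linear_combination h1
              exact (mul_eq_zero.1 h5).resolve_right (by norm_num)
      obtain ⟨hs0, hs1, hs2⟩ := hne
      set p : ℂ := (x ^ 4 - z ^ 4) ^ 5 + 3 * (x ^ 4 + z ^ 4) ^ 5 with hp
      set q : ℂ := 2 * (x ^ 4 - z ^ 4) ^ 5 + 5 * (x ^ 4 + z ^ 4) ^ 5 with hq
      have hpq : p ≠ 0 ∨ q ≠ 0 := by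
        by_contra hcon
        push Not at hcon
        obtain ⟨h1, h2⟩ := hcon
        rw [hp] at h1
        rw [hq] at h2
        have h3 : (x ^ 4 + z ^ 4) ^ 5 = 0 := by linear_combination 2 * h1 - h2
        have h4 : (x ^ 4 - z ^ 4) ^ 5 = 0 := by linear_combination h1 - 3 * h3
        have h5 : x ^ 4 + z ^ 4 = 0 := pow_eq_zero_iff (by norm_num) |>.1 h3
        have h6 : x ^ 4 - z ^ 4 = 0 := pow_eq_zero_iff (by norm_num) |>.1 h4
        have h7 : x ^ 4 * 2 = 0 := by linear_combination h5 + h6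
        have h8 : z ^ 4 * 2 = 0 := by linear_combination h5 - h6
        have h9 : x = 0 := pow_eq_zero_iff (n := 4) (by norm_num) |>.1
          ((mul_eq_zero.1 h7).resolve_right (by norm_num))
        have h10 : z = 0 := pow_eq_zero_iff (n := 4) (by norm_num) |>.1
          ((mul_eq_zero.1 h8).resolve_right (by norm_num))
        cases hb : c.b
        · simp [hx, Chart.X, hb] at h9
        · simp [hz, Chart.Z, hb] at h10
      rcases hpq with hp0 | hq0
      · refine ⟨![-β / (4 * p * s 0 ^ 3), 0, (α / 4 + β / (4 * p)) / s 2 ^ 3], 0, 0, ?_, ?_⟩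
        · rw [Fin.sum_univ_three]
          simp only [Matrix.cons_val]
          field_simp
          ring
        · convert! hder _ 0 0 using 1
          simp only [Matrix.cons_val]
          field_simp
          ring
      · refine ⟨![0, -β / (4 * q * s 1 ^ 3), (α / 4 + β / (4 * q)) / s 2 ^ 3], 0, 0, ?_, ?_⟩
        · rw [Fin.sum_univ_three]
          simp only [Matrix.cons_val]
          field_simp
          ring
        · convert! hder _ 0 0 using 1
          simp only [Matrix.cons_val]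
          field_simp
          ring
    · refine ⟨σ1, -(β + (4 * ((x ^ 4 - z ^ 4) ^ 5 + 3 * (x ^ 4 + z ^ 4) ^ 5) * s 0 ^ 3 * σ1 0 +
        4 * (2 * (x ^ 4 - z ^ 4) ^ 5 + 5 * (x ^ 4 + z ^ 4) ^ 5) * s 1 ^ 3 * σ1 1)) / W, 0,
          hfirst, ?_⟩
      convert! hder σ1 _ 0 using 1
      have h1 : ∀ δ : ℂ, 20 * x ^ 3 * (P0 s * (x ^ 4 - z ^ 4) ^ 4 + P1 s * (x ^ 4 + z ^ 4) ^ 4) *
          (dx * δ) + 20 * z ^ 3 * (-P0 s * (x ^ 4 - z ^ 4) ^ 4 + P1 s * (x ^ 4 + z ^ 4) ^ 4) *
            (dz * δ) = W * δ := by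
        intro δ
        rw [hW]; ring
      rw [add_assoc, h1, mul_div_cancel₀ _ hW0]
      ring
  · refine ⟨σ1, 0, (β + (4 * ((x ^ 4 - z ^ 4) ^ 5 + 3 * (x ^ 4 + z ^ 4) ^ 5) * s 0 ^ 3 * σ1 0 +
        4 * (2 * (x ^ 4 - z ^ 4) ^ 5 + 5 * (x ^ 4 + z ^ 4) ^ 5) * s 1 ^ 3 * σ1 1)) / (4 * y ^ 3),
          hfirst, ?_⟩
    convert! hder σ1 0 _ using 1
    have h4 : (4 * y ^ 3) ≠ 0 := by simp [hy0]
    rw [mul_div_cancel₀ _ h4]
    ring

/-- the set of the dependent coordinates -/
def Chart.D (i0 : Fin 3) : Set J := {q | ∃ j a, q = some (j, a) ∧ a ≠ c.a0 ∧ (j, a) ≠ (i0, c.a1)}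

/-- the graph map -/
noncomputable def Chart.G (i0 : Fin 3) (w : J → ℂ) : J → ℂ
  | some (j, a) => w (some (j, c.a0)) * (w (some (i0, c.a1)) / w (some (i0, c.a0))) ^ (c.e a)
  | none => 0

/-- the equation of the base curve -/
noncomputable def Chart.A (w : J → ℂ) : ℂ := ∑ j, w (some (j, c.a0)) ^ 4

/-- the equation of the covering -/
noncomputable def Chart.B (i0 : Fin 3) (w : J → ℂ) : ℂ :=
  w none ^ 4 - GG (fun j => w (some (j, c.a0))) (c.X (w (some (i0, c.a1)) / w (some (i0, c.a0))))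
    (c.Z (w (some (i0, c.a1)) / w (some (i0, c.a0))))

theorem Chart.me_a0 (s : Fin 3 → ℂ) (ζ y : ℂ) (j : Fin 3) : c.me s ζ y (some (j, c.a0)) = s j := by
  simp [Chart.me, c.h0]

theorem Chart.me_a1 (s : Fin 3 → ℂ) (ζ y : ℂ) (j : Fin 3) :
    c.me s ζ y (some (j, c.a1)) = s j * ζ := by
  simp [Chart.me, c.h1]

theorem Chart.me_ratio {s : Fin 3 → ℂ} {i0 : Fin 3} (h : s i0 ≠ 0) (ζ y : ℂ) :
    c.me s ζ y (some (i0, c.a1)) / c.me s ζ y (some (i0, c.a0)) = ζ := by
  rw [c.me_a0, c.me_a1]; field_simp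

theorem Chart.mem_XC {s : Fin 3 → ℂ} (hs : s ≠ 0) (hf : ∑ i, s i ^ 4 = 0) {ζ y : ℂ}
    (hy : y ^ 4 = GG s (c.X ζ) (c.Z ζ)) : c.me s ζ y ∈ XC := by
  refine ⟨?_, s, c.X ζ, c.Z ζ, y, hf, hy, c.me_eq s ζ y⟩
  obtain ⟨i, hi⟩ := Function.ne_iff.1 hs
  intro h
  have := congrFun h (some (i, c.a0))
  rw [c.me_a0] at this
  exact hi this

theorem Chart.param {w : J → ℂ} (hw : w ∈ XC) {i0 : Fin 3} (h0 : w (some (i0, c.a0)) ≠ 0) :
    ∃ (s : Fin 3 → ℂ) (ζ y : ℂ), s i0 ≠ 0 ∧ ∑ i, s i ^ 4 = 0 ∧ y ^ 4 = GG s (c.X ζ) (c.Z ζ) ∧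
      w = c.me s ζ y := by
  obtain ⟨-, s, x, z, y, hf, hy, rfl⟩ := hw
  have ha0 := c.h0
  have hs0 : s i0 ≠ 0 := by
    intro h
    apply h0
    simp [mm, h]
  cases hb : c.b
  · have hx : x ≠ 0 := by
      rintro rfl
      rw [c.he, hb] at ha0
      apply h0
      have : ((c.a0 : Fin 6) : ℕ) ≠ 0 := by
        simp at ha0; omega
      simp [mm, this]
    refine ⟨x ^ 5 • s, z / x, y, ?_, ?_, ?_, ?_⟩
    · rw [Pi.smul_apply, smul_eq_mul]
      exact mul_ne_zero (pow_ne_zero _ hx) hs0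
    · simp only [Pi.smul_apply, smul_eq_mul, mul_pow, ← Finset.mul_sum, hf, mul_zero]
    · rw [hy, GG_smul]
      have h1 := GG_scale x s 1 (z / x)
      rw [mul_one, mul_div_cancel₀ _ hx] at h1
      rw [h1]
      simp only [Chart.X, Chart.Z, hb, Bool.false_eq_true, if_false]
      ring
    · rw [c.me_eq]
      have h1 : mm (x ^ 5 • s) 1 (z / x) y = x ^ 5 • mm s 1 (z / x) (y / x ^ 5) := by
        rw [mm_smul]; congr 1; field_simp
      simp only [Chart.X, Chart.Z, hb]
      simp only [Bool.false_eq_true, if_false]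
      rw [h1, ← mm_scale]
      congr 1 <;> field_simp
  · have hz : z ≠ 0 := by
      rintro rfl
      rw [c.he, hb] at ha0
      apply h0
      have : 5 - ((c.a0 : Fin 6) : ℕ) ≠ 0 := by
        simp at ha0; simp [ha0]
      simp [mm, this]
    refine ⟨z ^ 5 • s, x / z, y, ?_, ?_, ?_, ?_⟩
    · rw [Pi.smul_apply, smul_eq_mul]
      exact mul_ne_zero (pow_ne_zero _ hz) hs0
    · simp only [Pi.smul_apply, smul_eq_mul, mul_pow, ← Finset.mul_sum, hf, mul_zero]
    · rw [hy, GG_smul]
      have h1 := GG_scale z s (x / z) 1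
      rw [mul_one, mul_div_cancel₀ _ hz] at h1
      rw [h1]
      simp only [Chart.X, Chart.Z, hb, if_true]
      ring
    · rw [c.me_eq]
      have h1 : mm (z ^ 5 • s) (x / z) 1 y = z ^ 5 • mm s (x / z) 1 (y / z ^ 5) := by
        rw [mm_smul]; congr 1; field_simp
      simp only [Chart.X, Chart.Z, hb]
      simp only [if_true]
      rw [h1, ← mm_scale]
      congr 1 <;> field_simp

theorem Chart.eqns {i0 : Fin 3} {w : J → ℂ} (h0 : w (some (i0, c.a0)) ≠ 0) :
    w ∈ XC ↔ (∀ q ∈ c.D i0, w q = c.G i0 w q) ∧ c.A w = 0 ∧ c.B i0 w = 0 := by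
  constructor
  · intro hw
    obtain ⟨s, ζ, y, hs0, hf, hy, rfl⟩ := c.param hw h0
    refine ⟨?_, ?_, ?_⟩
    · rintro q ⟨j, a, rfl, -, -⟩
      simp only [Chart.G]
      rw [c.me_ratio hs0, c.me_a0]
      rfl
    · simp only [Chart.A, c.me_a0]
      exact hf
    · simp only [Chart.B]
      rw [c.me_ratio hs0]
      simp only [c.me_a0]
      exact sub_eq_zero.2 hy
  · rintro ⟨h1, h2, h3⟩
    set s : Fin 3 → ℂ := fun j => w (some (j, c.a0)) with hs
    set ζ : ℂ := w (some (i0, c.a1)) / w (some (i0, c.a0)) with hζ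
    have hw : w = c.me s ζ (w none) := by
      funext q
      rcases q with _ | ⟨j, a⟩
      · rfl
      · by_cases ha : a = c.a0
        · subst ha
          rw [c.me_a0]
        · by_cases hj : (j, a) = (i0, c.a1)
          · obtain ⟨rfl, rfl⟩ := Prod.mk.inj hj
            rw [c.me_a1, hs, hζ]
            field_simp
          · exact h1 _ ⟨j, a, rfl, ha, hj⟩
    have hs0 : s ≠ 0 := by
      intro h
      exact h0 (congrFun h i0)
    rw [hw]
    exact c.mem_XC hs0 h2 (sub_eq_zero.1 h3)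

theorem Chart.smooth {i0 : Fin 3} {v : J → ℂ} (hv : v ∈ XC) (h0 : v (some (i0, c.a0)) ≠ 0) :
    ∃ T, IsTangent XX v T := by
  classical
  have : Fintype (c.D i0) := Fintype.ofFinite _
  let R : (J → ℂ) →L[ℂ] (c.D i0 → ℂ) :=
    ContinuousLinearMap.pi fun q => ContinuousLinearMap.proj (q : J)
  have hR : ∀ u (q : c.D i0), R u q = u q := fun u q => rfl
  let F : (J → ℂ) → (c.D i0 → ℂ) × (ℂ × ℂ) := fun w => (R (w - c.G i0 w), (c.A w, c.B i0 w))
  have hFd : ∀ w : J → ℂ, w (some (i0, c.a0)) ≠ 0 → DifferentiableAt ℂ F w := by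
    intro w hw
    have hr : DifferentiableAt ℂ (fun w : J → ℂ => w (some (i0, c.a1)) / w (some (i0, c.a0))) w := by
      fun_prop (disch := assumption)
    have hG : DifferentiableAt ℂ (c.G i0) w := by
      rw [differentiableAt_pi]
      intro q
      rcases q with _ | ⟨j, a⟩
      · simp only [Chart.G]; fun_prop
      · simp only [Chart.G]
        have h1 : DifferentiableAt ℂ (fun w : J → ℂ => w (some (j, c.a0))) w := by fun_prop
        exact h1.mul (hr.pow _)
    have hA : DifferentiableAt ℂ c.A w := by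
      unfold Chart.A
      fun_prop
    have hB : DifferentiableAt ℂ (c.B i0) w := by
      have hX : DifferentiableAt ℂ (fun w : J → ℂ =>
          c.X (w (some (i0, c.a1)) / w (some (i0, c.a0)))) w := by
        simp only [Chart.X]
        split_ifs
        · exact hr
        · fun_prop
      have hZ : DifferentiableAt ℂ (fun w : J → ℂ =>
          c.Z (w (some (i0, c.a1)) / w (some (i0, c.a0)))) w := by
        simp only [Chart.Z]
        split_ifs
        · fun_prop
        · exact hr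
      have hB' : DifferentiableAt ℂ (fun w : J → ℂ => c.B i0 w) w := by
        unfold Chart.B GG P0 P1
        fun_prop
      exact hB'
    exact (R.differentiableAt.comp w (differentiableAt_id.sub hG)).prodMk (hA.prodMk hB)
  have hF' := (hFd v h0).hasFDerivAt
  refine ⟨_, isTangent_of_map (F := F) (U := {w | w (some (i0, c.a0)) ≠ 0})
    (by rw [cone_XX]; exact hv) ?_ h0 (fun w hw => (hFd w hw).differentiableWithinAt) hF' ?_ ?_⟩
  · exact isOpen_ne_fun (continuous_apply _) continuous_const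
  · -- surjectivity
    obtain ⟨s, ζ, y, hs0, hf, hy, hvs⟩ := c.param hv h0
    have hs : s ≠ 0 := by
      rintro rfl
      exact hs0 rfl
    -- vectors supported in `D`
    have hD : ∀ u : J → ℂ, (∀ q ∉ c.D i0, u q = 0) → (fderiv ℂ F v) u = (R u, 0) := by
      intro u hu
      have hu0 : ∀ j, u (some (j, c.a0)) = 0 := by
        intro j
        apply hu
        rintro ⟨j', a, h1, h2, -⟩
        simp only [Option.some.injEq, Prod.mk.injEq] at h1
        exact h2 h1.2.symm
      have hu1 : u (some (i0, c.a1)) = 0 := by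
        apply hu
        rintro ⟨j', a, h1, -, h2⟩
        simp only [Option.some.injEq] at h1
        exact h2 h1.symm
      have hun : u none = 0 := by
        apply hu
        rintro ⟨j', a, h1, -, -⟩
        simp at h1
      have h1 : HasDerivAt (fun t : ℂ => v + t • u) u 0 := by
        have := ((hasDerivAt_id (0 : ℂ)).smul_const u).const_add v
        simpa using this
      have h2 : HasFDerivAt F (fderiv ℂ F v) ((fun t : ℂ => v + t • u) 0) := by simpa using hF'
      have h3 : HasDerivAt (fun t : ℂ => F (v + t • u)) (fderiv ℂ F v u) 0 := h2.comp_hasDerivAt 0 h1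
      have h4 : HasDerivAt (fun t : ℂ => F v + t • ((R u, 0) : (c.D i0 → ℂ) × (ℂ × ℂ)))
          (R u, 0) 0 := by
        have := ((hasDerivAt_id (0 : ℂ)).smul_const
          ((R u, 0) : (c.D i0 → ℂ) × (ℂ × ℂ))).const_add (F v)
        simpa using this
      have h5 : ∀ t : ℂ, F (v + t • u) = F v + t • ((R u, 0) : (c.D i0 → ℂ) × (ℂ × ℂ)) := by
        intro t
        have hG : c.G i0 (v + t • u) = c.G i0 v := by
          funext q
          rcases q with _ | ⟨j, a⟩
          · rfl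
          · simp [Chart.G, hu0, hu1]
        have hA : c.A (v + t • u) = c.A v := by simp [Chart.A, hu0]
        have hB : c.B i0 (v + t • u) = c.B i0 v := by simp [Chart.B, hu0, hu1, hun]
        change (R (v + t • u - c.G i0 (v + t • u)), (c.A (v + t • u), c.B i0 (v + t • u))) =
          (R (v - c.G i0 v), (c.A v, c.B i0 v)) + t • ((R u, 0) : (c.D i0 → ℂ) × (ℂ × ℂ))
        rw [hG, hA, hB, add_sub_right_comm, map_add, map_smul]
        ext <;> simp
      rw [show (fun t : ℂ => F (v + t • u)) = _ from funext h5] at h3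
      exact h3.unique h4
    rintro ⟨r, α, β⟩
    obtain ⟨σ, δ, η, h1, h2⟩ := c.solve hs hf hy α β
    -- the curve
    have hcd : ∃ u, HasDerivAt (fun t : ℂ => c.me (s + t • σ) (ζ + t * δ) (y + t * η)) u 0 := by
      have hl : ∀ a b : ℂ, DifferentiableAt ℂ (fun t : ℂ => a + t * b) 0 := by
        intro a b
        fun_prop
      have : DifferentiableAt ℂ (fun t : ℂ => c.me (s + t • σ) (ζ + t * δ) (y + t * η)) 0 := by
        rw [differentiableAt_pi]
        intro q
        rcases q with _ | ⟨j, a⟩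
        · exact hl y η
        · exact (hl (s j) (σ j)).mul ((hl ζ δ).pow _)
      exact ⟨_, this.hasDerivAt⟩
    obtain ⟨u1, hu1⟩ := hcd
    have hu1F : (fderiv ℂ F v) u1 = (0, (α, β)) := by
      have h3 : HasFDerivAt F (fderiv ℂ F v)
          ((fun t : ℂ => c.me (s + t • σ) (ζ + t * δ) (y + t * η)) 0) := by
        have h9 : (fun t : ℂ => c.me (s + t • σ) (ζ + t * δ) (y + t * η)) 0 = v := by
          rw [hvs]; simp
        rw [h9]
        exact hF'
      have h4 : HasDerivAt (fun t : ℂ => F (c.me (s + t • σ) (ζ + t * δ) (y + t * η)))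
          (fderiv ℂ F v u1) 0 := h3.comp_hasDerivAt 0 hu1
      have hA : HasDerivAt (fun t : ℂ => ∑ j, (s j + t * σ j) ^ 4) α 0 := by
        have hl : ∀ a b : ℂ, HasDerivAt (fun t : ℂ => a + t * b) b 0 := by
          intro a b
          have := ((hasDerivAt_id (0 : ℂ)).mul_const b).const_add a
          simpa using this
        have h5 := HasDerivAt.fun_sum (u := Finset.univ) fun j (_ : j ∈ Finset.univ) =>
          (hl (s j) (σ j)).pow 4
        convert! h5 using 1
        rw [← h1, Finset.mul_sum]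
        refine Finset.sum_congr rfl fun j _ => ?_
        simp; ring
      have h6 : HasDerivAt (fun t : ℂ => ((0 : c.D i0 → ℂ), (∑ j, (s j + t * σ j) ^ 4,
          (y + t * η) ^ 4 - GG (s + t • σ) (c.X (ζ + t * δ)) (c.Z (ζ + t * δ)))))
          (0, (α, β)) 0 := (hasDerivAt_const _ _).prodMk (hA.prodMk h2)
      have h7 : ∀ᶠ t : ℂ in 𝓝 0, s i0 + t * σ i0 ≠ 0 := by
        have : ContinuousAt (fun t : ℂ => s i0 + t * σ i0) 0 := by fun_prop
        exact this.eventually_ne (by simpa using hs0)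
      have h8 : HasDerivAt (fun t : ℂ => F (c.me (s + t • σ) (ζ + t * δ) (y + t * η)))
          (0, (α, β)) 0 := by
        refine h6.congr_of_eventuallyEq ?_
        filter_upwards [h7] with t ht
        have hs' : (s + t • σ) i0 ≠ 0 := ht
        have hG : c.G i0 (c.me (s + t • σ) (ζ + t * δ) (y + t * η)) =
            Function.update (c.me (s + t • σ) (ζ + t * δ) (y + t * η)) none 0 := by
          funext q
          rcases q with _ | ⟨j, a⟩
          · simp [Chart.G]
          · simp only [Chart.G]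
            rw [c.me_ratio hs', c.me_a0, Function.update_of_ne (by simp)]
            rfl
        have hRz : R (c.me (s + t • σ) (ζ + t * δ) (y + t * η) -
            c.G i0 (c.me (s + t • σ) (ζ + t * δ) (y + t * η))) = 0 := by
          rw [hG]
          funext q
          obtain ⟨q, j, a, rfl, -, -⟩ := q
          rw [hR, Pi.sub_apply, Function.update_of_ne (by simp), sub_self]
          rfl
        have hAz : c.A (c.me (s + t • σ) (ζ + t * δ) (y + t * η)) = ∑ j, (s j + t * σ j) ^ 4 := by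
          simp only [Chart.A, c.me_a0]
          rfl
        have hBz : c.B i0 (c.me (s + t • σ) (ζ + t * δ) (y + t * η)) =
            (y + t * η) ^ 4 - GG (s + t • σ) (c.X (ζ + t * δ)) (c.Z (ζ + t * δ)) := by
          simp only [Chart.B]
          rw [c.me_ratio hs']
          simp only [c.me_a0]
          rfl
        change (R _, (c.A _, c.B i0 _)) = _
        rw [hRz, hAz, hBz]
      exact h4.unique h8
    let u2 : J → ℂ := fun q => if h : q ∈ c.D i0 then r ⟨q, h⟩ else 0
    have hu2 := hD u2 (fun q hq => by simp [u2, hq])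
    refine ⟨u1 + u2, ?_⟩
    change (fderiv ℂ F v) (u1 + u2) = _
    rw [map_add, hu1F, hu2]
    have hRu2 : R u2 = r := by
      funext q
      rw [hR]
      simp [u2]
    rw [hRu2]
    ext <;> simp
  · intro w hw
    rw [cone_XX, c.eqns hw]
    constructor
    · rintro ⟨h1, h2, h3⟩
      have : R (w - c.G i0 w) = 0 := by
        funext q
        rw [hR, Pi.sub_apply, h1 q q.2, sub_self]
        rfl
      change (R (w - c.G i0 w), (c.A w, c.B i0 w)) = 0
      rw [h2, h3, this]
      rfl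
    · intro h
      have h1 := (Prod.mk.inj h).1
      have h2 := (Prod.mk.inj h).2
      refine ⟨fun q hq => ?_, (Prod.mk.inj h2).1, (Prod.mk.inj h2).2⟩
      have := congrFun h1 ⟨q, hq⟩
      rw [hR, Pi.sub_apply] at this
      exact sub_eq_zero.1 this

theorem main : S_X2 := by
  intro v hv
  obtain ⟨h0, s, x, z, y, hf, hy, rfl⟩ := id hv
  obtain ⟨hs, hxz⟩ := ne_of_mm_ne hy h0
  obtain ⟨i, hi⟩ := mm_ne (y := y) hs hxz
  rcases hi with hi | hi
  · exact Chart.smooth ⟨fun a => (a : ℕ), 0, 1, true, fun a => rfl, rfl, rfl⟩ hv hi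
  · exact Chart.smooth ⟨fun a => 5 - (a : ℕ), 5, 4, false, fun a => rfl, rfl, rfl⟩ hv hi

end W489.Dem.X2
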