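import Pool.Agent.W489.Dem.Tan
import Pool.Agent.W489.Dem.Stubs

/-!
The eight zeros of the form.
-/

set_option autoImplicit false

open scoped LinearAlgebra.Projectivization Topology
open Metric Set Filter

namespace W489.Dem.Z1

theorem ss0 : ss 0 ≠ 0 := by
  intro h
  have := ss_pow.1
  rw [h] at this
  norm_num at this

/-- the branch of the root -/
noncomputable def Yf (y0 ζ : ℂ) : ℂ := y0 * (1 - ζ ^ 4) ^ ((5 : ℂ) / 4)

theorem Yf_pow (y0 ζ : ℂ) : Yf y0 ζ ^ 4 = y0 ^ 4 * (1 - ζ ^ 4) ^ 5 := by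
  unfold Yf
  have h1 : ((1 - ζ ^ 4) ^ ((5 : ℂ) / 4)) ^ 4 = (1 - ζ ^ 4) ^ 5 := by
    rw [← Complex.cpow_nat_mul]
    rw [show ((4 : ℕ) : ℂ) * ((5 : ℂ) / 4) = ((5 : ℕ) : ℂ) by push_cast; ring]
    rw [Complex.cpow_natCast]
  rw [mul_pow, h1]

theorem slit {ζ : ℂ} (h : ‖ζ‖ < 1) : 1 - ζ ^ 4 ∈ Complex.slitPlane := by
  left
  have h1 : ‖ζ ^ 4‖ < 1 := by
    rw [norm_pow]
    exact pow_lt_one₀ (norm_nonneg _) h (by norm_num)
  have h2 : (ζ ^ 4).re ≤ ‖ζ ^ 4‖ := Complex.re_le_norm _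
  rw [Complex.sub_re, Complex.one_re]
  linarith

theorem Yf_diff {y0 ζ : ℂ} (h : ‖ζ‖ < 1) : DifferentiableAt ℂ (Yf y0) ζ := by
  have h1 : HasDerivAt (fun ζ : ℂ => 1 - ζ ^ 4) _ ζ := (hasDerivAt_pow 4 ζ).const_sub 1
  exact ((h1.cpow_const (c := (5 : ℂ) / 4) (slit h)).const_mul y0).differentiableAt

/-- the parametrization -/
noncomputable def me (e : Fin 6 → ℕ) (ζ y : ℂ) : J → ℂ
  | some (i, a) => ss i * ζ ^ (e a)
  | none => y

/-- its derivative -/
noncomputable def dme (e : Fin 6 → ℕ) (y0 ζ : ℂ) : J → ℂ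
  | some (i, a) => ss i * ((e a : ℕ) * ζ ^ (e a - 1))
  | none => deriv (Yf y0) ζ

theorem hasDeriv_me (e : Fin 6 → ℕ) (y0 : ℂ) {ζ : ℂ} (h : ‖ζ‖ < 1) :
    HasDerivAt (fun t => me e t (Yf y0 t)) (dme e y0 ζ) ζ := by
  rw [hasDerivAt_pi]
  intro q
  rcases q with _ | ⟨i, a⟩
  · exact (Yf_diff h).hasDerivAt
  · exact (hasDerivAt_pow (e a) ζ).const_mul (ss i)

theorem root_unique {y Y : ℂ} (h4 : y ^ 4 = Y ^ 4) (h : ‖y - Y‖ < ‖Y‖) : y = Y := by
  have hY : Y ≠ 0 := by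
    rintro rfl
    simp at h
    exact absurd h (not_lt.2 (norm_nonneg _))
  have hf : (y - Y) * ((y + Y) * ((y - Complex.I * Y) * (y + Complex.I * Y))) = 0 := by
    have hI : Complex.I ^ 2 = -1 := Complex.I_sq
    linear_combination h4 - (y ^ 2 - Y ^ 2) * Y ^ 2 * hI
  have hYp : 0 < ‖Y‖ := norm_pos_iff.2 hY
  rcases mul_eq_zero.1 hf with h1 | h1
  · exact sub_eq_zero.1 h1
  · exfalso
    rcases mul_eq_zero.1 h1 with h1 | h1
    · have h2 : y - Y = -2 * Y := by linear_combination h1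
      rw [h2, norm_mul] at h
      simp at h
      linarith
    · rcases mul_eq_zero.1 h1 with h1 | h1
      · have h2 : y - Y = (Complex.I - 1) * Y := by linear_combination h1
        rw [h2, norm_mul] at h
        have h3 : (1 : ℝ) ≤ ‖Complex.I - 1‖ := by
          have := Complex.abs_im_le_norm (Complex.I - 1)
          simpa using this
        nlinarith
      · have h2 : y - Y = (-Complex.I - 1) * Y := by linear_combination h1
        rw [h2, norm_mul] at h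
        have h3 : (1 : ℝ) ≤ ‖-Complex.I - 1‖ := by
          have := Complex.abs_im_le_norm (-Complex.I - 1)
          simpa using this
        nlinarith

/-- the graph map -/
noncomputable def G (e : Fin 6 → ℕ) (a0 a1 : Fin 6) (y0 : ℂ) (w : J → ℂ) : J → ℂ :=
  (w (some (0, a0)) / ss 0) • me e (w (some (0, a1)) / w (some (0, a0)))
    (Yf y0 (w (some (0, a1)) / w (some (0, a0))))

theorem G_diff (e : Fin 6 → ℕ) (a0 a1 : Fin 6) (y0 : ℂ) {w : J → ℂ} (h0 : w (some (0, a0)) ≠ 0)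
    (h1 : ‖w (some (0, a1)) / w (some (0, a0))‖ < 1) : DifferentiableAt ℂ (G e a0 a1 y0) w := by
  have hr : DifferentiableAt ℂ (fun w : J → ℂ => w (some (0, a1)) / w (some (0, a0))) w := by
    fun_prop (disch := assumption)
  have hm := (hasDeriv_me e y0 h1).differentiableAt
  have h2 : DifferentiableAt ℂ (fun w : J → ℂ => w (some (0, a0)) / ss 0) w := by
    fun_prop
  exact h2.smul (DifferentiableAt.comp (g := fun t => me e t (Yf y0 t)) w hm hr)

/-- the neighbourhood -/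
def U (e : Fin 6 → ℕ) (a0 a1 : Fin 6) (y0 : ℂ) : Set (J → ℂ) :=
  {w | w (some (0, a0)) ≠ 0 ∧ ‖w (some (0, a1)) / w (some (0, a0))‖ < 1 ∧
    ‖w none - G e a0 a1 y0 w none‖ < ‖G e a0 a1 y0 w none‖}

theorem U_open (e : Fin 6 → ℕ) (a0 a1 : Fin 6) (y0 : ℂ) : IsOpen (U e a0 a1 y0) := by
  rw [isOpen_iff_mem_nhds]
  rintro w ⟨h0, h1, h2⟩
  have hc := (G_diff e a0 a1 y0 h0 h1).continuousAt
  have hcn : ContinuousAt (fun w => G e a0 a1 y0 w none) w := (continuous_apply none).continuousAt.comp hc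
  have hn : ContinuousAt (fun w : J → ℂ => w none) w := (continuous_apply none).continuousAt
  have h00 : ContinuousAt (fun w : J → ℂ => w (some (0, a0))) w := (continuous_apply _).continuousAt
  have h11 : ContinuousAt (fun w : J → ℂ => w (some (0, a1))) w := (continuous_apply _).continuousAt
  have e1 := h00.eventually_ne h0
  have e2 := (h11.div h00 h0).norm.eventually_lt continuousAt_const h1
  have e3 := (hn.sub hcn).norm.eventually_lt hcn.norm h2
  filter_upwards [e1, e2, e3] with w h1 h2 h3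
  exact ⟨h1, h2, h3⟩

/-- the set of the dependent coordinates -/
def D (a0 a1 : Fin 6) : Set J := {q | q ≠ some (0, a0) ∧ q ≠ some (0, a1)}

theorem hasDet (σ : ℝ) (L : (Fin 1 → ℂ) →L[ℝ] (Fin 1 → ℂ))
    (hL : ∀ w, L w 0 = σ * (starRingEnd ℂ) (w 0)) : L.det = -σ ^ 2 := by
  let f : ℂ →ₗ[ℝ] ℂ := σ • Complex.conjAe.toLinearMap
  let E : ℂ ≃ₗ[ℝ] (Fin 1 → ℂ) := (LinearEquiv.funUnique (Fin 1) ℝ ℂ).symm
  have h1 : (L : (Fin 1 → ℂ) →ₗ[ℝ] (Fin 1 → ℂ)) =
      (E : ℂ →ₗ[ℝ] (Fin 1 → ℂ)) ∘ₗ f ∘ₗ (E.symm : (Fin 1 → ℂ) →ₗ[ℝ] ℂ) := by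
    refine LinearMap.ext fun w => ?_
    funext j
    fin_cases j
    change L w 0 = _
    rw [hL]
    rfl
  rw [ContinuousLinearMap.det, h1, LinearMap.det_conj]
  simp only [f]
  rw [LinearMap.det_smul]
  simp [Complex.finrank_real_complex]

theorem hasF {R : (Fin 1 → ℂ) → ℂ} (hR : ContinuousAt R 0) :
    ∃ L : (Fin 1 → ℂ) →L[ℝ] (Fin 1 → ℂ), (∀ w, L w 0 = R 0 * (starRingEnd ℂ) (w 0)) ∧
      HasFDerivAt (fun ζ : Fin 1 → ℂ => fun _ : Fin 1 => (starRingEnd ℂ) (ζ 0) * R ζ) L 0 := by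
  let L0 : (Fin 1 → ℂ) →L[ℝ] ℂ :=
    ((ContinuousLinearMap.mul ℝ ℂ (R 0)).comp (Complex.conjCLE : ℂ →L[ℝ] ℂ)).comp
      (ContinuousLinearMap.proj (0 : Fin 1))
  have hL0 : ∀ w, L0 w = R 0 * (starRingEnd ℂ) (w 0) := fun w => rfl
  refine ⟨ContinuousLinearMap.pi fun _ => L0, fun w => rfl, ?_⟩
  rw [hasFDerivAt_pi]
  intro _
  rw [hasFDerivAt_iff_isLittleO_nhds_zero]
  simp only [zero_add, Pi.zero_apply, map_zero, zero_mul, sub_zero]
  have h1 : (fun ζ : Fin 1 → ℂ => (starRingEnd ℂ) (ζ 0) * R ζ - L0 ζ) =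
      fun ζ => (starRingEnd ℂ) (ζ 0) * (R ζ - R 0) := by
    funext ζ
    rw [hL0]; ring
  rw [h1]
  have h2 : (fun ζ : Fin 1 → ℂ => (starRingEnd ℂ) (ζ 0)) =O[𝓝 0] fun ζ : Fin 1 → ℂ => ‖ζ‖ := by
    refine Asymptotics.IsBigO.of_bound 1 (Eventually.of_forall fun ζ => ?_)
    rw [RCLike.norm_conj, one_mul, norm_norm]
    exact norm_le_pi_norm ζ 0
  have h3 : (fun ζ : Fin 1 → ℂ => R ζ - R 0) =o[𝓝 0] fun _ => (1 : ℝ) := by
    rw [Asymptotics.isLittleO_one_iff]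
    have h5 : Tendsto (fun ζ => R ζ - R 0) (𝓝 0) (𝓝 (R 0 - R 0)) := hR.sub_const _
    rwa [sub_self] at h5
  have h4 := h2.mul_isLittleO h3
  simp only [mul_one] at h4
  exact h4.of_norm_right

theorem me_a0 {e : Fin 6 → ℕ} {a0 : Fin 6} (he0 : e a0 = 0) (ζ y : ℂ) :
    me e ζ y (some (0, a0)) = ss 0 := by
  simp [me, he0]

theorem me_a1 {e : Fin 6 → ℕ} {a1 : Fin 6} (he1 : e a1 = 1) (ζ y : ℂ) :
    me e ζ y (some (0, a1)) = ss 0 * ζ := by
  simp [me, he1]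

/-- near the point the cone over the curve is a graph -/
theorem graph {e : Fin 6 → ℕ} {a0 a1 : Fin 6} {y0 : ℂ} (he0 : e a0 = 0)
    (he1 : e a1 = 1)
    (hpar : ∀ l ζ y : ℂ, l ≠ 0 → y ^ 4 = y0 ^ 4 * (1 - ζ ^ 4) ^ 5 → l • me e ζ y ∈ ZC)
    (hpar' : ∀ w ∈ ZC, w (some (0, a0)) ≠ 0 → ∃ l ζ y : ℂ, y ^ 4 = y0 ^ 4 * (1 - ζ ^ 4) ^ 5 ∧
      w = l • me e ζ y) {w : J → ℂ} (hw : w ∈ U e a0 a1 y0) :
    w ∈ ZC ↔ ∀ q ∈ D a0 a1, w q = G e a0 a1 y0 w q := by
  obtain ⟨h0, h1, h2⟩ := hw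
  have hs := ss0
  constructor
  · intro hwZ
    obtain ⟨l, ζ, y, hy, rfl⟩ := hpar' w hwZ h0
    have hl : l ≠ 0 := by
      rintro rfl
      simp at h0
    have hr : (l • me e ζ y) (some (0, a1)) / (l • me e ζ y) (some (0, a0)) = ζ := by
      simp only [Pi.smul_apply, smul_eq_mul, me_a0 he0, me_a1 he1]
      field_simp
    have hl' : (l • me e ζ y) (some (0, a0)) / ss 0 = l := by
      simp only [Pi.smul_apply, smul_eq_mul, me_a0 he0]
      field_simp
    have hG : G e a0 a1 y0 (l • me e ζ y) = l • me e ζ (Yf y0 ζ) := by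
      unfold G
      rw [hr, hl']
    rw [hG] at h2 ⊢
    have hyY : y = Yf y0 ζ := by
      refine root_unique ?_ ?_
      · rw [hy, Yf_pow]
      · simp only [Pi.smul_apply, smul_eq_mul, me] at h2
        rw [← mul_sub, norm_mul, norm_mul] at h2
        exact lt_of_mul_lt_mul_left h2 (norm_nonneg _)
    intro q _
    rw [← hyY]
  · intro h
    have hl : w (some (0, a0)) / ss 0 ≠ 0 := div_ne_zero h0 hs
    have hw2 : w = G e a0 a1 y0 w := by
      funext q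
      by_cases hq0 : q = some (0, a0)
      · subst hq0
        unfold G
        rw [Pi.smul_apply, me_a0 he0, smul_eq_mul]
        field_simp
      · by_cases hq1 : q = some (0, a1)
        · subst hq1
          unfold G
          rw [Pi.smul_apply, me_a1 he1, smul_eq_mul]
          field_simp
        · exact h q ⟨hq0, hq1⟩
    rw [hw2]
    exact hpar _ _ _ hl (Yf_pow _ _)

theorem main' {e : Fin 6 → ℕ} {a0 a1 : Fin 6} {y0 : ℂ} (hy0 : y0 ≠ 0) (he0 : e a0 = 0)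
    (he1 : e a1 = 1) (hne1 : ∀ a, e a = 1 → a = a1) (hne0 : ∀ a, e a = 0 → a = a0)
    (hpar : ∀ l ζ y : ℂ, l ≠ 0 → y ^ 4 = y0 ^ 4 * (1 - ζ ^ 4) ^ 5 → l • me e ζ y ∈ ZC)
    (hpar' : ∀ w ∈ ZC, w (some (0, a0)) ≠ 0 → ∃ l ζ y : ℂ, y ^ 4 = y0 ^ 4 * (1 - ζ ^ 4) ^ 5 ∧
      w = l • me e ζ y) (hσ : (((a1 : ℕ) : ℝ) - ((a0 : ℕ) : ℝ)) ≠ 0) :
    ZeroSign ZZ eta (me e 0 y0) (-1) := by
  have hs := ss0
  set v := me e 0 y0 with hv
  have hYf0 : Yf y0 0 = y0 := by simp [Yf]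
  have hv0 : v (some (0, a0)) = ss 0 := me_a0 he0 _ _
  have hv1 : v (some (0, a1)) = 0 := by rw [hv, me_a1 he1, mul_zero]
  have hGv : G e a0 a1 y0 v = v := by
    unfold G
    rw [hv0, hv1, div_self hs, zero_div, one_smul, hYf0]
  have hvZ : v ∈ ZC := by
    have := hpar 1 0 y0 one_ne_zero (by simp)
    rwa [one_smul] at this
  have hvU : v ∈ U e a0 a1 y0 := by
    refine ⟨by rw [hv0]; exact hs, by rw [hv1]; simp, ?_⟩
    rw [hGv, sub_self, norm_zero]
    exact norm_pos_iff.2 hy0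
  have hGd : DifferentiableOn ℂ (G e a0 a1 y0) (U e a0 a1 y0) := fun w hw =>
    (G_diff e a0 a1 y0 hw.1 hw.2.1).differentiableWithinAt
  have hGdv := (G_diff e a0 a1 y0 hvU.1 hvU.2.1).hasFDerivAt
  have hdep : ∀ w w' : J → ℂ, (∀ q ∉ D a0 a1, w q = w' q) → G e a0 a1 y0 w = G e a0 a1 y0 w' := by
    intro w w' h
    have h0 := h (some (0, a0)) (fun h => h.1 rfl)
    have h1 := h (some (0, a1)) (fun h => h.2 rfl)
    unfold G
    rw [h0, h1]
  obtain ⟨T, hT, hTu⟩ := isTangent_of_graph (X := ZZ) (D a0 a1) (by rw [cone_ZZ]; exact hvZ)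
    (U_open e a0 a1 y0) hvU hGd hGdv hdep (fun w hw => by
      rw [cone_ZZ]; exact graph he0 he1 hpar hpar' hw)
  -- the curve
  have hcurve : ∀ t : ℂ, me e t (Yf y0 t) ∈ ZC := by
    intro t
    have := hpar 1 t (Yf y0 t) one_ne_zero (Yf_pow _ _)
    rwa [one_smul] at this
  have hder0 := hasDeriv_me e y0 (ζ := 0) (by simp)
  set τ := dme e y0 0 with hτ
  have hτT : τ ∈ T := hT.mem_of_curve hder0 (by rw [hYf0])
    (Eventually.of_forall fun t => by rw [cone_ZZ]; exact hcurve t)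
  have hvT : v ∈ T := by
    have hd : HasDerivAt (fun t : ℂ => (1 + t) • v) v 0 := by
      have := ((hasDerivAt_id (0 : ℂ)).const_add 1).smul_const v
      simpa using this
    refine hT.mem_of_curve hd (by simp) ?_
    have h1 : ∀ᶠ t : ℂ in 𝓝 0, 1 + t ≠ 0 := by
      have : ContinuousAt (fun t : ℂ => 1 + t) 0 := by fun_prop
      exact this.eventually_ne (by simp)
    filter_upwards [h1] with t ht
    rw [cone_ZZ]
    exact ZC_smul hvZ ht
  have hτ0 : τ (some (0, a0)) = 0 := by simp [hτ, dme, he0]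
  have hτ1 : τ (some (0, a1)) = ss 0 := by simp [hτ, dme, he1]
  have hspan : ∀ u ∈ T, u = (u (some (0, a0)) / ss 0) • v + (u (some (0, a1)) / ss 0) • τ := by
    intro u hu
    set u' := u - ((u (some (0, a0)) / ss 0) • v + (u (some (0, a1)) / ss 0) • τ) with hu'
    have h1 : u' ∈ T := T.sub_mem hu (T.add_mem (T.smul_mem _ hvT) (T.smul_mem _ hτT))
    have h2 : ∀ q ∉ D a0 a1, u' q = 0 := by
      intro q hq
      have h3 : q = some (0, a0) ∨ q = some (0, a1) := by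
        by_contra hcon
        push Not at hcon
        exact hq hcon
      rcases h3 with rfl | rfl
      · simp only [hu', Pi.sub_apply, Pi.add_apply, Pi.smul_apply, smul_eq_mul, hv0, hτ0]
        field_simp
        ring
      · simp only [hu', Pi.sub_apply, Pi.add_apply, Pi.smul_apply, smul_eq_mul, hv1, hτ1]
        field_simp
        ring
    have h3 := fderiv_eq_zero_of_supp (D a0 a1) hGdv hdep h2
    have h4 : u' = 0 := by
      funext q
      by_cases hq : q ∈ D a0 a1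
      · rw [(hTu u').1 h1 q hq, h3]
      · exact h2 q hq
    exact sub_eq_zero.1 h4
  have hfin : Module.finrank ℂ T = 1 + 1 := by
    have hli : LinearIndependent ℂ ![v, τ] := by
      rw [LinearIndependent.pair_iff]
      intro a b hab
      have h1 := congrFun hab (some (0, a0))
      have h2 := congrFun hab (some (0, a1))
      simp only [Pi.add_apply, Pi.smul_apply, smul_eq_mul, hv0, hτ0, hv1, hτ1, Pi.zero_apply,
        mul_zero, add_zero, zero_add] at h1 h2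
      exact ⟨(mul_eq_zero.1 h1).resolve_right hs, (mul_eq_zero.1 h2).resolve_right hs⟩
    have hT2 : T = Submodule.span ℂ (Set.range ![v, τ]) := by
      apply le_antisymm
      · intro u hu
        rw [hspan u hu]
        refine Submodule.add_mem _ (Submodule.smul_mem _ _ (Submodule.subset_span ⟨0, rfl⟩))
          (Submodule.smul_mem _ _ (Submodule.subset_span ⟨1, rfl⟩))
      · rw [Submodule.span_le]
        rintro _ ⟨i, rfl⟩
        fin_cases i
        · exact hvT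
        · exact hτT
    rw [hT2, finrank_span_eq_card hli]
    simp
  -- the parametrization
  let φ : (Fin 1 → ℂ) → (J → ℂ) := fun ζ => me e (ζ 0) (Yf y0 (ζ 0))
  have hφ : ∀ ζ : Fin 1 → ℂ, ‖ζ 0‖ < 1 → HasFDerivAt φ
      (((1 : ℂ →L[ℂ] ℂ).smulRight (dme e y0 (ζ 0))).comp
        (ContinuousLinearMap.proj (0 : Fin 1) : (Fin 1 → ℂ) →L[ℂ] ℂ)) ζ := by
    intro ζ hζ
    have h1 : HasFDerivAt (fun t => me e t (Yf y0 t)) ((1 : ℂ →L[ℂ] ℂ).smulRight (dme e y0 (ζ 0)))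
        ((ContinuousLinearMap.proj (0 : Fin 1) : (Fin 1 → ℂ) →L[ℂ] ℂ) ζ) :=
      (hasDeriv_me e y0 hζ).hasFDerivAt
    exact h1.comp ζ (ContinuousLinearMap.hasFDerivAt _)
  have hball : ∀ᶠ ζ : Fin 1 → ℂ in 𝓝 0, ‖ζ 0‖ < 1 := by
    have : ContinuousAt (fun ζ : Fin 1 → ℂ => ‖ζ 0‖) 0 :=
      (continuous_apply (0 : Fin 1)).norm.continuousAt
    exact this.eventually_lt continuousAt_const (by simp)
  let h : (Fin 1 → ℂ) → (Fin 1 → ℂ) := fun ζ j => eta (φ ζ) (fderiv ℂ φ ζ (Pi.single j 1))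
  let R : (Fin 1 → ℂ) → ℂ := fun ζ => ∑ q : Fin 3 × Fin 6,
    (((((q.2 : ℕ) : ℝ) * NN (φ ζ) - MM (φ ζ) : ℝ) : ℂ) / ((NN (φ ζ) : ℝ) : ℂ) ^ 2) *
      (((‖ss q.1‖ ^ 2 : ℝ) : ℂ) * ((e q.2 : ℕ) * ((starRingEnd ℂ) (ζ 0) * ζ 0) ^ (e q.2 - 1)))
  have hform : ∀ ζ : Fin 1 → ℂ, ‖ζ 0‖ < 1 → h ζ = fun _ => (starRingEnd ℂ) (ζ 0) * R ζ := by
    intro ζ hζ
    funext j
    have hj : j = 0 := Subsingleton.elim _ _
    subst hj
    have h1 : fderiv ℂ φ ζ (Pi.single 0 1) = dme e y0 (ζ 0) := by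
      rw [(hφ ζ hζ).fderiv]
      simp
    change eta (φ ζ) (fderiv ℂ φ ζ (Pi.single 0 1)) = _
    rw [h1]
    unfold eta
    rw [FunLike.coe_sum, Finset.sum_apply]
    simp only [R]
    rw [Finset.mul_sum]
    refine Finset.sum_congr rfl fun q _ => ?_
    rcases q with ⟨i, a⟩
    simp only [Pi.smul_apply, ContinuousLinearMap.proj_apply, smul_eq_mul, FunLike.coe_smul]
    have h2 : φ ζ (some (i, a)) = ss i * (ζ 0) ^ (e a) := rfl
    have h3 : dme e y0 (ζ 0) (some (i, a)) = ss i * ((e a : ℕ) * (ζ 0) ^ (e a - 1)) := rfl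
    rw [h2, h3]
    have h4 : ((‖ss i‖ ^ 2 : ℝ) : ℂ) = (starRingEnd ℂ) (ss i) * ss i := by
      rw [mul_comm, Complex.mul_conj, Complex.normSq_eq_norm_sq]
    rw [h4]
    have h5 : (starRingEnd ℂ) (ss i * (ζ 0) ^ (e a)) * (ss i * ((e a : ℕ) * (ζ 0) ^ (e a - 1))) =
        (starRingEnd ℂ) (ζ 0) * (((starRingEnd ℂ) (ss i) * ss i) *
          ((e a : ℕ) * ((starRingEnd ℂ) (ζ 0) * ζ 0) ^ (e a - 1))) := by
      rcases Nat.eq_zero_or_pos (e a) with h6 | h6
      · rw [h6]; simp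
      · obtain ⟨m, hm⟩ : ∃ m, e a = m + 1 := ⟨e a - 1, by omega⟩
        rw [hm, Nat.add_sub_cancel, map_mul, map_pow, mul_pow]
        ring
    linear_combination (((((a : ℕ) : ℝ) * NN (φ ζ) - MM (φ ζ) : ℝ) : ℂ) /
      ((NN (φ ζ) : ℝ) : ℂ) ^ 2) * h5
  have hφc : ContinuousAt φ 0 := (hφ 0 (by simp)).continuousAt
  have hφ0 : φ 0 = v := by
    change me e 0 (Yf y0 0) = v
    rw [hYf0]
  have hN0 : NN (φ 0) = ∑ i, ‖ss i‖ ^ 2 := by
    rw [hφ0]
    unfold NN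
    rw [Fintype.sum_prod_type]
    refine Finset.sum_congr rfl fun i _ => ?_
    rw [Finset.sum_eq_single a0]
    · simp [hv, me, he0]
    · intro a _ ha
      have : e a ≠ 0 := fun h => ha (hne0 a h)
      simp [hv, me, this]
    · simp
  have hM0 : MM (φ 0) = (a0 : ℕ) * ∑ i, ‖ss i‖ ^ 2 := by
    rw [hφ0]
    unfold MM
    rw [Fintype.sum_prod_type, Finset.mul_sum]
    refine Finset.sum_congr rfl fun i _ => ?_
    rw [Finset.sum_eq_single a0]
    · simp [hv, me, he0]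
    · intro a _ ha
      have : e a ≠ 0 := fun h => ha (hne0 a h)
      simp [hv, me, this]
    · simp
  have hSpos : 0 < ∑ i, ‖ss i‖ ^ 2 := by
    refine Finset.sum_pos' (fun _ _ => by positivity) ⟨0, Finset.mem_univ _, ?_⟩
    have := norm_pos_iff.2 hs
    positivity
  set S : ℝ := ∑ i, ‖ss i‖ ^ 2 with hS
  have hR0 : R 0 = ((((a1 : ℕ) : ℝ) - ((a0 : ℕ) : ℝ) : ℝ) : ℂ) := by
    simp only [R, hN0, hM0]
    rw [Fintype.sum_prod_type]
    have h1 : ∀ i : Fin 3, ∑ a : Fin 6, ((((((i, a) : Fin 3 × Fin 6).2 : ℕ) : ℝ) * S -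
        (a0 : ℕ) * S : ℝ) : ℂ) / ((S : ℝ) : ℂ) ^ 2 *
        (((‖ss ((i, a) : Fin 3 × Fin 6).1‖ ^ 2 : ℝ) : ℂ) * ((e ((i, a) : Fin 3 × Fin 6).2 : ℕ) *
          ((starRingEnd ℂ) ((0 : Fin 1 → ℂ) 0) * (0 : Fin 1 → ℂ) 0) ^
            (e ((i, a) : Fin 3 × Fin 6).2 - 1))) =
        (((((a1 : ℕ) : ℝ) - ((a0 : ℕ) : ℝ)) / S * ‖ss i‖ ^ 2 : ℝ) : ℂ) := by
      intro i
      rw [Finset.sum_eq_single a1]
      · simp only [he1]
        have hS0 : (S : ℂ) ≠ 0 := by exact_mod_cast hSpos.ne'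
        push_cast
        field_simp
      · intro a _ ha
        have h2 : e a ≠ 1 := fun h => ha (hne1 a h)
        rcases Nat.eq_zero_or_pos (e a) with h3 | h3
        · simp [h3]
        · have : e a - 1 ≠ 0 := by omega
          simp [this]
      · simp
    rw [Finset.sum_congr rfl fun i _ => h1 i]
    rw [← Complex.ofReal_sum, ← Finset.mul_sum, ← hS]
    congr 1
    field_simp
  have hRc : ContinuousAt R 0 := by
    have hNc : ContinuousAt (fun ζ : Fin 1 → ℂ => NN (φ ζ)) 0 := by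
      have : Continuous NN := by unfold NN; fun_prop
      exact this.continuousAt.comp hφc
    have hMc : ContinuousAt (fun ζ : Fin 1 → ℂ => MM (φ ζ)) 0 := by
      have : Continuous MM := by unfold MM; fun_prop
      exact this.continuousAt.comp hφc
    have hN0' : ((NN (φ 0) : ℝ) : ℂ) ^ 2 ≠ 0 := by
      rw [hN0]
      exact pow_ne_zero _ (by exact_mod_cast hSpos.ne')
    refine tendsto_finsetSum _ fun q _ => ?_
    have hc1 : ContinuousAt (fun ζ : Fin 1 → ℂ => ((((q.2 : ℕ) : ℝ) * NN (φ ζ) - MM (φ ζ) : ℝ) : ℂ))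
        0 := by
      exact Complex.continuous_ofReal.continuousAt.comp ((hNc.const_mul _).sub hMc)
    have hc2 : ContinuousAt (fun ζ : Fin 1 → ℂ => ((NN (φ ζ) : ℝ) : ℂ) ^ 2) 0 :=
      (Complex.continuous_ofReal.continuousAt.comp hNc).pow 2
    have hc3 : Continuous (fun ζ : Fin 1 → ℂ => (((‖ss q.1‖ ^ 2 : ℝ) : ℂ) * ((e q.2 : ℕ) *
        ((starRingEnd ℂ) (ζ 0) * ζ 0) ^ (e q.2 - 1)))) := by
      have hconj : Continuous fun ζ : Fin 1 → ℂ => (starRingEnd ℂ) (ζ 0) :=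
        Complex.continuous_conj.comp (continuous_apply 0)
      fun_prop
    exact (hc1.div hc2 hN0').mul hc3.continuousAt
  obtain ⟨L, hL, hLd⟩ := hasF hRc
  have hLh : HasFDerivAt h L 0 := by
    refine hLd.congr_of_eventuallyEq ?_
    filter_upwards [hball] with ζ hζ
    exact hform ζ hζ
  have hdet : (fderiv ℝ h 0).det = -(((a1 : ℕ) : ℝ) - ((a0 : ℕ) : ℝ)) ^ 2 := by
    rw [hLh.fderiv]
    refine hasDet _ L fun w => ?_
    rw [hL, hR0]
  refine ⟨1, T, φ, h, hT, hfin, ?_, hφ0, ?_, fun ζ j => rfl, ?_, ?_, ?_⟩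
  · filter_upwards [hball] with ζ hζ
    refine ⟨(hφ ζ hζ).differentiableAt, ?_⟩
    rw [cone_ZZ]
    exact hcurve _
  · intro u hu
    refine ⟨u (some (0, a0)) / ss 0, fun _ => u (some (0, a1)) / ss 0, ?_⟩
    rw [(hφ 0 (by simp)).fderiv]
    exact hspan u hu
  · rw [hform 0 (by simp)]
    simp
    rfl
  · rw [hdet]
    exact neg_ne_zero.2 (pow_ne_zero _ hσ)
  · rw [hdet]
    have : -(((a1 : ℕ) : ℝ) - ((a0 : ℕ) : ℝ)) ^ 2 < 0 := by
      have : 0 < (((a1 : ℕ) : ℝ) - ((a0 : ℕ) : ℝ)) ^ 2 := by positivity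
      linarith
    rw [sign_neg this]
    rfl

theorem main : S_Z1 := by
  constructor
  · intro y hy
    have hy0 : y ≠ 0 := by
      rintro rfl
      norm_num at hy
    have hme : ∀ ζ y : ℂ, me (fun a => (a : ℕ)) ζ y = mm ss ζ 1 y := by
      intro ζ y
      funext q
      rcases q with _ | ⟨i, a⟩
      · rfl
      · simp [me, mm]
    have h := main' (e := fun a => (a : ℕ)) (a0 := 0) (a1 := 1) (y0 := y) hy0 rfl rfl
      (fun a ha => by ext; exact ha) (fun a ha => by ext; exact ha) ?_ ?_ (by norm_num)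
    · rwa [hme] at h
    · intro l ζ y' hl hy'
      rw [hme]
      refine ZC_smul ⟨?_, ζ, 1, y', ?_, rfl⟩ hl
      · intro h0
        have := congrFun h0 (some (0, 0))
        simp [mm, ss0] at this
      · rw [hy', hy]; ring
    · rintro w ⟨h0, x, z, y', hy', rfl⟩ hw
      have hz : z ≠ 0 := by
        rintro rfl
        simp [mm] at hw
      refine ⟨z ^ 5, x / z, y' / z ^ 5, ?_, ?_⟩
      · rw [div_pow, hy', hy]
        field_simp
      · rw [hme, ← mm_scale]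
        congr 1 <;> field_simp
  · intro y hy
    have hy0 : y ≠ 0 := by
      rintro rfl
      norm_num at hy
    have hme : ∀ ζ y : ℂ, me (fun a => 5 - (a : ℕ)) ζ y = mm ss 1 ζ y := by
      intro ζ y
      funext q
      rcases q with _ | ⟨i, a⟩
      · rfl
      · simp [me, mm]
    have h := main' (e := fun a => 5 - (a : ℕ)) (a0 := 5) (a1 := 4) (y0 := y) hy0 rfl rfl
      (fun a ha => by ext; change (a : ℕ) = 4; omega)
      (fun a ha => by ext; change (a : ℕ) = 5; omega) ?_ ?_ (by norm_num)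
    · rwa [hme] at h
    · intro l ζ y' hl hy'
      rw [hme]
      refine ZC_smul ⟨?_, 1, ζ, y', ?_, rfl⟩ hl
      · intro h0
        have := congrFun h0 (some (0, 5))
        simp [mm, ss0] at this
      · rw [hy', hy]; ring
    · rintro w ⟨h0, x, z, y', hy', rfl⟩ hw
      have hx : x ≠ 0 := by
        rintro rfl
        simp [mm] at hw
      refine ⟨x ^ 5, z / x, y' / x ^ 5, ?_, ?_⟩
      · rw [div_pow, hy', hy]
        field_simp
        ring
      · rw [hme, ← mm_scale]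
        congr 1 <;> field_simp

end W489.Dem.Z1
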