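import Pool.Agent.W489.Dem.Tan
import Pool.Agent.W489.Dem.Stubs

/-!
There are no intersections outside the eight zeros.
-/

set_option autoImplicit false

open scoped LinearAlgebra.Projectivization Topology
open Metric Set Filter

namespace W489.Dem.Z2

/-- auxiliary: the polynomial `x^4 (z^4 - x^4)^4` -/
noncomputable def Q (b : J → ℂ) : ℂ :=
  (b (some (0, 4)) / ss 0) * (b (some (0, 0)) / ss 0) ^ 3
    - 4 * (b (some (0, 4)) / ss 0) ^ 2 * (b (some (0, 0)) / ss 0) ^ 2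
    + 6 * (b (some (0, 4)) / ss 0) ^ 3 * (b (some (0, 0)) / ss 0)
    - 4 * (b (some (0, 4)) / ss 0) ^ 4 + (b (some (0, 5)) / ss 0) ^ 4

/-- a tangent vector field -/
noncomputable def tau (b : J → ℂ) : J → ℂ
  | some (i, a) => (a : ℕ) * b (some (i, a))
  | none => -5 * Q b / b none ^ 3

theorem ss0 : ss 0 ≠ 0 := by
  intro h
  have := ss_pow.1
  rw [h] at this
  norm_num at this

theorem Q_mm (x z y : ℂ) : Q (mm ss x z y) = x ^ 4 * (z ^ 4 - x ^ 4) ^ 4 := by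
  have h := ss0
  have h4 : mm ss x z y (some (0, 4)) / ss 0 = x ^ 4 * z := by
    simp only [mm]
    field_simp
    norm_num
  have h0 : mm ss x z y (some (0, 0)) / ss 0 = z ^ 5 := by
    simp only [mm]
    field_simp
    norm_num
  have h5 : mm ss x z y (some (0, 5)) / ss 0 = x ^ 5 := by
    simp only [mm]
    field_simp
    norm_num
  unfold Q
  rw [h4, h0, h5]
  ring

/-- the `y`-component of the curve -/
theorem exists_Y {x z y : ℂ} (hy : y ^ 4 = (z ^ 4 - x ^ 4) ^ 5) :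
    ∃ Y : ℂ → ℂ, Y 0 = y ∧ (∀ t, Y t ^ 4 = (z ^ 4 - (x * (1 + t)) ^ 4) ^ 5) ∧
      HasDerivAt Y (-5 * (x ^ 4 * (z ^ 4 - x ^ 4) ^ 4) / y ^ 3) 0 := by
  have hg : HasDerivAt (fun t : ℂ => z ^ 4 - (x * (1 + t)) ^ 4) (-4 * x ^ 4) 0 := by
    have h1 : HasDerivAt (fun t : ℂ => x * (1 + t)) x 0 := by
      have := ((hasDerivAt_id (0 : ℂ)).const_add 1).const_mul x
      simpa using this
    have h2 := (h1.pow 4).const_sub (z ^ 4)
    convert! h2 using 1
    simp; ring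
  by_cases hy0 : y = 0
  · subst hy0
    have hzx : z ^ 4 - x ^ 4 = 0 := by
      rw [zero_pow (by norm_num)] at hy
      exact pow_eq_zero_iff (by norm_num) |>.1 hy.symm
    refine ⟨fun t => ((z ^ 4 - (x * (1 + t)) ^ 4) ^ 5) ^ ((4 : ℂ)⁻¹), ?_, ?_, ?_⟩
    · simp [hzx]
    · intro t
      have := Complex.cpow_nat_inv_pow ((z ^ 4 - (x * (1 + t)) ^ 4) ^ 5) (n := 4) (by norm_num)
      exact_mod_cast this
    · rw [hzx]
      simp only [ne_eq, OfNat.ofNat_ne_zero, not_false_eq_true, zero_pow, mul_zero, div_zero]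
      set g : ℂ → ℂ := fun t => z ^ 4 - (x * (1 + t)) ^ 4 with hgdef
      have hg0 : g 0 = 0 := by simp [g, hzx]
      have hY4 : ∀ t, ‖(g t ^ 5) ^ ((4 : ℂ)⁻¹)‖ ^ 4 = ‖g t‖ ^ 5 := by
        intro t
        have := Complex.cpow_nat_inv_pow (g t ^ 5) (n := 4) (by norm_num)
        rw [← norm_pow, ← norm_pow]
        exact congrArg norm (by exact_mod_cast this)
      rw [hasDerivAt_iff_isLittleO]
      change (fun t => (g t ^ 5) ^ ((4 : ℂ)⁻¹) - (g 0 ^ 5) ^ ((4 : ℂ)⁻¹) - (t - 0) • (0 : ℂ)) =o[𝓝 0]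
        fun t => t - 0
      simp only [sub_zero, smul_zero]
      have hYz : (g 0 ^ 5) ^ ((4 : ℂ)⁻¹) = 0 := by
        rw [hg0]; simp
      rw [Asymptotics.isLittleO_iff]
      intro ε hε
      -- `‖g t‖ ≤ C ‖t‖`
      obtain ⟨C, hC0, hC⟩ : ∃ C : ℝ, 0 < C ∧ ∀ᶠ t in 𝓝 (0 : ℂ), ‖g t‖ ≤ C * ‖t‖ := by
        have h1 := hg.isBigO_sub
        obtain ⟨C, hC0, hC⟩ := h1.exists_pos
        refine ⟨C, hC0, ?_⟩
        have := hC.bound
        filter_upwards [this] with t ht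
        have h0 : z ^ 4 - (x * (1 + 0)) ^ 4 = 0 := by simpa using hzx
        simpa [g, h0, hzx] using ht
      have hsm : ∀ᶠ t in 𝓝 (0 : ℂ), ‖g t‖ ≤ (ε / C) ^ 4 := by
        have h1 : Tendsto (fun t => ‖g t‖) (𝓝 0) (𝓝 0) := by
          have h3 : Tendsto (fun t => ‖g t‖) (𝓝 0) (𝓝 ‖g 0‖) := hg.continuousAt.norm
          rwa [hg0, norm_zero] at h3
        exact h1.eventually (ge_mem_nhds (by positivity))
      filter_upwards [hC, hsm] with t h1 h2
      rw [hYz, sub_zero]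
      refine le_of_pow_le_pow_left₀ (n := 4) (by norm_num) (by positivity) ?_
      rw [hY4]
      calc ‖g t‖ ^ 5 = ‖g t‖ ^ 4 * ‖g t‖ := by ring
        _ ≤ (C * ‖t‖) ^ 4 * (ε / C) ^ 4 :=
          mul_le_mul (pow_le_pow_left₀ (norm_nonneg _) h1 4) h2 (norm_nonneg _) (by positivity)
        _ = (ε * ‖t‖) ^ 4 := by field_simp
  · have hzx : z ^ 4 - x ^ 4 ≠ 0 := by
      intro h
      rw [h] at hy
      apply hy0
      exact pow_eq_zero_iff (by norm_num) |>.1 (hy.trans (by norm_num))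
    refine ⟨fun t => y * ((z ^ 4 - (x * (1 + t)) ^ 4) / (z ^ 4 - x ^ 4)) ^ ((5 : ℂ) / 4), ?_, ?_, ?_⟩
    · simp [hzx]
    · intro t
      have h1 : (((z ^ 4 - (x * (1 + t)) ^ 4) / (z ^ 4 - x ^ 4)) ^ ((5 : ℂ) / 4)) ^ 4 =
          ((z ^ 4 - (x * (1 + t)) ^ 4) / (z ^ 4 - x ^ 4)) ^ 5 := by
        rw [← Complex.cpow_nat_mul]
        rw [show ((4 : ℕ) : ℂ) * ((5 : ℂ) / 4) = ((5 : ℕ) : ℂ) by push_cast; ring]
        rw [Complex.cpow_natCast]
      rw [mul_pow, h1, hy, div_pow]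
      field_simp
    · have h1 : HasDerivAt (fun t : ℂ => (z ^ 4 - (x * (1 + t)) ^ 4) / (z ^ 4 - x ^ 4))
          (-4 * x ^ 4 / (z ^ 4 - x ^ 4)) 0 := hg.div_const _
      have h2 : (fun t : ℂ => (z ^ 4 - (x * (1 + t)) ^ 4) / (z ^ 4 - x ^ 4)) 0 = 1 := by
        simp [hzx]
      have h2' : (z ^ 4 - (x * (1 + 0)) ^ 4) / (z ^ 4 - x ^ 4) = 1 := h2
      have h3 := (h1.cpow_const (c := (5 : ℂ) / 4) (by rw [h2']; simp)).const_mul y
      rw [h2', Complex.one_cpow] at h3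
      convert! h3 using 1
      have h4 : y ^ 4 ≠ 0 := pow_ne_zero _ hy0
      rw [div_eq_iff (pow_ne_zero _ hy0)]
      have h5 : y * (5 / 4 * 1 * (-4 * x ^ 4 / (z ^ 4 - x ^ 4))) * y ^ 3 =
        -5 * x ^ 4 * y ^ 4 / (z ^ 4 - x ^ 4) := by field_simp
      rw [h5, hy]
      field_simp

theorem tau_curve {x z y : ℂ} (hy : y ^ 4 = (z ^ 4 - x ^ 4) ^ 5) (h0 : mm ss x z y ≠ 0) :
    ∃ c : ℂ → J → ℂ, HasDerivAt c (tau (mm ss x z y)) 0 ∧ c 0 = mm ss x z y ∧
      ∀ᶠ t in 𝓝 (0 : ℂ), c t ∈ ZC := by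
  obtain ⟨Y, hY0, hY, hYd⟩ := exists_Y hy
  have hd : HasDerivAt (fun t => mm ss (x * (1 + t)) z (Y t)) (tau (mm ss x z y)) 0 := by
    rw [hasDerivAt_pi]
    intro q
    rcases q with _ | ⟨i, a⟩
    · simp only [mm, tau]
      rw [Q_mm]
      exact hYd
    · simp only [mm, tau]
      have h1 : HasDerivAt (fun t : ℂ => x * (1 + t)) x 0 := by
        have := ((hasDerivAt_id (0 : ℂ)).const_add 1).const_mul x
        simpa using this
      have h2 := ((h1.pow (a : ℕ)).const_mul (ss i)).mul_const (z ^ (5 - (a : ℕ)))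
      convert! h2 using 1
      simp only [add_zero, mul_one]
      by_cases ha : (a : ℕ) = 0
      · rw [ha]; simp
      · have h3 : x ^ (a : ℕ) = x ^ ((a : ℕ) - 1) * x := by
          rw [← pow_succ]; congr 1; omega
        rw [h3]
        ring
  have hc0 : mm ss (x * (1 + 0)) z (Y 0) = mm ss x z y := by rw [hY0]; simp
  refine ⟨_, hd, hc0, ?_⟩
  have h1 : ∀ᶠ t in 𝓝 (0 : ℂ), mm ss (x * (1 + t)) z (Y t) ≠ 0 :=
    hd.continuousAt.eventually_ne (by rw [hc0]; exact h0)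
  filter_upwards [h1] with t ht
  exact ⟨ht, _, _, _, hY t, rfl⟩

theorem norm_tau {b : J → ℂ} (hb : b ∈ ZC) : ‖tau b none‖ ^ 4 =
    625 * ‖(b (some (0, 4)) / ss 0) ^ 4 - (b (some (0, 5)) / ss 0) ^ 4‖ * ‖b (some (0, 5)) / ss 0‖ ^ 0 *
      1 := by
  obtain ⟨-, x, z, y, hy, rfl⟩ := hb
  have h := ss0
  have h4 : mm ss x z y (some (0, 4)) / ss 0 = x ^ 4 * z := by
    simp only [mm]
    field_simp
    norm_num
  have h5 : mm ss x z y (some (0, 5)) / ss 0 = x ^ 5 := by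
    simp only [mm]
    field_simp
    norm_num
  rw [h4, h5]
  have h6 : tau (mm ss x z y) none = -5 * (x ^ 4 * (z ^ 4 - x ^ 4) ^ 4) / y ^ 3 := by
    simp only [tau]; rw [Q_mm]; rfl
  rw [h6, ← norm_pow]
  rw [pow_zero, mul_one, mul_one]
  rw [show (625 : ℝ) = ‖(625 : ℂ)‖ by simp, ← norm_mul]
  congr 1
  by_cases hzx : z ^ 4 - x ^ 4 = 0
  · have h7 : (x ^ 4 * z) ^ 4 - (x ^ 5) ^ 4 = x ^ 16 * (z ^ 4 - x ^ 4) := by ring
    rw [h7, hzx]
    simp
  · have hy0 : y ≠ 0 := by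
      rintro rfl
      apply hzx
      exact pow_eq_zero_iff (n := 5) (by norm_num) |>.1 (hy.symm.trans (by norm_num))
    rw [div_pow, div_eq_iff (by positivity)]
    have h8 : (y ^ 3) ^ 4 = (y ^ 4) ^ 3 := by ring
    rw [h8, hy]
    ring

theorem tau_cont {v : J → ℂ} (hv : v ∈ ZC) : ContinuousWithinAt tau ZC v := by
  refine continuousWithinAt_pi.2 fun q => ?_
  rcases q with _ | ⟨i, a⟩
  · by_cases h0 : v none = 0
    · have hz : tau v none = 0 := by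
        simp only [tau]
        rw [h0]; simp
      change Tendsto (fun b => tau b none) (𝓝[ZC] v) (𝓝 (tau v none))
      rw [hz]
      rw [tendsto_zero_iff_norm_tendsto_zero]
      have h1 : Tendsto (fun b : J → ℂ => 625 * ‖(b (some (0, 4)) / ss 0) ^ 4 -
          (b (some (0, 5)) / ss 0) ^ 4‖) (𝓝[ZC] v) (𝓝 0) := by
        have hc : Continuous (fun b : J → ℂ => 625 * ‖(b (some (0, 4)) / ss 0) ^ 4 -
          (b (some (0, 5)) / ss 0) ^ 4‖) := by fun_prop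
        have h2 := (hc.tendsto v).mono_left (nhdsWithin_le_nhds (s := ZC))
        have h3 := norm_tau hv
        rw [hz] at h3
        simp only [norm_zero, ne_eq, OfNat.ofNat_ne_zero, not_false_eq_true, zero_pow, pow_zero,
          mul_one] at h3
        rw [← h3] at h2
        exact h2
      have h4 : Tendsto (fun b : J → ℂ => ‖tau b none‖ ^ 4) (𝓝[ZC] v) (𝓝 0) := by
        refine h1.congr' ?_
        filter_upwards [self_mem_nhdsWithin] with b hb
        rw [norm_tau hb]; simp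
      have h5 : Tendsto (fun b : J → ℂ => (‖tau b none‖ ^ 4) ^ ((4 : ℝ)⁻¹)) (𝓝[ZC] v) (𝓝 0) := by
        have := h4.rpow_const (p := (4 : ℝ)⁻¹) (Or.inr (by norm_num))
        simpa using this
      refine h5.congr fun b => ?_
      have := Real.pow_rpow_inv_natCast (norm_nonneg (tau b none)) (n := 4) (by norm_num)
      exact_mod_cast this
    · refine ContinuousAt.continuousWithinAt ?_
      simp only [tau, Q]
      have hc : Continuous fun b : J → ℂ => -5 * ((b (some (0, 4)) / ss 0) *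
          (b (some (0, 0)) / ss 0) ^ 3
          - 4 * (b (some (0, 4)) / ss 0) ^ 2 * (b (some (0, 0)) / ss 0) ^ 2
          + 6 * (b (some (0, 4)) / ss 0) ^ 3 * (b (some (0, 0)) / ss 0)
          - 4 * (b (some (0, 4)) / ss 0) ^ 4 + (b (some (0, 5)) / ss 0) ^ 4) := by fun_prop
      have hc2 : Continuous fun b : J → ℂ => b none ^ 3 := by fun_prop
      exact hc.continuousAt.div hc2.continuousAt (pow_ne_zero _ h0)
  · simp only [tau]
    exact (Continuous.continuousWithinAt (by fun_prop))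

theorem eta_tau {v : J → ℂ} (h0 : v (some (0, 0)) ≠ 0) (h5 : v (some (0, 5)) ≠ 0) :
    eta v (tau v) ≠ 0 := by
  have hN : 0 < NN v := by
    unfold NN
    refine Finset.sum_pos' (fun _ _ => by positivity) ⟨(0, 0), Finset.mem_univ _, ?_⟩
    have : 0 < ‖v (some (0, 0))‖ := norm_pos_iff.2 h0
    positivity
  have hM : 0 < MM v := by
    unfold MM
    refine Finset.sum_pos' (fun _ _ => by positivity) ⟨(0, 5), Finset.mem_univ _, ?_⟩
    have : 0 < ‖v (some (0, 5))‖ := norm_pos_iff.2 h5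
    have h6 : (0 : ℝ) < (((5 : Fin 6) : ℕ) : ℝ) := by norm_num
    exact mul_pos h6 (by positivity)
  set K : ℝ := ∑ q : Fin 3 × Fin 6, (((q.2 : ℕ) : ℝ) * NN v - MM v) * ((q.2 : ℕ) : ℝ) *
    ‖v (some q)‖ ^ 2 with hK
  have h1 : eta v (tau v) = ((K / NN v ^ 2 : ℝ) : ℂ) := by
    unfold eta
    rw [FunLike.coe_sum, Finset.sum_apply]
    rw [hK, Finset.sum_div]
    push_cast
    refine Finset.sum_congr rfl fun q _ => ?_
    simp only [Pi.smul_apply, ContinuousLinearMap.proj_apply, smul_eq_mul, FunLike.coe_smul]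
    have h2 : tau v (some q) = (q.2 : ℕ) * v (some q) := by
      rcases q with ⟨i, a⟩; rfl
    rw [h2]
    have h3 : ((‖v (some q)‖ : ℝ) : ℂ) ^ 2 = (starRingEnd ℂ) (v (some q)) * v (some q) := by
      rw [mul_comm, Complex.mul_conj, Complex.normSq_eq_norm_sq]; push_cast; rfl
    rw [h3]
    ring
  have h2 : NN v * K = ∑ q : Fin 3 × Fin 6, (((q.2 : ℕ) : ℝ) * NN v - MM v) ^ 2 *
      ‖v (some q)‖ ^ 2 := by
    have h3 : ∑ q : Fin 3 × Fin 6, (((q.2 : ℕ) : ℝ) * NN v - MM v) * ‖v (some q)‖ ^ 2 = 0 := by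
      simp only [sub_mul]
      rw [Finset.sum_sub_distrib, ← Finset.mul_sum]
      have h4 : ∑ q : Fin 3 × Fin 6, ((q.2 : ℕ) : ℝ) * NN v * ‖v (some q)‖ ^ 2 = NN v * MM v := by
        unfold MM
        rw [Finset.mul_sum]
        exact Finset.sum_congr rfl fun q _ => by ring
      rw [h4]
      change NN v * MM v - MM v * NN v = 0
      ring
    have h5 : ∑ q : Fin 3 × Fin 6, (((q.2 : ℕ) : ℝ) * NN v - MM v) ^ 2 * ‖v (some q)‖ ^ 2 =
        NN v * K - MM v * ∑ q : Fin 3 × Fin 6, (((q.2 : ℕ) : ℝ) * NN v - MM v) *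
          ‖v (some q)‖ ^ 2 := by
      rw [hK, Finset.mul_sum, Finset.mul_sum, ← Finset.sum_sub_distrib]
      exact Finset.sum_congr rfl fun q _ => by ring
    rw [h5, h3]; ring
  have h3 : 0 < NN v * K := by
    rw [h2]
    refine Finset.sum_pos' (fun _ _ => by positivity) ⟨(0, 0), Finset.mem_univ _, ?_⟩
    have h4 : 0 < ‖v (some (0, 0))‖ := norm_pos_iff.2 h0
    simp only [Fin.val_zero, Nat.cast_zero, zero_mul, zero_sub]
    rw [neg_sq]
    positivity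
  have hKpos : 0 < K := pos_of_mul_pos_right h3 hN.le
  rw [h1]
  have : K / NN v ^ 2 ≠ 0 := by positivity
  exact_mod_cast this

theorem main : S_Z2 := by
  intro hX2 x z y hx hz hy hcon
  set v := mm ss x z y with hv
  obtain ⟨hvZ, ξ, h1, h2⟩ := hcon
  rw [cone_ZZ] at hvZ
  obtain ⟨T, hT⟩ := hX2 v (ZC_sub hvZ)
  have hmem : ∀ (W : Set (PS J)) (T : Submodule ℂ (J → ℂ)) (b : J → ℂ), IsTangent W b T → b ∈ ZC →
      ZC ⊆ Cone W → tau b ∈ T := by
    intro W T b hT hb hW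
    obtain ⟨hb0, x, z, y, hy, rfl⟩ := hb
    obtain ⟨c, hc, hc0, hcZ⟩ := tau_curve hy hb0
    exact hT.mem_of_curve hc hc0 (hcZ.mono fun t ht => hW ht)
  have hξ : ξ (tau v) = 0 := by
    set S : Set ((J → ℂ) × ((J → ℂ) →L[ℂ] ℂ)) := {b | ∃ T, IsTangent ZZ b.1 T ∧
      ∀ u ∈ T, b.2 u = 0} with hS
    have hSZ : ∀ b ∈ S, b.1 ∈ ZC := by
      rintro b ⟨T, hT, -⟩
      have := hT.1
      rwa [cone_ZZ] at this
    have : (𝓝[S] (v, ξ)).NeBot := mem_closure_iff_nhdsWithin_neBot.1 h2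
    have hfst : Tendsto (fun b : (J → ℂ) × ((J → ℂ) →L[ℂ] ℂ) => tau b.1) (𝓝[S] (v, ξ))
        (𝓝 (tau v)) := by
      have h3 : Tendsto (fun b : (J → ℂ) × ((J → ℂ) →L[ℂ] ℂ) => b.1) (𝓝[S] (v, ξ)) (𝓝[ZC] v) := by
        refine tendsto_nhdsWithin_iff.2 ⟨?_, ?_⟩
        · exact (continuous_fst.tendsto (v, ξ)).mono_left nhdsWithin_le_nhds
        · filter_upwards [self_mem_nhdsWithin] with b hb
          exact hSZ b hb
      exact Tendsto.comp (tau_cont hvZ) h3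
    have hsnd : Tendsto (fun b : (J → ℂ) × ((J → ℂ) →L[ℂ] ℂ) => b.2) (𝓝[S] (v, ξ)) (𝓝 ξ) :=
      (continuous_snd.tendsto (v, ξ)).mono_left nhdsWithin_le_nhds
    have h4 : Tendsto (fun b : (J → ℂ) × ((J → ℂ) →L[ℂ] ℂ) => b.2 (tau b.1)) (𝓝[S] (v, ξ))
        (𝓝 (ξ (tau v))) :=
      (isBoundedBilinearMap_apply.continuous.tendsto (ξ, tau v)).comp (hsnd.prodMk_nhds hfst)
    have h5 : Tendsto (fun b : (J → ℂ) × ((J → ℂ) →L[ℂ] ℂ) => b.2 (tau b.1)) (𝓝[S] (v, ξ))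
        (𝓝 0) := by
      refine tendsto_const_nhds.congr' ?_
      filter_upwards [self_mem_nhdsWithin] with b hb
      obtain ⟨T, hT, hb2⟩ := id hb
      exact (hb2 _ (hmem ZZ T b.1 hT (hSZ b hb) (by rw [cone_ZZ]))).symm
    exact tendsto_nhds_unique h4 h5
  have h3 : tau v ∈ T := hmem XX T v hT hvZ (by rw [cone_XX]; exact ZC_sub)
  have h4 := h1 T hT (tau v) h3
  rw [hξ] at h4
  refine eta_tau ?_ ?_ h4.symm
  · rw [hv]
    simp only [mm]
    exact mul_ne_zero (mul_ne_zero ss0 (by simp)) (pow_ne_zero _ hz)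
  · rw [hv]
    simp only [mm]
    exact mul_ne_zero (mul_ne_zero ss0 (pow_ne_zero _ hx)) (by norm_num)

end W489.Dem.Z2
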