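import Pool.Agent.W489.Dem.Stubs

set_option autoImplicit false

open scoped LinearAlgebra.Projectivization Topology
open Metric Set Filter

namespace W489.Dem.Z3

theorem NN_pos {v : J → ℂ} (hv : v ∈ XC) : 0 < NN v := by
  obtain ⟨h0, s, x, z, y, hs, hy, rfl⟩ := hv
  obtain ⟨hs0, hxz⟩ := ne_of_mm_ne hy h0
  obtain ⟨i, hi⟩ := mm_ne (y := y) hs0 hxz
  unfold NN
  rcases hi with hi | hi
  · exact Finset.sum_pos' (fun _ _ => by positivity) ⟨(i, 0), Finset.mem_univ _, by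
      have : 0 < ‖mm s x z y (some (i, 0))‖ := norm_pos_iff.2 hi
      positivity⟩
  · exact Finset.sum_pos' (fun _ _ => by positivity) ⟨(i, 5), Finset.mem_univ _, by
      have : 0 < ‖mm s x z y (some (i, 5))‖ := norm_pos_iff.2 hi
      positivity⟩

theorem NN_smul (c : ℂ) (v : J → ℂ) : NN (c • v) = ‖c‖ ^ 2 * NN v := by
  unfold NN
  rw [Finset.mul_sum]
  refine Finset.sum_congr rfl fun q _ => ?_
  rw [Pi.smul_apply, smul_eq_mul, norm_mul, mul_pow]

theorem MM_smul (c : ℂ) (v : J → ℂ) : MM (c • v) = ‖c‖ ^ 2 * MM v := by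
  unfold MM
  rw [Finset.mul_sum]
  refine Finset.sum_congr rfl fun q _ => ?_
  rw [Pi.smul_apply, smul_eq_mul, norm_mul, mul_pow]
  ring

theorem contDiff_coord (q : Fin 3 × Fin 6) : ContDiff ℝ (⊤ : ℕ∞) fun v : J → ℂ => v (some q) :=
  contDiff_apply ℝ ℂ (some q)

theorem contDiff_nsq (q : Fin 3 × Fin 6) : ContDiff ℝ (⊤ : ℕ∞) fun v : J → ℂ => ‖v (some q)‖ ^ 2 :=
  (contDiff_coord q).norm_sq ℝ

theorem contDiff_NN : ContDiff ℝ (⊤ : ℕ∞) NN := by
  unfold NN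
  exact ContDiff.sum fun q _ => contDiff_nsq q

theorem contDiff_MM : ContDiff ℝ (⊤ : ℕ∞) MM := by
  unfold MM
  exact ContDiff.sum fun q _ => contDiff_const.mul (contDiff_nsq q)

theorem main : W489.Dem.S_Z3 := by
  intro v hv
  rw [cone_XX] at hv
  have hN := NN_pos hv
  have hNc : ((NN v : ℝ) : ℂ) ≠ 0 := by exact_mod_cast hN.ne'
  refine ⟨?_, ?_, ?_⟩
  · unfold eta
    refine ContDiffAt.sum fun q _ => ?_
    have hcoef : ContDiffAt ℝ (⊤ : ℕ∞) (fun v : J → ℂ =>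
        (((((q.2 : ℕ) : ℝ) * NN v - MM v : ℝ) : ℂ) * (starRingEnd ℂ) (v (some q)) /
          ((NN v : ℝ) : ℂ) ^ 2)) v := by
      have e1 : ContDiff ℝ (⊤ : ℕ∞) (fun v : J → ℂ =>
          ((((q.2 : ℕ) : ℝ) * NN v - MM v : ℝ) : ℂ)) :=
        Complex.ofRealCLM.contDiff.comp
          (((contDiff_const (c := (((q.2 : ℕ) : ℝ)))).mul contDiff_NN).sub contDiff_MM)
      have e2 : ContDiff ℝ (⊤ : ℕ∞) (fun v : J → ℂ => (starRingEnd ℂ) (v (some q))) :=
        Complex.conjCLE.contDiff.comp (contDiff_coord q)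
      have e3 : ContDiff ℝ (⊤ : ℕ∞) (fun v : J → ℂ => ((NN v : ℝ) : ℂ) ^ 2) :=
        (Complex.ofRealCLM.contDiff.comp contDiff_NN).pow 2
      simp only [div_eq_mul_inv]
      exact (e1.contDiffAt.mul e2.contDiffAt).mul (e3.contDiffAt.inv (pow_ne_zero _ hNc))
    exact hcoef.smul contDiffAt_const
  · simp only [eta, FunLike.coe_sum, Finset.sum_apply, FunLike.coe_smul,
      Pi.smul_apply, ContinuousLinearMap.proj_apply, smul_eq_mul]
    have h1 : ∀ q : Fin 3 × Fin 6, ((((q.2 : ℕ) : ℝ) * NN v - MM v : ℝ) : ℂ) *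
        (starRingEnd ℂ) (v (some q)) / ((NN v : ℝ) : ℂ) ^ 2 * v (some q) =
        ((((((q.2 : ℕ) : ℝ) * ‖v (some q)‖ ^ 2) * NN v - MM v * ‖v (some q)‖ ^ 2) / NN v ^ 2 : ℝ) : ℂ) := by
      intro q
      have h2 : (starRingEnd ℂ) (v (some q)) * v (some q) = ((‖v (some q)‖ ^ 2 : ℝ) : ℂ) := by
        rw [mul_comm, Complex.mul_conj, Complex.normSq_eq_norm_sq]
      push_cast at h2 ⊢
      rw [div_mul_eq_mul_div, mul_assoc, h2]
      ring
    rw [Finset.sum_congr rfl fun q _ => h1 q, ← Complex.ofReal_sum, ← Finset.sum_div,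
      Finset.sum_sub_distrib, ← Finset.sum_mul, ← Finset.mul_sum]
    change (((MM v * NN v - MM v * NN v) / NN v ^ 2 : ℝ) : ℂ) = 0
    simp
  · intro c hc
    have hcn : ((‖c‖ : ℝ) : ℂ) ≠ 0 := by
      exact_mod_cast (norm_pos_iff.2 hc).ne'
    have hcc : ((‖c‖ : ℝ) : ℂ) ^ 2 = c * (starRingEnd ℂ) c := by
      rw [Complex.mul_conj, Complex.normSq_eq_norm_sq]; push_cast; rfl
    have hc' : (starRingEnd ℂ) c ≠ 0 := by simpa using hc
    unfold eta
    rw [Finset.smul_sum]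
    refine Finset.sum_congr rfl fun q _ => ?_
    rw [smul_smul]
    congr 1
    rw [NN_smul, MM_smul, Pi.smul_apply, smul_eq_mul, map_mul]
    push_cast
    rw [hcc]
    field_simp

end W489.Dem.Z3
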