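import Mathlib

/-!
Complex projective manifolds, the Kobayashi pseudodistance, conormal varieties and their
intersection numbers with the zero section.
-/

set_option autoImplicit false

open scoped LinearAlgebra.Projectivization Topology
open Metric Set Filter

namespace W489.Dem

/-- The complex projective space of the lines in `ℂ^ι`. -/
abbrev PS (ι : Type) := ℙ ℂ (ι → ℂ)

variable {ι : Type} [Fintype ι]

/-- The cone over a subset of projective space: all nonzero vectors whose lines belong to it. -/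
def Cone (X : Set (PS ι)) : Set (ι → ℂ) :=
  {v | ∃ h : v ≠ 0, Projectivization.mk ℂ v h ∈ X}

/-- `X` is a closed algebraic subset of projective space: the common zero set of some homogeneous
polynomials. -/
def IsAlgSet (X : Set (PS ι)) : Prop :=
  ∃ S : Set (MvPolynomial ι ℂ), (∀ f ∈ S, ∃ d, f.IsHomogeneous d) ∧
    ∀ v : ι → ℂ, v ∈ Cone X ↔ v ≠ 0 ∧ ∀ f ∈ S, MvPolynomial.eval v f = 0

/-- `Z` is a closed irreducible subvariety of projective space. -/
def IsSubvariety (Z : Set (PS ι)) : Prop :=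
  IsAlgSet Z ∧ Z.Nonempty ∧
    ∀ A B : Set (PS ι), IsAlgSet A → IsAlgSet B → Z ⊆ A ∪ B → Z ⊆ A ∨ Z ⊆ B

/-- Near the point `[v]`, the set `X` is a complex submanifold of projective space, and `T` is the
tangent space at `v` of the cone over it: near `v` the cone over `X` is the zero set of a
holomorphic map whose derivative at `v` is surjective and has kernel `T`. (The tangent space of
`X` at `[v]` is `T` modulo the line of `v`.) -/
def IsTangent (X : Set (PS ι)) (v : ι → ℂ) (T : Submodule ℂ (ι → ℂ)) : Prop :=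
  v ∈ Cone X ∧ ∃ (U : Set (ι → ℂ)) (k : ℕ) (F : (ι → ℂ) → (Fin k → ℂ)), IsOpen U ∧ v ∈ U ∧
    DifferentiableOn ℂ F U ∧ Function.Surjective (fderiv ℂ F v) ∧
    (∀ w ∈ U, w ∈ Cone X ↔ F w = 0) ∧ ∀ u, u ∈ T ↔ fderiv ℂ F v u = 0

/-- `X` is a complex projective manifold: a closed algebraic subset of projective space which is
connected and is a complex submanifold near each of its points. -/
def IsProjManifold (X : Set (PS ι)) : Prop :=
  IsAlgSet X ∧ IsConnected (Cone X) ∧ ∀ v ∈ Cone X, ∃ T, IsTangent X v T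

/-- `f` is a holomorphic map from the open set `U` of `ℂ` to projective space: locally it is
given by nowhere vanishing holomorphic vector functions. -/
def HolMap (U : Set ℂ) (f : ℂ → PS ι) : Prop :=
  ∀ t ∈ U, ∃ (W : Set ℂ) (g : ℂ → ι → ℂ), IsOpen W ∧ t ∈ W ∧ DifferentiableOn ℂ g W ∧
    ∀ t' ∈ W, ∃ h : g t' ≠ 0, f t' = Projectivization.mk ℂ (g t') h

/-- The Poincare distance of two points of the unit disc, for the metric `|dz| / (1 - |z|^2)`. -/
noncomputable def poinc (a b : ℂ) : ℝ :=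
  Real.arsinh (‖a - b‖ / Real.sqrt ((1 - ‖a‖ ^ 2) * (1 - ‖b‖ ^ 2)))

/-- `L` is the total Poincare length of a chain of holomorphic discs in `X` from `p` to `q`. -/
def IsChain (X : Set (PS ι)) (p q : PS ι) (L : ℝ) : Prop :=
  ∃ (n : ℕ) (P : ℕ → PS ι) (f : ℕ → ℂ → PS ι) (a b : ℕ → ℂ), P 0 = p ∧ P n = q ∧
    (∀ i < n, HolMap (ball 0 1) (f i) ∧ (∀ t ∈ ball (0 : ℂ) 1, f i t ∈ X) ∧
      a i ∈ ball (0 : ℂ) 1 ∧ b i ∈ ball (0 : ℂ) 1 ∧ f i (a i) = P i ∧ f i (b i) = P (i + 1)) ∧
    L = ∑ i ∈ Finset.range n, poinc (a i) (b i)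

/-- The Kobayashi pseudodistance of `X`: the infimum of the lengths of chains of holomorphic
discs. -/
noncomputable def kobDist (X : Set (PS ι)) (p q : PS ι) : ENNReal :=
  ⨅ (L : ℝ) (_ : IsChain X p q L), ENNReal.ofReal L

/-- `X` is Kobayashi hyperbolic: its Kobayashi pseudodistance separates the points. -/
def KobHyp (X : Set (PS ι)) : Prop :=
  ∀ p ∈ X, ∀ q ∈ X, p ≠ q → 0 < kobDist X p q

/-- The conormal variety of `Z` in the cotangent bundle of `X`. A cotangent vector of `X` at the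
point `[v]` is given by a linear form `ξ` on `ℂ^ι`, of which only the restriction to the tangent
space at `v` of the cone over `X` matters. The pair `(v, ξ)` is in the conormal variety if, after
a change of `ξ` outside this tangent space, it is a limit of pairs `(b, ζ)` where `[b]` is a
smooth point of `Z` and `ζ` vanishes on the tangent space of `Z` at this point. -/
def Conormal (X Z : Set (PS ι)) : Set ((ι → ℂ) × ((ι → ℂ) →L[ℂ] ℂ)) :=
  {a | a.1 ∈ Cone Z ∧ ∃ ξ : (ι → ℂ) →L[ℂ] ℂ,
    (∀ T, IsTangent X a.1 T → ∀ u ∈ T, ξ u = a.2 u) ∧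
    (a.1, ξ) ∈ closure {b : (ι → ℂ) × ((ι → ℂ) →L[ℂ] ℂ) | ∃ T, IsTangent Z b.1 T ∧
      ∀ u ∈ T, b.2 u = 0}}

/-- `η` gives a smooth form of type (1,0) on `X`, that is, a smooth section of the cotangent
bundle: for `v` in the cone over `X`, the linear form `η v` on `ℂ^ι` depends smoothly on `v`, it
vanishes at `v`, and it is multiplied by `c⁻¹` when `v` is multiplied by `c`. -/
def IsForm (X : Set (PS ι)) (η : (ι → ℂ) → ((ι → ℂ) →L[ℂ] ℂ)) : Prop :=
  ∀ v ∈ Cone X, ContDiffAt ℝ (⊤ : ℕ∞) η v ∧ η v v = 0 ∧ ∀ c : ℂ, c ≠ 0 → η (c • v) = c⁻¹ • η v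

/-- `[v]` is a smooth point of `Z` at which the restriction of the form `η` to `Z` has a
nondegenerate zero of sign `ε`: in local holomorphic coordinates `ζ₁, ..., ζ_d` of `Z` around this
point, given by a holomorphic map `φ` to the cone over `Z`, the restriction of `η` to `Z` is
`∑ h_j dζ_j` with `h(0) = 0`, and the real determinant of the derivative of `h` at `0` is nonzero
and has the sign `ε`. This is the intersection sign of the section `η` with the conormal variety
of `Z` at this point. -/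
def ZeroSign (Z : Set (PS ι)) (η : (ι → ℂ) → ((ι → ℂ) →L[ℂ] ℂ)) (v : ι → ℂ) (ε : ℤ) : Prop :=
  ∃ (d : ℕ) (T : Submodule ℂ (ι → ℂ)) (φ : (Fin d → ℂ) → (ι → ℂ)) (h : (Fin d → ℂ) → (Fin d → ℂ)),
    IsTangent Z v T ∧ Module.finrank ℂ T = d + 1 ∧
    (∀ᶠ ζ in 𝓝 (0 : Fin d → ℂ), DifferentiableAt ℂ φ ζ ∧ φ ζ ∈ Cone Z) ∧ φ 0 = v ∧
    (∀ u ∈ T, ∃ (c : ℂ) (w : Fin d → ℂ), u = c • v + fderiv ℂ φ 0 w) ∧
    (∀ ζ j, h ζ j = η (φ ζ) (fderiv ℂ φ ζ (Pi.single j 1))) ∧ h 0 = 0 ∧
    (fderiv ℝ h 0).det ≠ 0 ∧ ε = (SignType.sign (fderiv ℝ h 0).det : ℤ)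

/-- The intersection number of the conormal variety of `Z` with the zero section in the cotangent
bundle of `X` is `k`: some smooth section `η` of the cotangent bundle meets the conormal variety
in finitely many points only, all of them transverse intersections over smooth points of `Z`, and
`k` is the sum of the intersection signs. -/
def ConormalNumber (X Z : Set (PS ι)) (k : ℤ) : Prop :=
  ∃ η : (ι → ℂ) → ((ι → ℂ) →L[ℂ] ℂ), IsForm X η ∧
    ∃ (A : Finset (PS ι)) (ε : PS ι → ℤ),
      (∀ p ∈ A, ∃ (v : ι → ℂ) (h : v ≠ 0), p = Projectivization.mk ℂ v h ∧ ZeroSign Z η v (ε p)) ∧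
      (∀ (v : ι → ℂ) (h : v ≠ 0), (v, η v) ∈ Conormal X Z → Projectivization.mk ℂ v h ∈ A) ∧
      k = ∑ p ∈ A, ε p

end W489.Dem
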