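import Pool.Agent.W489.Dem.Defs

/-!
The example: a surface fibred over the Fermat quartic curve, with a cuspidal fibre.
-/

set_option autoImplicit false

open scoped LinearAlgebra.Projectivization Topology
open Metric Set Filter

namespace W489.Dem

/-- the index set of the homogeneous coordinates: `v (some (i, a)) = s_i x^a z^(5-a)`,
`v none = y` -/
abbrev J := Option (Fin 3 × Fin 6)

/-- the parametrization of the cone -/
def mm (s : Fin 3 → ℂ) (x z y : ℂ) : J → ℂ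
  | some (i, a) => s i * x ^ (a : ℕ) * z ^ (5 - (a : ℕ))
  | none => y

/-- the first coefficient -/
def P0 (s : Fin 3 → ℂ) : ℂ := s 0 ^ 4 + 2 * s 1 ^ 4

/-- the second coefficient -/
def P1 (s : Fin 3 → ℂ) : ℂ := 3 * s 0 ^ 4 + 5 * s 1 ^ 4

/-- the branch form -/
def GG (s : Fin 3 → ℂ) (x z : ℂ) : ℂ :=
  P0 s * (x ^ 4 - z ^ 4) ^ 5 + P1 s * (x ^ 4 + z ^ 4) ^ 5

/-- the cone over the surface -/
def XC : Set (J → ℂ) :=
  {v | v ≠ 0 ∧ ∃ (s : Fin 3 → ℂ) (x z y : ℂ), ∑ i, s i ^ 4 = 0 ∧ y ^ 4 = GG s x z ∧ v = mm s x z y}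

/-- the surface -/
def XX : Set (PS J) := {p | ∃ v ∈ XC, ∃ h : v ≠ 0, p = Projectivization.mk ℂ v h}

/-- the point of the Fermat curve below the cuspidal fibre -/
noncomputable def ss : Fin 3 → ℂ :=
  ![(5 : ℂ) ^ ((4 : ℂ)⁻¹), (-3 : ℂ) ^ ((4 : ℂ)⁻¹), (-2 : ℂ) ^ ((4 : ℂ)⁻¹)]

/-- the cone over the cuspidal fibre -/
def ZC : Set (J → ℂ) :=
  {v | v ≠ 0 ∧ ∃ x z y : ℂ, y ^ 4 = (z ^ 4 - x ^ 4) ^ 5 ∧ v = mm ss x z y}

/-- the cuspidal fibre -/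
def ZZ : Set (PS J) := {p | ∃ v ∈ ZC, ∃ h : v ≠ 0, p = Projectivization.mk ℂ v h}

/-- the sum of the squares of the absolute values of the coordinates other than `y` -/
noncomputable def NN (v : J → ℂ) : ℝ := ∑ q : Fin 3 × Fin 6, ‖v (some q)‖ ^ 2

/-- the weighted sum -/
noncomputable def MM (v : J → ℂ) : ℝ := ∑ q : Fin 3 × Fin 6, (q.2 : ℕ) * ‖v (some q)‖ ^ 2

/-- the form: `∂ (M / N)` -/
noncomputable def eta (v : J → ℂ) : (J → ℂ) →L[ℂ] ℂ :=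
  ∑ q : Fin 3 × Fin 6,
    (((((q.2 : ℕ) : ℝ) * NN v - MM v : ℝ) : ℂ) * (starRingEnd ℂ) (v (some q)) / ((NN v : ℝ) : ℂ) ^ 2) •
      (ContinuousLinearMap.proj (some q) : (J → ℂ) →L[ℂ] ℂ)

theorem ss_pow : ss 0 ^ 4 = 5 ∧ ss 1 ^ 4 = -3 ∧ ss 2 ^ 4 = -2 := by
  have h : ∀ a : ℂ, (a ^ ((4 : ℂ)⁻¹)) ^ 4 = a := by
    intro a
    have := Complex.cpow_nat_inv_pow a (n := 4) (by norm_num)
    exact_mod_cast this
  refine ⟨h 5, h (-3), h (-2)⟩

theorem mm_smul (c : ℂ) (s : Fin 3 → ℂ) (x z y : ℂ) :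
    c • mm s x z y = mm (c • s) x z (c * y) := by
  funext q
  rcases q with _ | ⟨i, a⟩
  · simp [mm]
  · simp only [mm, Pi.smul_apply, smul_eq_mul]; ring

theorem GG_smul (c : ℂ) (s : Fin 3 → ℂ) (x z : ℂ) : GG (c • s) x z = c ^ 4 * GG s x z := by
  simp only [GG, P0, P1, Pi.smul_apply, smul_eq_mul]; ring

theorem mm_scale (c : ℂ) (s : Fin 3 → ℂ) (x z y : ℂ) :
    mm s (c * x) (c * z) (c ^ 5 * y) = c ^ 5 • mm s x z y := by
  funext q
  rcases q with _ | ⟨i, a⟩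
  · simp [mm]
  · have ha : (a : ℕ) + (5 - (a : ℕ)) = 5 := by omega
    simp only [mm, Pi.smul_apply, smul_eq_mul, mul_pow]
    calc s i * (c ^ (a : ℕ) * x ^ (a : ℕ)) * (c ^ (5 - (a : ℕ)) * z ^ (5 - (a : ℕ)))
        = c ^ ((a : ℕ) + (5 - (a : ℕ))) * (s i * x ^ (a : ℕ) * z ^ (5 - (a : ℕ))) := by
          rw [pow_add]; ring
      _ = c ^ 5 * (s i * x ^ (a : ℕ) * z ^ (5 - (a : ℕ))) := by rw [ha]

theorem GG_scale (c : ℂ) (s : Fin 3 → ℂ) (x z : ℂ) :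
    GG s (c * x) (c * z) = c ^ 20 * GG s x z := by
  simp only [GG]; ring

theorem GG_ss (x z : ℂ) : GG ss x z = (z ^ 4 - x ^ 4) ^ 5 := by
  obtain ⟨h0, h1, -⟩ := ss_pow
  simp only [GG, P0, P1, h0, h1]; ring

theorem ss_fermat : ∑ i, ss i ^ 4 = 0 := by
  obtain ⟨h0, h1, h2⟩ := ss_pow
  rw [Fin.sum_univ_three, h0, h1, h2]; norm_num

/-- a nonzero vector of the cone has `s ≠ 0` and `(x, z) ≠ (0, 0)` -/
theorem ne_of_mm_ne {s : Fin 3 → ℂ} {x z y : ℂ} (hy : y ^ 4 = GG s x z)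
    (h : mm s x z y ≠ 0) : s ≠ 0 ∧ (x ≠ 0 ∨ z ≠ 0) := by
  constructor
  · rintro rfl
    apply h
    have h1 : y = 0 := by
      have : y ^ 4 = 0 := by rw [hy]; simp [GG, P0, P1]
      exact pow_eq_zero_iff (by norm_num) |>.1 this
    funext q
    rcases q with _ | ⟨i, a⟩
    · simpa [mm] using h1
    · simp [mm]
  · by_contra hcon
    push Not at hcon
    obtain ⟨rfl, rfl⟩ := hcon
    apply h
    have h1 : y = 0 := by
      have : y ^ 4 = 0 := by rw [hy]; simp [GG]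
      exact pow_eq_zero_iff (by norm_num) |>.1 this
    funext q
    rcases q with _ | ⟨i, a⟩
    · simpa [mm] using h1
    · simp only [mm, Pi.zero_apply]
      by_cases ha : (a : ℕ) = 0
      · rw [ha]; simp
      · rw [zero_pow ha]; simp

/-- if `s ≠ 0` and `(x, z) ≠ (0, 0)` then some coordinate `v (some (i, 0))` or
`v (some (i, 5))` is nonzero -/
theorem mm_ne {s : Fin 3 → ℂ} {x z y : ℂ} (hs : s ≠ 0) (h : x ≠ 0 ∨ z ≠ 0) :
    ∃ i, mm s x z y (some (i, 0)) ≠ 0 ∨ mm s x z y (some (i, 5)) ≠ 0 := by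
  obtain ⟨i, hi⟩ := Function.ne_iff.1 hs
  refine ⟨i, ?_⟩
  rcases h with h | h
  · right
    simp only [mm]
    exact mul_ne_zero (mul_ne_zero hi (pow_ne_zero _ h)) (by norm_num)
  · left
    simp only [mm]
    exact mul_ne_zero (mul_ne_zero hi (by norm_num)) (pow_ne_zero _ h)

theorem XC_smul {v : J → ℂ} (hv : v ∈ XC) {c : ℂ} (hc : c ≠ 0) : c • v ∈ XC := by
  obtain ⟨h0, s, x, z, y, hs, hy, rfl⟩ := hv
  refine ⟨smul_ne_zero hc h0, c • s, x, z, c * y, ?_, ?_, mm_smul c s x z y⟩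
  · simp only [Pi.smul_apply, smul_eq_mul, mul_pow, ← Finset.mul_sum, hs, mul_zero]
  · rw [mul_pow, hy, GG_smul]

theorem cone_XX : Cone XX = XC := by
  ext v
  constructor
  · rintro ⟨h, w, hw, h', he⟩
    rw [Projectivization.mk_eq_mk_iff'] at he
    obtain ⟨c, rfl⟩ := he
    have hc : c ≠ 0 := by
      rintro rfl
      exact h (zero_smul _ _)
    exact XC_smul hw hc
  · intro hv
    exact ⟨hv.1, v, hv, hv.1, rfl⟩

theorem ZC_smul {v : J → ℂ} (hv : v ∈ ZC) {c : ℂ} (hc : c ≠ 0) : c • v ∈ ZC := by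
  obtain ⟨h0, x, z, y, hy, rfl⟩ := hv
  obtain ⟨e, he⟩ := IsAlgClosed.exists_pow_nat_eq c (n := 5) (by norm_num)
  refine ⟨smul_ne_zero hc h0, e * x, e * z, e ^ 5 * y, ?_, ?_⟩
  · rw [mul_pow, hy]; ring
  · rw [mm_scale, he]

theorem cone_ZZ : Cone ZZ = ZC := by
  ext v
  constructor
  · rintro ⟨h, w, hw, h', he⟩
    rw [Projectivization.mk_eq_mk_iff'] at he
    obtain ⟨c, rfl⟩ := he
    have hc : c ≠ 0 := by
      rintro rfl
      exact h (zero_smul _ _)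
    exact ZC_smul hw hc
  · intro hv
    exact ⟨hv.1, v, hv, hv.1, rfl⟩

theorem ZC_sub : ZC ⊆ XC := by
  rintro v ⟨h0, x, z, y, hy, rfl⟩
  exact ⟨h0, ss, x, z, y, ss_fermat, by rw [GG_ss, hy], rfl⟩

theorem ZZ_sub : ZZ ⊆ XX := by
  rintro p ⟨v, hv, h, rfl⟩
  exact ⟨v, ZC_sub hv, h, rfl⟩

end W489.Dem
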