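import Pool.Agent.W489.Dem.DZ1
import Pool.Agent.W489.Dem.DZ2
import Pool.Agent.W489.Dem.DZ3
import Pool.Agent.W489.Dem.DX2

/-!
The intersection number of the conormal variety of the cuspidal fibre.
-/

set_option autoImplicit false

open scoped LinearAlgebra.Projectivization Topology
open Metric Set Filter

namespace W489.Dem.Number

theorem root_one {y : ℂ} (h : y ^ 4 = 1) : ∃ k : Fin 4, y = Complex.I ^ (k : ℕ) := by
  have hI : Complex.I ^ 2 = -1 := Complex.I_sq
  have hf : (y - 1) * ((y - Complex.I) * ((y + 1) * (y + Complex.I))) = 0 := by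
    linear_combination h - (y ^ 2 - 1) * hI
  rcases mul_eq_zero.1 hf with h1 | h1
  · exact ⟨0, by simpa using sub_eq_zero.1 h1⟩
  · rcases mul_eq_zero.1 h1 with h1 | h1
    · exact ⟨1, by simpa using sub_eq_zero.1 h1⟩
    · rcases mul_eq_zero.1 h1 with h1 | h1
      · refine ⟨2, ?_⟩
        change y = Complex.I ^ 2
        rw [hI]
        linear_combination h1
      · refine ⟨3, ?_⟩
        change y = Complex.I ^ 3
        rw [pow_succ, hI]
        linear_combination h1

theorem I_inj {k k' : Fin 4} (h : Complex.I ^ (k : ℕ) = Complex.I ^ (k' : ℕ)) : k = k' := by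
  have h1 := congrArg Complex.re h
  have h2 := congrArg Complex.im h
  have h3 : Complex.I ^ 3 = -Complex.I := by
    rw [pow_succ, Complex.I_sq]; ring
  fin_cases k <;> fin_cases k' <;> simp [h3] at h1 h2 ⊢ <;>
    first | (norm_num at h2; done) | (norm_num at h1; done)

/-- an eighth root of unity -/
noncomputable def om : ℂ := (-1 : ℂ) ^ ((4 : ℂ)⁻¹)

theorem om_pow : om ^ 4 = -1 := by
  have := Complex.cpow_nat_inv_pow (-1 : ℂ) (n := 4) (by norm_num)
  unfold om
  exact_mod_cast this

theorem om_ne : om ≠ 0 := by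
  intro h
  have := om_pow
  rw [h] at this
  norm_num at this

theorem ss0 : ss 0 ≠ 0 := Z1.ss0

theorem neA (y : ℂ) : mm ss 0 1 y ≠ 0 := by
  intro h
  have := congrFun h (some (0, 0))
  simp [mm] at this
  exact ss0 this

theorem neB (y : ℂ) : mm ss 1 0 y ≠ 0 := by
  intro h
  have := congrFun h (some (0, 5))
  simp [mm] at this
  exact ss0 this

/-- the eight points -/
noncomputable def pt : Fin 4 ⊕ Fin 4 → PS J
  | Sum.inl k => Projectivization.mk ℂ (mm ss 0 1 (Complex.I ^ (k : ℕ))) (neA _)
  | Sum.inr k => Projectivization.mk ℂ (mm ss 1 0 (om * Complex.I ^ (k : ℕ))) (neB _)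

theorem pt_injective : Function.Injective pt := by
  intro a b hab
  have hs := ss0
  rcases a with k | k <;> rcases b with k' | k'
  · simp only [pt] at hab
    rw [Projectivization.mk_eq_mk_iff'] at hab
    obtain ⟨c, hc⟩ := hab
    have h1 := congrFun hc (some (0, 0))
    have h2 := congrFun hc none
    simp only [mm, Pi.smul_apply, smul_eq_mul, Fin.val_zero, pow_zero, mul_one, one_pow] at h1 h2
    have hc1 : c = 1 := by
      apply mul_right_cancel₀ hs
      rw [h1, one_mul]
    rw [hc1, one_mul] at h2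
    rw [I_inj h2]
  · simp only [pt] at hab
    rw [Projectivization.mk_eq_mk_iff'] at hab
    obtain ⟨c, hc⟩ := hab
    have h1 := congrFun hc (some (0, 0))
    simp [mm] at h1
    exact absurd h1.symm hs
  · simp only [pt] at hab
    rw [Projectivization.mk_eq_mk_iff'] at hab
    obtain ⟨c, hc⟩ := hab
    have h1 := congrFun hc (some (0, 5))
    simp [mm] at h1
    exact absurd h1.symm hs
  · simp only [pt] at hab
    rw [Projectivization.mk_eq_mk_iff'] at hab
    obtain ⟨c, hc⟩ := hab
    have h1 := congrFun hc (some (0, 5))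
    have h2 := congrFun hc none
    have h5 : (((5 : Fin 6)) : ℕ) = 5 := rfl
    simp only [mm, Pi.smul_apply, smul_eq_mul, h5, one_pow, mul_one, Nat.sub_self, pow_zero] at h1 h2
    have hc1 : c = 1 := by
      apply mul_right_cancel₀ hs
      rw [h1, one_mul]
    rw [hc1, one_mul] at h2
    rw [I_inj (mul_left_cancel₀ om_ne h2)]

theorem main : ConormalNumber XX ZZ (-8) := by
  classical
  refine ⟨eta, Z3.main, Finset.univ.map ⟨pt, pt_injective⟩, fun _ => -1, ?_, ?_, ?_⟩
  · intro p hp
    simp only [Finset.mem_map, Finset.mem_univ, true_and, Function.Embedding.coeFn_mk] at hp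
    obtain ⟨a, rfl⟩ := hp
    rcases a with k | k
    · refine ⟨_, neA (Complex.I ^ (k : ℕ)), rfl, Z1.main.1 _ ?_⟩
      rw [← pow_mul, mul_comm, pow_mul, Complex.I_pow_four, one_pow]
    · refine ⟨_, neB (om * Complex.I ^ (k : ℕ)), rfl, Z1.main.2 _ ?_⟩
      rw [mul_pow, om_pow, ← pow_mul, mul_comm (k : ℕ) 4, pow_mul, Complex.I_pow_four, one_pow,
        mul_one]
  · intro v hv hcon
    simp only [Finset.mem_map, Finset.mem_univ, true_and, Function.Embedding.coeFn_mk]
    have hvZ : v ∈ ZC := by
      have := hcon.1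
      rwa [cone_ZZ] at this
    obtain ⟨-, x, z, y, hy, rfl⟩ := hvZ
    have hxz : x = 0 ∨ z = 0 := by
      by_contra h
      push Not at h
      exact Z2.main X2.main x z y h.1 h.2 hy hcon
    obtain ⟨-, hne⟩ := ne_of_mm_ne (s := ss) (x := x) (z := z) (y := y) (by rw [GG_ss, hy]) hv
    rcases hxz with rfl | rfl
    · have hz : z ≠ 0 := by
        rcases hne with h | h
        · exact absurd rfl h
        · exact h
      obtain ⟨k, hk⟩ := root_one (y := y / z ^ 5) (by
        rw [div_pow, hy]
        field_simp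
        ring)
      refine ⟨Sum.inl k, ?_⟩
      simp only [pt]
      rw [Projectivization.mk_eq_mk_iff']
      refine ⟨(z ^ 5)⁻¹, ?_⟩
      rw [← hk]
      have h1 := mm_scale z ss 0 1 (y / z ^ 5)
      rw [mul_zero, mul_one, mul_div_cancel₀ _ (pow_ne_zero 5 hz)] at h1
      rw [h1, smul_smul, inv_mul_cancel₀ (pow_ne_zero 5 hz), one_smul]
    · have hx : x ≠ 0 := by
        rcases hne with h | h
        · exact h
        · exact absurd rfl h
      obtain ⟨k, hk⟩ := root_one (y := y / x ^ 5 / om) (by
        rw [div_pow, div_pow, hy, om_pow]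
        field_simp
        ring)
      refine ⟨Sum.inr k, ?_⟩
      simp only [pt]
      rw [Projectivization.mk_eq_mk_iff']
      refine ⟨(x ^ 5)⁻¹, ?_⟩
      rw [← hk]
      have h1 := mm_scale x ss 1 0 (y / x ^ 5)
      rw [mul_zero, mul_one, mul_div_cancel₀ _ (pow_ne_zero 5 hx)] at h1
      rw [h1, smul_smul, inv_mul_cancel₀ (pow_ne_zero 5 hx), one_smul,
        mul_div_cancel₀ _ om_ne]
  · rw [Finset.sum_const, Finset.card_map, Finset.card_univ]
    simp

end W489.Dem.Number
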