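import Pool.Agent.W489.Dem.Ex

/-!
Tangent spaces: curves, maps to general target spaces, graphs.
-/

set_option autoImplicit false

open scoped LinearAlgebra.Projectivization Topology
open Metric Set Filter

namespace W489.Dem

variable {ι : Type} [Fintype ι]

/-- a curve in the cone has its derivative in the tangent space -/
theorem IsTangent.mem_of_curve {X : Set (PS ι)} {v : ι → ℂ} {T : Submodule ℂ (ι → ℂ)}
    (h : IsTangent X v T) {c : ℂ → ι → ℂ} {τ : ι → ℂ} (hc : HasDerivAt c τ 0) (h0 : c 0 = v)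
    (hX : ∀ᶠ t in 𝓝 (0 : ℂ), c t ∈ Cone X) : τ ∈ T := by
  obtain ⟨-, U, k, F, hU, hvU, hF, -, hz, hT⟩ := h
  rw [hT]
  have h1 : ∀ᶠ t in 𝓝 (0 : ℂ), F (c t) = 0 := by
    have h2 : ∀ᶠ t in 𝓝 (0 : ℂ), c t ∈ U :=
      hc.continuousAt.eventually (by rw [h0]; exact hU.mem_nhds hvU)
    filter_upwards [hX, h2] with t h3 h4
    exact (hz _ h4).1 h3
  have h2 : HasFDerivAt F (fderiv ℂ F v) (c 0) := by
    rw [h0]
    exact (hF.differentiableAt (hU.mem_nhds hvU)).hasFDerivAt
  have h3 : HasDerivAt (fun t => F (c t)) (fderiv ℂ F v τ) 0 := h2.comp_hasDerivAt 0 hc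
  have h4 : HasDerivAt (fun t => F (c t)) 0 0 := by
    have := hasDerivAt_const (0 : ℂ) (0 : Fin k → ℂ)
    exact this.congr_of_eventuallyEq h1
  exact h3.unique h4

/-- the definition with a general target space -/
theorem isTangent_of_map {X : Set (PS ι)} {v : ι → ℂ} {E : Type} [NormedAddCommGroup E]
    [NormedSpace ℂ E] [FiniteDimensional ℂ E] {U : Set (ι → ℂ)} {F : (ι → ℂ) → E}
    {F' : (ι → ℂ) →L[ℂ] E} (hv : v ∈ Cone X)
    (hU : IsOpen U) (hvU : v ∈ U) (hF : DifferentiableOn ℂ F U) (hF' : HasFDerivAt F F' v)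
    (hs : Function.Surjective F') (hz : ∀ w ∈ U, w ∈ Cone X ↔ F w = 0) :
    IsTangent X v (LinearMap.ker F'.toLinearMap) := by
  let e : E ≃L[ℂ] (Fin (Module.finrank ℂ E) → ℂ) :=
    ContinuousLinearEquiv.ofFinrankEq (by simp)
  let L : E →L[ℂ] (Fin (Module.finrank ℂ E) → ℂ) := e
  have he : HasFDerivAt (fun w => e (F w)) (L.comp F') v := L.hasFDerivAt.comp v hF'
  refine ⟨hv, U, Module.finrank ℂ E, fun w => e (F w), hU, hvU, ?_, ?_, ?_, ?_⟩
  · exact L.differentiable.comp_differentiableOn hF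
  · rw [he.fderiv]
    intro y
    obtain ⟨x, hx⟩ := hs (e.symm y)
    exact ⟨x, by simp [hx, L]⟩
  · intro w hw
    rw [hz w hw]
    simp
  · intro u
    rw [he.fderiv]
    simp [L]

/-- if `G` does not depend on the coordinates in `D`, its derivative vanishes on the vectors
supported in `D` -/
theorem fderiv_eq_zero_of_supp {κ : Type*} [NormedAddCommGroup κ] [NormedSpace ℂ κ] (D : Set ι)
    {G : (ι → ℂ) → κ} {G' : (ι → ℂ) →L[ℂ] κ}
    {v : ι → ℂ} (hG : HasFDerivAt G G' v) (hdep : ∀ w w' : ι → ℂ, (∀ q ∉ D, w q = w' q) → G w = G w')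
    {u : ι → ℂ} (hu : ∀ q ∉ D, u q = 0) : G' u = 0 := by
  have h1 : HasDerivAt (fun t : ℂ => v + t • u) u 0 := by
    have := ((hasDerivAt_id (0 : ℂ)).smul_const u).const_add v
    simpa using this
  have h2 : HasFDerivAt G G' ((fun t : ℂ => v + t • u) 0) := by simpa using hG
  have h3 : HasDerivAt (fun t : ℂ => G (v + t • u)) (G' u) 0 := h2.comp_hasDerivAt 0 h1
  have h4 : HasDerivAt (fun t : ℂ => G (v + t • u)) 0 0 := by
    have := hasDerivAt_const (0 : ℂ) (G v)
    refine this.congr_of_eventuallyEq (Eventually.of_forall fun t => ?_)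
    refine hdep _ _ fun q hq => ?_
    simp [hu q hq]
  exact h3.unique h4

/-- the tangent space of a graph -/
theorem isTangent_of_graph {X : Set (PS ι)} {v : ι → ℂ} (D : Set ι) {U : Set (ι → ℂ)}
    {G : (ι → ℂ) → (ι → ℂ)} {G' : (ι → ℂ) →L[ℂ] (ι → ℂ)} (hv : v ∈ Cone X)
    (hU : IsOpen U) (hvU : v ∈ U) (hG : DifferentiableOn ℂ G U) (hG' : HasFDerivAt G G' v)
    (hdep : ∀ w w' : ι → ℂ, (∀ q ∉ D, w q = w' q) → G w = G w')
    (hz : ∀ w ∈ U, w ∈ Cone X ↔ ∀ q ∈ D, w q = G w q) :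
    ∃ T, IsTangent X v T ∧ ∀ u, u ∈ T ↔ ∀ q ∈ D, u q = G' u q := by
  classical
  haveI : Fintype D := Fintype.ofFinite D
  let F : (ι → ℂ) → (D → ℂ) := fun w q => w q - G w q
  let R : (ι → ℂ) →L[ℂ] (D → ℂ) := ContinuousLinearMap.pi fun q => ContinuousLinearMap.proj (q : ι)
  have hR : ∀ u (q : D), R u q = u q := fun u q => rfl
  have hF : F = fun w => R w - R (G w) := rfl
  have hF' : HasFDerivAt F (R - R.comp G') v := by
    rw [hF]
    exact R.hasFDerivAt.sub (R.hasFDerivAt.comp v hG')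
  refine ⟨_, isTangent_of_map (F := F) hv hU hvU ?_ hF' ?_ ?_, ?_⟩
  · rw [hF]
    exact R.differentiable.differentiableOn.sub (R.differentiable.comp_differentiableOn hG)
  · intro y
    let u : ι → ℂ := fun q => if h : q ∈ D then y ⟨q, h⟩ else 0
    have h1 : G' u = 0 := by
      refine fderiv_eq_zero_of_supp D hG' hdep fun q hq => ?_
      simp [u, hq]
    refine ⟨u, ?_⟩
    funext q
    simp [h1, hR, u]
  · intro w hw
    rw [hz w hw]
    constructor
    · intro h
      funext q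
      simp only [F, Pi.zero_apply]
      rw [h q q.2, sub_self]
    · intro h q hq
      have := congrFun h ⟨q, hq⟩
      simp only [F, Pi.zero_apply] at this
      exact sub_eq_zero.1 this
  · intro u
    rw [LinearMap.mem_ker]
    constructor
    · intro h q hq
      have h1 := congrFun h ⟨q, hq⟩
      have h2 : u q - G' u q = 0 := h1
      exact sub_eq_zero.1 h2
    · intro h
      funext q
      change u q - G' u q = 0
      rw [h q q.2, sub_self]

end W489.Dem
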